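import Mathlib

/-!
# Representations with a large image: definitions
-/

set_option autoImplicit false

namespace Pool.Agent.RF

open Matrix

/-- The image of `r` contains a conjugate of the symplectic group `Sp_{2g}(F)`, where `2g = d` is
at least `4` and `F` is a field with a homomorphism to `k`. -/
def ContainsSp {k : Type*} [Field k] {G : Type*} [Group G] {d : ℕ}
    (r : G →* Matrix (Fin d) (Fin d) k) : Prop :=
  ∃ (F : Type) (_ : Field F) (_ : Algebra F k) (g : ℕ) (P : Matrix (Fin d) (Fin g ⊕ Fin g) k)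
    (Q : Matrix (Fin g ⊕ Fin g) (Fin d) k), 2 ≤ g ∧ P * Q = 1 ∧ Q * P = 1 ∧
      ∀ A ∈ Matrix.symplecticGroup (Fin g) F, ∃ σ, r σ = P * A.map (algebraMap F k) * Q

/-- The image of `r` contains a conjugate of the orthogonal group of a nondegenerate quadratic form
`q` in `d ≥ 6` variables over the field with two elements; here `d = 2g` and the polar form of `q`
is the standard alternating form. -/
def ContainsO {k : Type*} [Field k] {G : Type*} [Group G] {d : ℕ}
    (r : G →* Matrix (Fin d) (Fin d) k) : Prop :=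
  ∃ (_ : Algebra (ZMod 2) k) (g : ℕ) (q : (Fin g ⊕ Fin g → ZMod 2) → ZMod 2)
    (P : Matrix (Fin d) (Fin g ⊕ Fin g) k) (Q : Matrix (Fin g ⊕ Fin g) (Fin d) k),
    3 ≤ g ∧ (∀ x y, q (x + y) = q x + q y + x ⬝ᵥ (Matrix.J (Fin g) (ZMod 2) *ᵥ y)) ∧
      P * Q = 1 ∧ Q * P = 1 ∧
      ∀ A : Matrix (Fin g ⊕ Fin g) (Fin g ⊕ Fin g) (ZMod 2), (∀ x, q (A *ᵥ x) = q x) →
        ∃ σ, r σ = P * A.map (algebraMap (ZMod 2) k) * Q

end Pool.Agent.RF
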