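import Pool.Agent.Lib_helper61.TB.DefsE
import Pool.Agent.Lib_helper61.TB.Defs
import Pool.Agent.Lib_helper28.TE28.Defs

/-!
# The hypotheses and the conclusion of the theorem on representations with big residual image
-/

set_option autoImplicit false

namespace Pool.Agent.RF

open NumberField Pool.Agent.TT Pool.Agent.TB Pool.Agent.TF

/-- The function `t` on the Galois group has the Frobenius values `T(F)`, the character sums of the
family of strata `S`, where `K` is embedded in `C` by `ι`. -/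
def SumTraces {K : Type} [Field K] [Algebra K Qbar] {C : Type} [Field C] (t : (Qbar ≃ₐ[K] Qbar) → C)
    (ι : K →+* C) (m : ℕ) (ζ : 𝓞 K) {s : ℕ} (S : Fin s → Stratum K) : Prop :=
  FrobeniusValues t fun _ _ _ φ => ι (strataSum m ζ φ S : 𝓞 K)

/-- The function `t` on the Galois group has the Frobenius values `N(F)`, the numbers of points of
the family of strata `S`. -/
def CardTraces {K : Type} [Field K] [Algebra K Qbar] {k : Type} [Field k]
    (t : (Qbar ≃ₐ[K] Qbar) → k) {s : ℕ} (S : Fin s → Stratum K) : Prop :=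
  FrobeniusValues t fun _ _ _ φ => ((strataCard φ S : ℤ) : k)

/-- Alternative (1): the image of `r` contains a conjugate of a symplectic group in `d ≥ 4`
variables or of an orthogonal group over the field with two elements in `d ≥ 6` variables, and
`p > d` or `ρ(j)` has infinite image. Alternative (2): `r` is irreducible (its image spans the
matrices) and the determinant of `ρ(j)` has infinite order. -/
def BigImage {K : Type} [Field K] [Algebra K Qbar] {p : ℕ} [Fact p.Prime] {d : ℕ}
    (ρ : (Qbar ≃ₐ[K] Qbar) →* Matrix (Fin d) (Fin d) ℂ_[p]) {k : Type} [Field k]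
    (r : (Qbar ≃ₐ[K] Qbar) →* Matrix (Fin d) (Fin d) k) (j : ℕ) : Prop :=
  ((ContainsSp r ∨ ContainsO r) ∧ (d < p ∨ (Set.range fun σ => cycC p σ ^ j • ρ σ).Infinite)) ∨
    (Submodule.span k (Set.range r) = ⊤ ∧
      ∀ e : ℕ, 0 < e → ∃ σ, (cycC p σ ^ j • ρ σ).det ^ e ≠ 1)

/-- No open subgroup of the Galois group acts trivially on a nonzero subquotient `W₂ / W₁` of the
twist `V(j)` of the representation `π` on `V`. -/
def NoTateClasses {K : Type} [Field K] [Algebra K Qbar] {ℓ : ℕ} [Fact ℓ.Prime] {V : Type}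
    [AddCommGroup V] [Module (PadicAlgCl ℓ) V]
    (π : Representation (PadicAlgCl ℓ) (Qbar ≃ₐ[K] Qbar) V) (j : ℕ) : Prop :=
  ∀ H : Subgroup (Qbar ≃ₐ[K] Qbar), IsOpen (H : Set (Qbar ≃ₐ[K] Qbar)) →
    ∀ W₁ W₂ : Submodule (PadicAlgCl ℓ) V, W₁ ≤ W₂ →
      (∀ σ ∈ H, ∀ x ∈ W₂, cyc ℓ σ ^ j • π σ x - x ∈ W₁) → W₁ = W₂

end Pool.Agent.RF
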