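import Mathlib

/-!
# Finite `p`-groups of matrices of size less than `p`
-/

set_option autoImplicit false

namespace Pool.Agent.RF

section

variable {E V : Type*} [Field E] [IsAlgClosed E] [CharZero E] [AddCommGroup V] [Module E V]
  [Module.Finite E V]

/-- An operator of finite order different from `1` has an eigenvalue different from `1`. -/
theorem exists_eig (C : Module.End E V) {n : ℕ} (hn : n ≠ 0) (h : C ^ n = 1) (h1 : C ≠ 1) :
    ∃ ζ : E, ζ ≠ 1 ∧ C.HasEigenvalue ζ := by
  let W : Submodule E V := LinearMap.range (C - 1)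
  have hW : ∀ w ∈ W, C w ∈ W := by
    rintro _ ⟨v, rfl⟩
    refine ⟨C v, ?_⟩
    simp [LinearMap.sub_apply]
  have hWn : Nontrivial W := by
    rw [Submodule.nontrivial_iff_ne_bot]
    intro hbot
    apply h1
    rw [LinearMap.range_eq_bot] at hbot
    exact sub_eq_zero.mp hbot
  obtain ⟨ζ, hζ⟩ := Module.End.exists_eigenvalue (C.restrict hW)
  obtain ⟨w, hw⟩ := hζ.exists_hasEigenvector
  have hw0 : (w : V) ≠ 0 := by
    intro h0
    exact hw.2 (Subtype.ext h0)
  have hCw : C w = ζ • (w : V) := by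
    have := congrArg Subtype.val hw.apply_eq_smul
    simpa using this
  refine ⟨ζ, ?_, Module.End.hasEigenvalue_of_hasEigenvector
    ⟨Module.End.mem_eigenspace_iff.mpr hCw, hw0⟩⟩
  rintro rfl
  rw [one_smul] at hCw
  obtain ⟨v, hv⟩ := w.2
  have h2 : (∑ i ∈ Finset.range n, C ^ i) * (C - 1) = 0 := by
    rw [geom_sum_mul, h, sub_self]
  have h3 : (∑ i ∈ Finset.range n, C ^ i) (w : V) = 0 := by
    rw [← hv]
    have := congrArg (fun f : Module.End E V => f v) h2
    simpa using this
  have h4 : ∀ i : ℕ, (C ^ i) (w : V) = w := by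
    intro i
    induction i with
    | zero => simp
    | succ i ih => rw [pow_succ, Module.End.mul_apply, hCw, ih]
  rw [LinearMap.sum_apply, Finset.sum_congr rfl (fun i _ => h4 i), Finset.sum_const,
    Finset.card_range, ← Nat.cast_smul_eq_nsmul E, smul_eq_zero] at h3
  rcases h3 with h3 | h3
  · exact hn (by exact_mod_cast h3)
  · exact hw0 h3

/-- Two operators whose commutator is a nontrivial operator of `p`-power order that commutes with
both act on a space of dimension at least `p`. -/
theorem le_finrank {A B C : Module.End E V} (hAC : A * C = C * A) (hBC : B * C = C * B)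
    (hA : IsUnit A) (hB : IsUnit B) (h : A * B = C * (B * A)) {p m : ℕ} (hp : p.Prime)
    (hC : C ^ p ^ m = 1) (hC1 : C ≠ 1) : p ≤ Module.finrank E V := by
  obtain ⟨ζ, hζ1, hζ⟩ := exists_eig C (pow_ne_zero _ hp.ne_zero) hC hC1
  have hA' : ∀ w ∈ C.eigenspace ζ, A w ∈ C.eigenspace ζ := by
    intro w hw
    rw [Module.End.mem_eigenspace_iff] at hw ⊢
    rw [← Module.End.mul_apply, ← hAC, Module.End.mul_apply, hw, map_smul]
  have hB' : ∀ w ∈ C.eigenspace ζ, B w ∈ C.eigenspace ζ := by
    intro w hw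
    rw [Module.End.mem_eigenspace_iff] at hw ⊢
    rw [← Module.End.mul_apply, ← hBC, Module.End.mul_apply, hw, map_smul]
  have hinj : ∀ (T : Module.End E V) (hT : ∀ w ∈ C.eigenspace ζ, T w ∈ C.eigenspace ζ),
      IsUnit T → LinearMap.det (T.restrict hT) ≠ 0 := by
    intro T hT hu
    have h1 : Function.Injective (T.restrict hT) := by
      intro a b hab
      have h2 := congrArg Subtype.val hab
      rw [LinearMap.restrict_coe_apply, LinearMap.restrict_coe_apply] at h2
      have h3 : Function.Injective T := ((Module.End.isUnit_iff T).mp hu).1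
      exact Subtype.ext (h3 h2)
    have h2 : LinearMap.ker (T.restrict hT) = ⊥ := LinearMap.ker_eq_bot.mpr h1
    intro h0
    exact (LinearMap.bot_lt_ker_of_det_eq_zero h0).ne' h2
  have hdet : (A.restrict hA') * (B.restrict hB') = ζ • ((B.restrict hB') * (A.restrict hA')) := by
    ext w
    have h1 : (A * B) (w : V) = (C * (B * A)) (w : V) := by rw [h]
    have h2 : C (B (A (w : V))) = ζ • B (A (w : V)) :=
      Module.End.mem_eigenspace_iff.mp (hB' _ (hA' _ w.2))
    simp only [Module.End.mul_apply] at h1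
    simp only [Module.End.mul_apply, LinearMap.smul_apply, LinearMap.restrict_coe_apply,
      Submodule.coe_smul]
    rw [h1, h2]
  have h1 := congrArg LinearMap.det hdet
  rw [LinearMap.det_smul, map_mul, map_mul, mul_comm (LinearMap.det (B.restrict hB'))] at h1
  have h2 : ζ ^ Module.finrank E (C.eigenspace ζ) = 1 :=
    (mul_eq_right₀ (mul_ne_zero (hinj A hA' hA) (hinj B hB' hB))).mp h1.symm
  obtain ⟨w, hw⟩ := hζ.exists_hasEigenvector
  have h3 : ζ ^ p ^ m = 1 := by
    have h4 : (C ^ p ^ m) w = ζ ^ p ^ m • w := hw.pow_apply _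
    rw [hC, Module.End.one_apply] at h4
    have h5 : (ζ ^ p ^ m - 1) • w = 0 := by rw [sub_smul, one_smul, ← h4, sub_self]
    rcases smul_eq_zero.mp h5 with h6 | h6
    · exact sub_eq_zero.mp h6
    · exact absurd h6 hw.2
  have h4 : p ∣ Module.finrank E (C.eigenspace ζ) := by
    have h5 := orderOf_dvd_of_pow_eq_one h3
    obtain ⟨i, hi, hi'⟩ := (Nat.dvd_prime_pow hp).mp h5
    have h6 : i ≠ 0 := by
      rintro rfl
      rw [pow_zero, orderOf_eq_one_iff] at hi'
      exact hζ1 hi'
    exact ((dvd_pow_self p h6).trans (hi' ▸ dvd_refl _)).trans (orderOf_dvd_of_pow_eq_one h2)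
  have h5 : 0 < Module.finrank E (C.eigenspace ζ) := by
    have : Nontrivial (C.eigenspace ζ) := by
      rw [Submodule.nontrivial_iff_ne_bot]
      exact hζ
    exact Module.finrank_pos
  exact (Nat.le_of_dvd h5 h4).trans (Submodule.finrank_le _)

/-- Finite `p`-groups of operators in dimension less than `p` are commutative. -/
theorem comm_of_pgroup {p : ℕ} [hp : Fact p.Prime] {S : Type*} [Group S] [Finite S]
    (hS : IsPGroup p S) (φ : S →* Module.End E V) (hφ : Function.Injective φ)
    (hd : Module.finrank E V < p) (x y : S) : x * y = y * x := by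
  by_contra hxy
  -- the quotient by the centre is nontrivial
  have hc : Subgroup.center S ≠ ⊤ := by
    intro htop
    have : x ∈ Subgroup.center S := by rw [htop]; exact Subgroup.mem_top x
    exact hxy (Subgroup.mem_center_iff.mp this y).symm
  have hnt : Nontrivial (S ⧸ Subgroup.center S) := by
    rw [QuotientGroup.nontrivial_iff]
    exact hc
  have hSq : IsPGroup p (S ⧸ Subgroup.center S) := hS.to_quotient _
  have := hSq.center_nontrivial
  obtain ⟨⟨z, hz⟩, hz1⟩ := exists_ne (1 : Subgroup.center (S ⧸ Subgroup.center S))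
  obtain ⟨a, rfl⟩ := QuotientGroup.mk_surjective z
  have ha : a ∉ Subgroup.center S := by
    intro h
    apply hz1
    apply Subtype.ext
    exact (QuotientGroup.eq_one_iff a).mpr h
  obtain ⟨b, hb⟩ : ∃ b, b * a ≠ a * b := by
    by_contra hcon
    push Not at hcon
    exact ha (Subgroup.mem_center_iff.mpr hcon)
  -- the commutator
  set c := a * b * a⁻¹ * b⁻¹ with hc'
  have hcc : c ∈ Subgroup.center S := by
    rw [← QuotientGroup.eq_one_iff]
    have h1 := Subgroup.mem_center_iff.mp hz (b : S ⧸ Subgroup.center S)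
    rw [hc', QuotientGroup.mk_mul, QuotientGroup.mk_mul, QuotientGroup.mk_mul,
      QuotientGroup.mk_inv, QuotientGroup.mk_inv, ← h1, mul_inv_cancel_right, mul_inv_cancel]
  have hc1 : c ≠ 1 := by
    intro h
    apply hb
    rw [hc'] at h
    have h2 : a * b = b * a := by
      have := congrArg (fun z => z * b * a) h
      simpa [mul_assoc] using this
    exact h2.symm
  obtain ⟨m, hm⟩ := hS c
  have hab : a * b = c * (b * a) := by rw [hc']; group
  have h1 := le_finrank (A := φ a) (B := φ b) (C := φ c) (p := p) (m := m)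
    (by rw [← map_mul, ← map_mul, Subgroup.mem_center_iff.mp hcc a])
    (by rw [← map_mul, ← map_mul, Subgroup.mem_center_iff.mp hcc b])
    ((Group.isUnit a).map φ) ((Group.isUnit b).map φ)
    (by rw [← map_mul, ← map_mul, ← map_mul, hab]) hp.out
    (by rw [← map_pow, hm, map_one])
    (by
      intro h
      apply hc1
      apply hφ
      rw [h, map_one])
  omega

end

/-- A normal subgroup `N` with `q ^ p ∈ N` for all `q` has a complement that is a `p`-group, in a
weak sense. -/
theorem exists_sup {p : ℕ} [hp : Fact p.Prime] {Q : Type*} [Group Q] [Finite Q] (N : Subgroup Q)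
    [N.Normal] (hN : ∀ q : Q, q ^ p ∈ N) : ∃ S : Subgroup Q, IsPGroup p S ∧ S ⊔ N = ⊤ := by
  obtain ⟨S⟩ : Nonempty (Sylow p Q) := inferInstance
  refine ⟨S, S.isPGroup', ?_⟩
  have hP : IsPGroup p (Q ⧸ N) := by
    intro q
    obtain ⟨q, rfl⟩ := QuotientGroup.mk_surjective q
    refine ⟨1, ?_⟩
    rw [pow_one, ← QuotientGroup.mk_pow, QuotientGroup.eq_one_iff]
    exact hN q
  obtain ⟨n, hn⟩ := IsPGroup.iff_card.mp hP
  have h1 : ((S : Subgroup Q) ⊔ N).index ∣ (S : Subgroup Q).index :=
    Subgroup.index_dvd_of_le le_sup_left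
  have h2 : ((S : Subgroup Q) ⊔ N).index ∣ N.index := Subgroup.index_dvd_of_le le_sup_right
  rw [Subgroup.index_eq_card N, hn] at h2
  obtain ⟨i, -, hi⟩ := (Nat.dvd_prime_pow hp.out).mp h2
  rw [← Subgroup.index_eq_one, hi]
  rcases Nat.eq_zero_or_pos i with h0 | h0
  · rw [h0, pow_zero]
  · exfalso
    exact S.not_dvd_index ((dvd_pow_self p h0.ne').trans (hi ▸ h1))

/-- If `Q` is a finite group of matrices of size less than `p` and `N` is a normal subgroup such
that the quotient has exponent `p`, then the quotient is commutative. -/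
theorem comm_mem {E : Type*} [Field E] [IsAlgClosed E] [CharZero E] {p d : ℕ}
    [hp : Fact p.Prime] (hd : d < p) {Q : Type*} [Group Q] [Finite Q]
    (φ : Q →* Matrix (Fin d) (Fin d) E) (hφ : Function.Injective φ) (N : Subgroup Q)
    [N.Normal] (hN : ∀ q : Q, q ^ p ∈ N) (x y : Q) : (x * y)⁻¹ * (y * x) ∈ N := by
  obtain ⟨S, hS, hSN⟩ := exists_sup N hN
  have h1 : ∀ q : Q, ∃ s ∈ S, (q : Q ⧸ N) = s := by
    intro q
    have hq : q ∈ S ⊔ N := by rw [hSN]; exact Subgroup.mem_top q
    rw [← SetLike.mem_coe, Subgroup.mul_normal] at hq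
    obtain ⟨s, hs, n, hn, rfl⟩ := hq
    refine ⟨s, hs, ?_⟩
    change (((s * n : Q)) : Q ⧸ N) = s
    rw [QuotientGroup.mk_mul, (QuotientGroup.eq_one_iff n).mpr hn, mul_one]
  obtain ⟨s, hs, hs'⟩ := h1 x
  obtain ⟨t, ht, ht'⟩ := h1 y
  have h2 := comm_of_pgroup (E := E) (V := Fin d → E) hS
    ((((Matrix.toLinAlgEquiv' : Matrix (Fin d) (Fin d) E ≃ₐ[E] _) : _ →* _).comp φ).comp
      S.subtype) (by
        intro a b hab
        apply Subtype.ext
        apply hφ
        exact (Matrix.toLinAlgEquiv' : Matrix (Fin d) (Fin d) E ≃ₐ[E] _).injective hab)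
    (by rw [Module.finrank_fin_fun]; exact hd) ⟨s, hs⟩ ⟨t, ht⟩
  have h3 : s * t = t * s := congrArg Subtype.val h2
  rw [← QuotientGroup.eq, QuotientGroup.mk_mul, QuotientGroup.mk_mul, hs', ht',
    ← QuotientGroup.mk_mul, ← QuotientGroup.mk_mul, h3]

theorem comm_aux {E : Type*} [Field E] [IsAlgClosed E] [CharZero E] {p d : ℕ}
    [hp : Fact p.Prime] (hd : d < p) {H Q : Type*} [Group H] [Group Q] [Finite Q]
    (φ : Q →* Matrix (Fin d) (Fin d) E) (hφ : Function.Injective φ) (π : H →* Q)
    (hπ : Function.Surjective π) {T : Type*} [Monoid T] (f : H →* T)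
    (hf : ∀ h, f h ^ p = 1) (hker : π.ker ≤ f.ker) (x y : H) : f (x * y) = f (y * x) := by
  have hN : (f.ker.map π).Normal := (MonoidHom.normal_ker f).map _ hπ
  have hmem : ∀ h : H, π h ∈ f.ker.map π → h ∈ f.ker := by
    intro h hh
    obtain ⟨h', hh', e⟩ := Subgroup.mem_map.mp hh
    have h1 : h'⁻¹ * h ∈ π.ker := by
      rw [MonoidHom.mem_ker, map_mul, map_inv, e, inv_mul_cancel]
    have h2 := f.ker.mul_mem hh' (hker h1)
    rwa [mul_inv_cancel_left] at h2
  have h1 := comm_mem hd φ hφ (f.ker.map π) (by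
      intro q
      obtain ⟨h, rfl⟩ := hπ q
      refine Subgroup.mem_map.mpr ⟨h ^ p, ?_, map_pow π h p⟩
      rw [MonoidHom.mem_ker, map_pow, hf]) (π x) (π y)
  have h2 : (x * y)⁻¹ * (y * x) ∈ f.ker := by
    apply hmem
    rw [map_mul, map_inv, map_mul, map_mul]
    exact h1
  rw [MonoidHom.mem_ker] at h2
  have h3 : f (x * y) * f ((x * y)⁻¹ * (y * x)) = f (y * x) := by
    rw [← map_mul, mul_inv_cancel_left]
  rw [h2, mul_one] at h3
  exact h3

/-- If the image of `B` is finite and `f` is a homomorphism to a group of exponent `p` whose kernel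
contains the kernel of `B`, then its image is commutative. -/
theorem comm_of_finite {E : Type*} [Field E] [IsAlgClosed E] [CharZero E] {p d : ℕ}
    [hp : Fact p.Prime] (hd : d < p) {H : Type*} [Group H] (B : H →* Matrix (Fin d) (Fin d) E)
    (hB : B.ker.FiniteIndex) {T : Type*} [Monoid T] (f : H →* T)
    (hf : ∀ h, f h ^ p = 1) (hker : B.ker ≤ f.ker) (x y : H) : f (x * y) = f (y * x) := by
  have hQ : Finite (H ⧸ B.ker) := Subgroup.finite_quotient_of_finiteIndex
  refine comm_aux hd (QuotientGroup.lift B.ker B le_rfl) ?_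
    (QuotientGroup.mk' B.ker) (QuotientGroup.mk'_surjective _) f hf
    (by rw [QuotientGroup.ker_mk']; exact hker) x y
  intro a b hab
  obtain ⟨a, rfl⟩ := QuotientGroup.mk_surjective a
  obtain ⟨b, rfl⟩ := QuotientGroup.mk_surjective b
  have h1 : B a = B b := hab
  rw [QuotientGroup.eq, MonoidHom.mem_ker, map_mul, ← h1, ← map_mul, inv_mul_cancel, map_one]

end Pool.Agent.RF
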