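import Pool.Agent.Lib_helper28.TE28.SpEnd
import Pool.Agent.Lib_helper28.TE28.Pgrp

/-!
# Symplectic residual image and infinite image
-/

set_option autoImplicit false

namespace Pool.Agent.RF

open Filter Topology Matrix Pool.Agent.TBL

section

variable {F : Type} [Field F] {k : Type*} [Field k] [Algebra F k] {g : ℕ}

/-- The elements `v ↦ om w v • x + om x v • w`. -/
def mm (k : Type*) [Field k] [Algebra F k] (v w : Fin g ⊕ Fin g → F) :
    Matrix (Fin g ⊕ Fin g) (Fin g ⊕ Fin g) k :=
  Nk k (Matrix.J (Fin g) F) v w + Nk k (Matrix.J (Fin g) F) w v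

theorem mm_add (v w w' : Fin g ⊕ Fin g → F) : mm k v (w + w') = mm k v w + mm k v w' := by
  unfold mm
  rw [Nk_add_right, Nk_add_left]
  abel

theorem mm_neg (v w : Fin g ⊕ Fin g → F) : mm k v (-w) = -mm k v w := by
  have h1 := mm_add (k := k) v w (-w)
  have h2 : mm k v (0 : Fin g ⊕ Fin g → F) = 0 := by
    have h3 := mm_add (k := k) v 0 0
    rw [add_zero] at h3
    exact left_eq_add.mp h3
  rw [add_neg_cancel, h2] at h1
  exact (neg_eq_of_add_eq_zero_right h1.symm).symm

theorem mm_mul {v w w' : Fin g ⊕ Fin g → F} (h : om (Matrix.J (Fin g) F) v w = 0)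
    (h' : om (Matrix.J (Fin g) F) v w' = 0) : mm k v w * mm k v w' =
      algebraMap F k (om (Matrix.J (Fin g) F) w w') • Nk k (Matrix.J (Fin g) F) v v := by
  have hs : om (Matrix.J (Fin g) F) w v = 0 := by rw [om_skew om_J_self, h, neg_zero]
  unfold mm
  rw [add_mul, mul_add, mul_add, Nk_mul, Nk_mul, Nk_mul, Nk_mul, hs, h', om_J_self]
  simp

theorem mm_N {v w : Fin g ⊕ Fin g → F} (h : om (Matrix.J (Fin g) F) v w = 0) :
    mm k v w * Nk k (Matrix.J (Fin g) F) v v = 0 := by
  have hs : om (Matrix.J (Fin g) F) w v = 0 := by rw [om_skew om_J_self, h, neg_zero]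
  unfold mm
  rw [add_mul, Nk_mul, Nk_mul, hs, om_J_self]
  simp

theorem N_mm {v w : Fin g ⊕ Fin g → F} (h : om (Matrix.J (Fin g) F) v w = 0) :
    Nk k (Matrix.J (Fin g) F) v v * mm k v w = 0 := by
  unfold mm
  rw [mul_add, Nk_mul, Nk_mul, h, om_J_self]
  simp

theorem N_N (v : Fin g ⊕ Fin g → F) :
    Nk k (Matrix.J (Fin g) F) v v * Nk k (Matrix.J (Fin g) F) v v = 0 := by
  rw [Nk_mul, om_J_self, map_zero, zero_smul]

/-- The product in the Heisenberg group. -/
theorem heis_mul {v w w' : Fin g ⊕ Fin g → F} (h : om (Matrix.J (Fin g) F) v w = 0)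
    (h' : om (Matrix.J (Fin g) F) v w' = 0) (c c' : k) :
    (1 + (mm k v w + c • Nk k (Matrix.J (Fin g) F) v v)) *
      (1 + (mm k v w' + c' • Nk k (Matrix.J (Fin g) F) v v)) =
      1 + (mm k v (w + w') + (c + c' + algebraMap F k (om (Matrix.J (Fin g) F) w w')) •
        Nk k (Matrix.J (Fin g) F) v v) := by
  have e : (mm k v w + c • Nk k (Matrix.J (Fin g) F) v v) *
      (mm k v w' + c' • Nk k (Matrix.J (Fin g) F) v v) =
      algebraMap F k (om (Matrix.J (Fin g) F) w w') • Nk k (Matrix.J (Fin g) F) v v := by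
    rw [add_mul, mul_add, mul_add, mm_mul h h', mul_smul_comm, mm_N h, smul_mul_assoc, N_mm h',
      smul_mul_smul_comm, N_N]
    simp
  rw [add_mul, one_mul, mul_add, mul_one, e, mm_add]
  module

theorem heis_sq {v w : Fin g ⊕ Fin g → F} (h : om (Matrix.J (Fin g) F) v w = 0) (c : k) :
    (mm k v w + c • Nk k (Matrix.J (Fin g) F) v v) *
      (mm k v w + c • Nk k (Matrix.J (Fin g) F) v v) = 0 := by
  rw [add_mul, mul_add, mul_add, mm_mul h h, mul_smul_comm, mm_N h, smul_mul_assoc, N_mm h,
    smul_mul_smul_comm, N_N, om_J_self]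
  simp

end

/-- Powers of `1 + M` for `M ^ 2 = 0`. -/
theorem pow_unip {R : Type*} [Ring R] (M : R) (h : M * M = 0) (n : ℕ) :
    (1 + M) ^ n = 1 + (n : R) * M := by
  induction n with
  | zero => simp
  | succ n ih =>
    rw [pow_succ, ih, mul_add, mul_one, add_mul, one_mul, mul_assoc, h, mul_zero, add_zero]
    push_cast
    rw [add_mul, one_mul]
    abel

/-- Conjugated powers. -/
theorem pow_PQ {k : Type*} [Field k] {d : ℕ} {n : Type*} [Fintype n] [DecidableEq n]
    {P : Matrix (Fin d) n k} {Q : Matrix n (Fin d) k} (hPQ : P * Q = 1) (hQP : Q * P = 1)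
    (X : Matrix n n k) (m : ℕ) : (P * X * Q) ^ m = P * X ^ m * Q := by
  induction m with
  | zero => rw [pow_zero, pow_zero, Matrix.mul_one, hPQ]
  | succ m ih =>
    rw [pow_succ, ih, pow_succ]
    calc P * X ^ m * Q * (P * X * Q) = P * (X ^ m * (Q * P) * X) * Q := by
          simp only [Matrix.mul_assoc]
      _ = P * (X ^ m * X) * Q := by rw [hQP, mul_one]

section

attribute [local instance] matRing matAlg matUltra matComplete

variable {G : Type*} [Group G] [TopologicalSpace G] [IsTopologicalGroup G] [CompactSpace G]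

/-- The kernel of a continuous homomorphism of finite exponent is of finite index. -/
theorem ker_finite {p : ℕ} [Fact p.Prime] {d : ℕ} (B : G →* Matrix (Fin d) (Fin d) ℂ_[p])
    (hB : Continuous B) {e : ℕ} (he : 0 < e) (h : ∀ σ, B σ ^ e = 1) : B.ker.FiniteIndex := by
  have he0 : (e : ℂ_[p]) ≠ 0 := by exact_mod_cast he.ne'
  have hpos : 0 < ‖(e : ℂ_[p])‖ := norm_pos_iff.mpr he0
  have hUo : IsOpen {g | ‖B g - 1‖ < min 1 ‖(e : ℂ_[p])‖} := by
    have h1 : Continuous fun g => ‖B g - 1‖ := (hB.sub continuous_const).norm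
    exact isOpen_lt h1 continuous_const
  have hU1 : (1 : G) ∈ {g | ‖B g - 1‖ < min 1 ‖(e : ℂ_[p])‖} := by
    rw [Set.mem_ofPred_eq, map_one, sub_self, norm_zero]
    exact lt_min one_pos hpos
  have hsub : {g | ‖B g - 1‖ < min 1 ‖(e : ℂ_[p])‖} ⊆ B.ker := by
    intro g hg
    rw [Set.mem_ofPred_eq, lt_min_iff] at hg
    rw [SetLike.mem_coe, MonoidHom.mem_ker]
    obtain ⟨y, h1, h2⟩ := exists_pow_eq (k := ℂ_[p]) (B g - 1) hg.1.le e
    rw [add_sub_cancel, h g] at h1
    by_contra hne
    have hx : 0 < ‖B g - 1‖ := norm_pos_iff.mpr (sub_ne_zero.mpr hne)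
    have h3 : (e : ℂ_[p]) • (B g - 1) = -((B g - 1) * y) := by
      rw [eq_neg_iff_add_eq_zero]
      rw [add_assoc, left_eq_add] at h1
      exact h1
    have h4 : ‖(e : ℂ_[p])‖ * ‖B g - 1‖ ≤ ‖B g - 1‖ * ‖B g - 1‖ := by
      rw [← norm_smul, h3, norm_neg]
      exact (norm_mul_le _ _).trans (mul_le_mul_of_nonneg_left h2 (norm_nonneg _))
    have h5 := le_of_mul_le_mul_right h4 hx
    exact absurd hg.2 (not_lt.mpr h5)
  have hopen : IsOpen (B.ker : Set G) :=
    Subgroup.isOpen_of_mem_nhds _ (g := 1) (Filter.mem_of_superset (hUo.mem_nhds hU1) hsub)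
  haveI := B.ker.quotient_finite_of_isOpen hopen
  exact Subgroup.finiteIndex_of_finite_quotient

/-- If the residual image contains a symplectic group in at least four variables and `p` is greater
than the dimension, then the image is infinite. -/
theorem inf_of_sp {p : ℕ} [hp : Fact p.Prime] {k : Type*} [Field k] [CharP k p] {d : ℕ}
    (hd : d < p) (ρ B : G →* Matrix (Fin d) (Fin d) ℂ_[p]) (hB : Continuous B)
    (hρB : ∀ g, ∃ c : ℂ_[p], B g = c • ρ g ∧ ‖c‖ = 1)
    {r : G →* Matrix (Fin d) (Fin d) k} (hsp : ContainsSp r) {red : nv ℂ_[p] →+* k}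
    (htr : Rd (nv ℂ_[p]) red ρ r 1 1) (e : ℕ) (he : 0 < e) : ∃ σ, B σ ^ e ≠ 1 := by
  classical
  by_contra hcon
  push Not at hcon
  have hspan := hsp.span
  have hfin := ker_finite B hB he hcon
  obtain ⟨F, _, _, g, P, Q, hg, hPQ, hQP, hF⟩ := hsp
  -- the prime is odd
  have hgd : g + g ≤ d := by
    have h1 : Function.Injective (P.mulVecLin) := by
      intro a b hab
      have h2 : P *ᵥ a = P *ᵥ b := hab
      have h3 := congrArg (fun z => Q *ᵥ z) h2
      simp only [Matrix.mulVec_mulVec, hQP, Matrix.one_mulVec] at h3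
      exact h3
    have h2 := LinearMap.finrank_le_finrank_of_injective h1
    simpa using h2
  have hp2 : (2 : k) ≠ 0 := by
    intro h2
    have h3 : p ∣ 2 := by
      rw [← CharP.cast_eq_zero_iff k p]
      exact_mod_cast h2
    have := Nat.le_of_dvd two_pos h3
    omega
  set J := Matrix.J (Fin g) F with hJ
  let i0 : Fin g := ⟨0, by omega⟩
  let i1 : Fin g := ⟨1, by omega⟩
  have hi : i0 ≠ i1 := by
    intro h
    exact absurd (congrArg Fin.val h) (by simp [i0, i1])
  let v : Fin g ⊕ Fin g → F := Pi.single (Sum.inl i0) 1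
  let w₀ : Fin g ⊕ Fin g → F := Pi.single (Sum.inl i1) 1
  let w₁ : Fin g ⊕ Fin g → F := Pi.single (Sum.inr i1) 1
  have hom : ∀ a b : Fin g ⊕ Fin g, om J (Pi.single a 1) (Pi.single b 1) = J a b := by
    intro a b
    unfold om
    rw [dotProduct_single, mul_one, Matrix.single_one_vecMul]
    rfl
  have hv0 : om J v w₀ = 0 := by
    rw [hom, hJ]
    unfold Matrix.J
    rw [Matrix.fromBlocks_apply₁₁, Matrix.zero_apply]
  have hv1 : om J v w₁ = 0 := by
    rw [hom, hJ]
    unfold Matrix.J
    rw [Matrix.fromBlocks_apply₁₂, Matrix.neg_apply, Matrix.one_apply_ne hi, neg_zero]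
  have hw : om J w₀ w₁ = -1 := by
    rw [hom, hJ]
    unfold Matrix.J
    rw [Matrix.fromBlocks_apply₁₂, Matrix.neg_apply, Matrix.one_apply_eq]
  -- the preimage of the Heisenberg group
  let H₀ : Subgroup G :=
    { carrier := {h | ∃ (w : Fin g ⊕ Fin g → F) (c : k), om J v w = 0 ∧
        r h = P * (1 + (mm k v w + c • Nk k J v v)) * Q}
      one_mem' := by
        refine ⟨0, 0, ?_, ?_⟩
        · unfold om
          rw [dotProduct_zero]
        · have h2 : mm k v (0 : Fin g ⊕ Fin g → F) = 0 := by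
            have h3 := mm_add (k := k) v 0 0
            rw [add_zero] at h3
            exact left_eq_add.mp h3
          rw [h2, zero_smul, add_zero, add_zero, Matrix.mul_one, hPQ, map_one]
      mul_mem' := by
        rintro a b ⟨w, c, h1, h2⟩ ⟨w', c', h1', h2'⟩
        refine ⟨w + w', c + c' + algebraMap F k (om J w w'), ?_, ?_⟩
        · rw [om_add_right, h1, h1', add_zero]
        · rw [map_mul, h2, h2', ← heis_mul h1 h1']
          calc P * (1 + (mm k v w + c • Nk k J v v)) * Q *
                (P * (1 + (mm k v w' + c' • Nk k J v v)) * Q)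
              = P * ((1 + (mm k v w + c • Nk k J v v)) * (Q * P) *
                (1 + (mm k v w' + c' • Nk k J v v))) * Q := by
                simp only [Matrix.mul_assoc]
            _ = _ := by rw [hQP, mul_one]
      inv_mem' := by
        rintro a ⟨w, c, h1, h2⟩
        have h1' : om J v (-w) = 0 := by
          rw [← neg_one_smul F w, om_smul_right, h1, mul_zero]
        refine ⟨-w, -c, h1', ?_⟩
        have h3 : r a * (P * (1 + (mm k v (-w) + (-c) • Nk k J v v)) * Q) = 1 := by
          rw [h2]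
          calc P * (1 + (mm k v w + c • Nk k J v v)) * Q *
                (P * (1 + (mm k v (-w) + (-c) • Nk k J v v)) * Q)
              = P * ((1 + (mm k v w + c • Nk k J v v)) * (Q * P) *
                (1 + (mm k v (-w) + (-c) • Nk k J v v))) * Q := by
                simp only [Matrix.mul_assoc]
            _ = 1 := by
                rw [hQP, mul_one, heis_mul h1 h1']
                have h4 : om J w (-w) = 0 := by
                  rw [← neg_one_smul F w, om_smul_right, om_J_self, mul_zero]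
                have h5 : mm k v (w + -w) = 0 := by
                  rw [mm_add, mm_neg, add_neg_cancel]
                rw [h4, h5, map_zero, add_neg_cancel, add_zero, zero_smul, add_zero, add_zero,
                  Matrix.mul_one, hPQ]
        have h4 : r a⁻¹ * r a = 1 := by rw [← map_mul, inv_mul_cancel, map_one]
        calc r a⁻¹ = r a⁻¹ * (r a * (P * (1 + (mm k v (-w) + (-c) • Nk k J v v)) * Q)) := by
              rw [h3, mul_one]
          _ = _ := by rw [← mul_assoc, h4, one_mul] }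
  -- the elements of `H₀` have exponent `p`
  have hpow : ∀ h : H₀, (r.comp H₀.subtype) h ^ p = 1 := by
    rintro ⟨h, w, c, h1, h2⟩
    change (r h) ^ p = 1
    rw [h2, pow_PQ hPQ hQP, pow_unip _ (heis_sq h1 c)]
    have h3 : ((p : ℕ) : Matrix (Fin g ⊕ Fin g) (Fin g ⊕ Fin g) k) = 0 := by
      rw [← map_natCast (algebraMap k (Matrix (Fin g ⊕ Fin g) (Fin g ⊕ Fin g) k)),
        CharP.cast_eq_zero, map_zero]
    rw [h3, zero_mul, add_zero, Matrix.mul_one, hPQ]
  -- the kernel
  have hker : (B.comp H₀.subtype).ker ≤ (r.comp H₀.subtype).ker := by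
    rintro ⟨h, w, c, h1, h2⟩ hh
    rw [MonoidHom.mem_ker] at hh ⊢
    change B h = 1 at hh
    change r h = 1
    obtain ⟨a, ha, ha1⟩ := hρB h
    have ha0 : a ≠ 0 := by
      rintro rfl
      rw [norm_zero] at ha1
      exact zero_ne_one ha1
    have h3 : ρ h = a⁻¹ • (1 : Matrix (Fin d) (Fin d) ℂ_[p]) := by
      rw [← hh, ha, smul_smul, inv_mul_cancel₀ ha0, one_smul]
    have ha2 : ‖a⁻¹‖ ≤ 1 := by rw [norm_inv, ha1, inv_one]
    let t : nv ℂ_[p] := ⟨a⁻¹, ha2⟩
    have h4 : Rd (nv ℂ_[p]) red ρ r (ρ h) (r h) := by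
      intro x
      obtain ⟨s, hs1, hs2⟩ := htr (h * x)
      refine ⟨s, ?_, ?_⟩
      · rw [hs1, one_mul, map_mul]
      · rw [hs2, one_mul, map_mul]
    have h5 := rd_smul t htr
    have h6 : Rd (nv ℂ_[p]) red ρ r 0 (r h - red t • 1) := by
      have h7 := rd_add h4 (rd_smul (-1 : nv ℂ_[p]) h5)
      have e1 : ρ h + ((-1 : nv ℂ_[p]) : ℂ_[p]) • (((t : nv ℂ_[p]) : ℂ_[p]) •
          (1 : Matrix (Fin d) (Fin d) ℂ_[p])) = 0 := by
        have e2 : ((-1 : nv ℂ_[p]) : ℂ_[p]) = -1 := rfl
        rw [e2, h3, neg_smul, one_smul]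
        exact add_neg_cancel _
      rw [e1, map_neg, map_one, neg_smul, one_smul, ← sub_eq_add_neg] at h7
      exact h7
    have h7 := rd_eq_zero hspan h6
    have h8 : r h = red t • 1 := sub_eq_zero.mp h7
    have h9 : (1 + (mm k v w + c • Nk k J v v)) = red t • 1 := by
      calc (1 + (mm k v w + c • Nk k J v v))
          = (Q * P) * (1 + (mm k v w + c • Nk k J v v)) * (Q * P) := by rw [hQP, one_mul, mul_one]
        _ = Q * (P * (1 + (mm k v w + c • Nk k J v v)) * Q) * P := by
            simp only [Matrix.mul_assoc]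
        _ = red t • 1 := by
            rw [← h2, h8, Matrix.mul_smul, Matrix.mul_one, Matrix.smul_mul, hQP]
    have h10 : mm k v w + c • Nk k J v v = (red t - 1) • 1 := by
      rw [sub_smul, one_smul, ← h9, add_sub_cancel_left]
    have h11 := heis_sq h1 c
    rw [h10, smul_mul_smul_comm, mul_one] at h11
    have h12 : (red t - 1) * (red t - 1) = 0 := by
      have := congrFun (congrFun h11 (Sum.inl i0)) (Sum.inl i0)
      simpa using this
    have h13 : red t = 1 := by
      rcases mul_eq_zero.mp h12 with h | h <;> exact sub_eq_zero.mp h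
    rw [h8, h13, one_smul]
  -- the two elements
  have hex : ∀ w : Fin g ⊕ Fin g → F, om J v w = 0 → ∃ x, r x = P * (1 + (mm k v w +
      (0 : k) • Nk k J v v)) * Q := by
    intro w hvw
    have hwv : om J w v = 0 := by rw [om_skew om_J_self, hvw, neg_zero]
    obtain ⟨a, ha, -⟩ := exists_transvection r hPQ hQP hF 1 (v + w)
    obtain ⟨b, hb, -⟩ := exists_transvection r hPQ hQP hF (-1) v
    obtain ⟨c, hc, -⟩ := exists_transvection r hPQ hQP hF (-1) w
    refine ⟨a * b * c, ?_⟩
    rw [map_mul, map_mul, ha, hb, hc]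
    have e : (1 + algebraMap F k 1 • Nk k J (v + w) (v + w)) *
        (1 + algebraMap F k (-1) • Nk k J v v) * (1 + algebraMap F k (-1) • Nk k J w w) =
        1 + (mm k v w + (0 : k) • Nk k J v v) := by
      have e1 : Nk k J (v + w) (v + w) * Nk k J v v = 0 := by
        rw [Nk_mul, om_add_left, om_J_self, hwv, add_zero, map_zero, zero_smul]
      have e2 : Nk k J (v + w) (v + w) * Nk k J w w = 0 := by
        rw [Nk_mul, om_add_left, om_J_self, hvw, add_zero, map_zero, zero_smul]
      have e3 : Nk k J v v * Nk k J w w = 0 := by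
        rw [Nk_mul, hvw, map_zero, zero_smul]
      have e4 : Nk k J (v + w) (v + w) = Nk k J v v + Nk k J w w + mm k v w := by
        unfold mm
        rw [Nk_add_left, Nk_add_right, Nk_add_right]
        abel
      rw [map_neg, map_one, one_smul, zero_smul, add_zero, neg_smul, neg_smul, one_smul, one_smul,
        ← sub_eq_add_neg, ← sub_eq_add_neg]
      have e5 : (1 + Nk k J (v + w) (v + w)) * (1 - Nk k J v v) * (1 - Nk k J w w) =
          1 + Nk k J (v + w) (v + w) - Nk k J v v - Nk k J w w -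
          Nk k J (v + w) (v + w) * Nk k J v v - Nk k J (v + w) (v + w) * Nk k J w w +
          Nk k J v v * Nk k J w w + Nk k J (v + w) (v + w) * Nk k J v v * Nk k J w w := by
        noncomm_ring
      rw [e5, e1, e2, e3, e4, zero_mul, sub_zero, sub_zero, add_zero, add_zero]
      abel
    rw [← e]
    calc P * (1 + algebraMap F k 1 • Nk k J (v + w) (v + w)) * Q *
          (P * (1 + algebraMap F k (-1) • Nk k J v v) * Q) *
          (P * (1 + algebraMap F k (-1) • Nk k J w w) * Q)
        = P * ((1 + algebraMap F k 1 • Nk k J (v + w) (v + w)) * (Q * P) *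
          (1 + algebraMap F k (-1) • Nk k J v v) * (Q * P) *
          (1 + algebraMap F k (-1) • Nk k J w w)) * Q := by
          simp only [Matrix.mul_assoc]
      _ = _ := by rw [hQP, mul_one, mul_one]
  obtain ⟨x, hx⟩ := hex w₀ hv0
  obtain ⟨y, hy⟩ := hex w₁ hv1
  have hxH : x ∈ H₀ := ⟨w₀, 0, hv0, hx⟩
  have hyH : y ∈ H₀ := ⟨w₁, 0, hv1, hy⟩
  have hfinH : (B.comp H₀.subtype).ker.FiniteIndex := by
    have h1 : (B.comp H₀.subtype).ker = B.ker.subgroupOf H₀ := by
      ext h
      rfl
    rw [h1]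
    infer_instance
  have hcomm := comm_of_finite hd (B.comp H₀.subtype) hfinH (r.comp H₀.subtype) hpow hker
    ⟨x, hxH⟩ ⟨y, hyH⟩
  have h1 : r x * r y = r y * r x := by
    have : r (x * y) = r (y * x) := hcomm
    rwa [map_mul, map_mul] at this
  have h2 : (1 + (mm k v w₀ + (0 : k) • Nk k J v v)) * (1 + (mm k v w₁ + (0 : k) • Nk k J v v)) =
      (1 + (mm k v w₁ + (0 : k) • Nk k J v v)) * (1 + (mm k v w₀ + (0 : k) • Nk k J v v)) := by
    have key : ∀ X Y : Matrix (Fin g ⊕ Fin g) (Fin g ⊕ Fin g) k,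
        X * Y = Q * (P * X * Q * (P * Y * Q)) * P := by
      intro X Y
      calc X * Y = (Q * P) * X * (Q * P) * Y * (Q * P) := by rw [hQP, one_mul, mul_one, mul_one]
        _ = _ := by simp only [Matrix.mul_assoc]
    rw [key, key (1 + (mm k v w₁ + (0 : k) • Nk k J v v)), ← hx, ← hy, h1]
  rw [heis_mul hv0 hv1, heis_mul hv1 hv0, om_skew om_J_self w₁ w₀, hw, add_comm w₁ w₀] at h2
  have h3 : (2 : k) • Nk k J v v = 0 := by
    have h4 := congrArg (fun z => z - 1 - mm k v (w₀ + w₁)) h2
    simp only [map_neg, map_one, neg_neg, zero_add, add_zero] at h4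
    have h5 : (2 : k) • Nk k J v v = (1 + (mm k v (w₀ + w₁) + (1 : k) • Nk k J v v) - 1 -
        mm k v (w₀ + w₁)) - (1 + (mm k v (w₀ + w₁) + (-1 : k) • Nk k J v v) - 1 -
        mm k v (w₀ + w₁)) := by
      module
    rw [h5, ← h4, sub_self]
  have h4 : Nk k J v v = 0 := by
    rcases smul_eq_zero.mp h3 with h | h
    · exact absurd h hp2
    · exact h
  have h5 := congrFun (congrFun h4 (Sum.inl i0)) (Sum.inr i0)
  have h6 : Nk k J v v (Sum.inl i0) (Sum.inr i0) = -1 := by
    unfold Nk
    rw [Matrix.vecMulVec_apply]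
    unfold hat
    rw [Matrix.single_one_vecMul]
    have : J.row (Sum.inl i0) (Sum.inr i0) = -1 := by
      rw [hJ]
      unfold Matrix.J
      rw [Matrix.row_apply, Matrix.fromBlocks_apply₁₂, Matrix.neg_apply, Matrix.one_apply_eq]
    rw [this]
    simp [v]
  rw [h6, Matrix.zero_apply, neg_eq_zero] at h5
  exact one_ne_zero h5

end

end Pool.Agent.RF
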