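import Pool.Agent.Lib_helper28.TE28.OrthEnd
import Pool.Agent.Lib_helper28.TE28.Inf

/-!
# The final form of the theorem on representations with big residual image
-/

set_option autoImplicit false

namespace Pool.Agent.RF

open Matrix Pool.Agent.TBL
open NumberField Pool.Agent.TT Pool.Agent.TB Pool.Agent.TF

theorem cycC_norm {K : Type} [Field K] [Algebra K Qbar] {p : ℕ} [Fact p.Prime]
    (σ : Qbar ≃ₐ[K] Qbar) : ‖cycC p σ‖ = 1 := by
  unfold cycC
  have h1 : ‖((((cyclotomicCharacter Qbar p (σ : Qbar ≃+* Qbar)) : ℤ_[p]) : ℚ_[p]))‖ = 1 := by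
    rw [← PadicInt.norm_def]
    exact PadicInt.norm_units _
  exact (PadicComplex.norm_extends' p _).trans h1

/-- Infinite image implies infinite exponent. -/
theorem inf_of_range {K : Type} [Field K] [NumberField K] [Algebra K Qbar] {p : ℕ}
    [Fact p.Prime] {d : ℕ} (ρ : (Qbar ≃ₐ[K] Qbar) →* Matrix (Fin d) (Fin d) ℂ_[p])
    (hρ : Continuous ρ) (j : ℕ)
    (h : (Set.range fun σ : Qbar ≃ₐ[K] Qbar => cycC p σ ^ j • ρ σ).Infinite) (e : ℕ) (he : 0 < e) :
    ∃ σ, (cycC p σ ^ j • ρ σ) ^ e ≠ 1 := by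
  by_contra hcon
  push Not at hcon
  have hac : Algebra.IsAlgebraic K Qbar := by
    have : Algebra.IsAlgebraic ℚ Qbar := AlgebraicClosure.isAlgebraic ℚ
    exact Algebra.IsAlgebraic.tower_top (K := ℚ) K
  have hgal : IsGalois K Qbar := by
    have : Algebra.IsSeparable K Qbar := inferInstance
    have : Normal K Qbar := by
      have : IsAlgClosed Qbar := inferInstance
      have : IsAlgClosure K Qbar := ⟨this, hac⟩
      exact IsAlgClosure.normal K Qbar
    exact {}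
  have hB : Continuous (twist ρ j) := by
    have h3 : Continuous fun σ : Qbar ≃ₐ[K] Qbar => cycC p σ ^ j • ρ σ :=
      ((cycC_continuous (K := K) (p := p)).pow j).smul hρ
    exact h3
  have hfin := ker_finite (twist ρ j) hB he hcon
  apply h
  have hQ : Finite ((Qbar ≃ₐ[K] Qbar) ⧸ (twist ρ j).ker) := Subgroup.finite_quotient_of_finiteIndex
  have h1 : (Set.range fun σ : Qbar ≃ₐ[K] Qbar => cycC p σ ^ j • ρ σ) ⊆
      Set.range (QuotientGroup.lift (twist ρ j).ker (twist ρ j) le_rfl) := by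
    rintro _ ⟨σ, rfl⟩
    exact ⟨(σ : (Qbar ≃ₐ[K] Qbar) ⧸ (twist ρ j).ker), rfl⟩
  exact (Set.finite_range _).subset h1

/-- **The final theorem.** -/
theorem final {K : Type} [Field K] [NumberField K] [Algebra K Qbar] {p a : ℕ} [hp : Fact p.Prime]
    {ζ : 𝓞 K} (hζ : IsPrimitiveRoot ζ (p ^ a)) {s : ℕ} (S : Fin s → Stratum K)
    (ip : K →+* ℂ_[p]) {d : ℕ} (ρ : (Qbar ≃ₐ[K] Qbar) →* Matrix (Fin d) (Fin d) ℂ_[p])
    (hρ : Continuous ρ)
    (hT : FrobeniusValues (fun σ => (ρ σ).trace) fun _ _ _ φ =>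
      ip (strataSum (p ^ a) ζ φ S : 𝓞 K))
    {k : Type} [Field k] [CharP k p] [IsAlgClosed k]
    (r : (Qbar ≃ₐ[K] Qbar) →* Matrix (Fin d) (Fin d) k)
    (hr : IsOpen (r.ker : Set (Qbar ≃ₐ[K] Qbar)))
    (hrT : FrobeniusValues (fun σ => (r σ).trace) fun _ _ _ φ => ((strataCard φ S : ℤ) : k))
    {j : ℕ} (hbig : ((ContainsSp r ∨ ContainsO r) ∧
        (d < p ∨ (Set.range fun σ : Qbar ≃ₐ[K] Qbar => cycC p σ ^ j • ρ σ).Infinite)) ∨
      (Submodule.span k (Set.range r) = ⊤ ∧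
        ∀ e : ℕ, 0 < e → ∃ σ, (cycC p σ ^ (j * d) * (ρ σ).det) ^ e ≠ 1))
    {ℓ : ℕ} [Fact ℓ.Prime] (il : K →+* PadicAlgCl ℓ) {V : Type} [AddCommGroup V]
    [Module (PadicAlgCl ℓ) V] [Module.Finite (PadicAlgCl ℓ) V]
    (π : Representation (PadicAlgCl ℓ) (Qbar ≃ₐ[K] Qbar) V)
    (hπ : FrobeniusValues (fun σ => LinearMap.trace (PadicAlgCl ℓ) V (π σ)) fun _ _ _ φ =>
      il (strataSum (p ^ a) ζ φ S : 𝓞 K))
    (H : Subgroup (Qbar ≃ₐ[K] Qbar)) (hH : IsOpen (H : Set (Qbar ≃ₐ[K] Qbar)))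
    (W₁ W₂ : Submodule (PadicAlgCl ℓ) V) (hW : W₁ ≤ W₂)
    (hTate : ∀ σ ∈ H, ∀ x ∈ W₂, cyc ℓ σ ^ j • π σ x - x ∈ W₁) : W₁ = W₂ := by
  classical
  have hac : Algebra.IsAlgebraic K Qbar := by
    have : Algebra.IsAlgebraic ℚ Qbar := AlgebraicClosure.isAlgebraic ℚ
    exact Algebra.IsAlgebraic.tower_top (K := ℚ) K
  have hgal : IsGalois K Qbar := by
    have : Algebra.IsSeparable K Qbar := inferInstance
    have : Normal K Qbar := by
      have : IsAlgClosed Qbar := inferInstance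
      have : IsAlgClosure K Qbar := ⟨this, hac⟩
      exact IsAlgClosure.normal K Qbar
    exact {}
  rcases hbig with ⟨hcon, hinf⟩ | ⟨hspan, hbig⟩
  · have hspan : Submodule.span k (Set.range r) = ⊤ := by
      rcases hcon with h | h
      · exact h.span
      · exact h.span
    have hrob : Robust r := by
      rcases hcon with h | h
      · exact h.robust
      · exact h.robust
    refine main hζ S ip ρ hρ hT r hr hspan hrT (Or.inr ⟨hrob, ?_⟩) il π hπ H hH W₁ W₂ hW hTate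
    rcases hinf with hd | hinf
    · have hsp : ContainsSp r := by
        rcases hcon with h | h
        · exact h
        · exact absurd hd (h.not_lt (p := p))
      obtain ⟨red, -, htr⟩ := rd_one hζ S ip ρ hρ hT r hr hrT
      have hB : Continuous (twist ρ j) := by
        have h3 : Continuous fun σ : Qbar ≃ₐ[K] Qbar => cycC p σ ^ j • ρ σ :=
          ((cycC_continuous (K := K) (p := p)).pow j).smul hρ
        exact h3
      exact inf_of_sp hd ρ (twist ρ j) hB
        (fun g => ⟨cycC p g ^ j, rfl, by rw [norm_pow, cycC_norm, one_pow]⟩) hsp htr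
    · exact inf_of_range ρ hρ j hinf
  · exact main hζ S ip ρ hρ hT r hr hspan hrT (Or.inl hbig) il π hπ H hH W₁ W₂ hW hTate

end Pool.Agent.RF
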