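import Pool.Agent.Lib_helper28.TE28.Red
import Pool.Agent.Lib_helper7.TB.Main

/-!
# Elements without the eigenvalue one
-/

set_option autoImplicit false

namespace Pool.Agent.RF

open Filter Topology Matrix Pool.Agent.TBL

section

variable {k : Type*} [NontriviallyNormedField k] [IsUltrametricDist k] [CompleteSpace k]
  {n : Type*} [Fintype n] [DecidableEq n]

attribute [local instance] matRing matAlg matUltra matComplete

variable {G : Type*} [Group G] (B : G →* Matrix n n k) (N : Subgroup G)

/-- Sums of logarithms are limits of difference quotients. -/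
theorem tendsto_list {p : ℕ} (hp0 : (p : k) ≠ 0) (hp : ‖(p : k)‖ < 1)
    (hN : ∀ h ∈ N, ‖B h - 1‖ ≤ ‖(p : k)‖ ^ 2) (l : List G) (hl : ∀ h ∈ l, h ∈ N) :
    ∃ s : ℕ → G, (∀ m, s m ∈ N) ∧ Tendsto (fun m => B (s m)) atTop (𝓝 1) ∧
      Tendsto (fun m => ((p : k) ^ m)⁻¹ • (B (s m) - 1)) atTop
        (𝓝 (l.map fun h => lg k p (B h)).sum) := by
  induction l with
  | nil =>
    refine ⟨fun _ => 1, fun _ => N.one_mem, ?_, ?_⟩
    · simp only [map_one]
      exact tendsto_const_nhds
    · simp only [map_one, sub_self, smul_zero, List.map_nil, List.sum_nil]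
      exact tendsto_const_nhds
  | cons h l ih =>
    obtain ⟨s, hs, hs1, hs2⟩ := ih (fun g hg => hl g (List.mem_cons_of_mem _ hg))
    have hh : h ∈ N := hl h List.mem_cons_self
    have h1 := tendsto_dq (k := k) hp0 hp (hN h hh)
    have h2 := tendsto_pow_pow (k := k) hp (hN h hh)
    refine ⟨fun m => h ^ p ^ m * s m, fun m => N.mul_mem (N.pow_mem hh _) (hs m), ?_, ?_⟩
    · have h3 := h2.mul hs1
      rw [mul_one] at h3
      refine h3.congr fun m => ?_
      rw [map_mul, map_pow]
    · have h3 := (h1.mul hs1).add hs2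
      rw [mul_one, ← List.sum_cons, ← List.map_cons (f := fun h => lg k p (B h))] at h3
      refine h3.congr fun m => ?_
      rw [dq, map_mul, map_pow, smul_mul_assoc, ← smul_add, sub_mul, one_mul]
      congr 1
      abel

/-- If the span of the logarithms contains a nonsingular matrix, then some element does not have
the eigenvalue `1`. -/
theorem exists_of_sp [CharZero k] {p : ℕ} (hp0 : (p : k) ≠ 0) (hp : ‖(p : k)‖ < 1)
    (hN : ∀ h ∈ N, ‖B h - 1‖ ≤ ‖(p : k)‖ ^ 2) {X : Matrix n n k} (hX : X ∈ sp B N p)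
    (hX0 : X.det ≠ 0) : ∃ h ∈ N, (B h - 1).det ≠ 0 := by
  by_contra hcon
  push Not at hcon
  have hlist : ∀ l : List G, (∀ h ∈ l, h ∈ N) → ((l.map fun h => lg k p (B h)).sum).det = 0 := by
    intro l hl
    obtain ⟨s, hs, _, hs2⟩ := tendsto_list B N hp0 hp hN l hl
    have hc : Continuous fun M : Matrix n n k => M.det :=
      (differentiable_det (k := k) (n := n)).continuous
    have h1 := (hc.tendsto _).comp hs2
    refine tendsto_nhds_unique h1 (tendsto_const_nhds.congr fun m => ?_)
    rw [Function.comp_apply, Matrix.det_smul, hcon _ (hs m), mul_zero]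
  let S : AddSubmonoid (Matrix n n k) :=
    { carrier := {Y | ∃ l : List G, (∀ h ∈ l, h ∈ N) ∧ Y = (l.map fun h => lg k p (B h)).sum}
      zero_mem' := ⟨[], by simp, by simp⟩
      add_mem' := by
        rintro Y Y' ⟨l, hl, rfl⟩ ⟨l', hl', rfl⟩
        refine ⟨l ++ l', ?_, ?_⟩
        · intro h hh
          rcases List.mem_append.mp hh with hh | hh
          · exact hl h hh
          · exact hl' h hh
        · rw [List.map_append, List.sum_append] }
  have hS : ∀ Y ∈ S, Y.det = 0 := by
    rintro Y ⟨l, hl, rfl⟩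
    exact hlist l hl
  have hinf : (Set.range fun m : ℕ => (m : k)).Infinite :=
    Set.infinite_range_of_injective Nat.cast_injective
  have h1 := det_span S _ hinf (by
    rintro _ ⟨m, rfl⟩ Y hY
    change (m : k) • Y ∈ S
    rw [Nat.cast_smul_eq_nsmul]
    exact S.nsmul_mem hY m) hS
  apply hX0
  apply h1
  have h2 : sp B N p ≤ Submodule.span k (S : Set (Matrix n n k)) := by
    unfold sp
    apply Submodule.span_mono
    rintro _ ⟨h, hh, rfl⟩
    exact ⟨[h], by simpa using hh, by simp⟩
  exact h2 hX

end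

end Pool.Agent.RF
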