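import Mathlib

/-!
# The residue field of the `p`-adic complex numbers
-/

set_option autoImplicit false

namespace Pool.Agent.RF

open Polynomial

/-- The elements of norm at most one. -/
def nv (C : Type*) [NormedField C] [IsUltrametricDist C] : ValuationSubring C where
  carrier := {x | ‖x‖ ≤ 1}
  mul_mem' := by
    intro a b ha hb
    rw [Set.mem_ofPred_eq] at ha hb ⊢
    rw [norm_mul]
    exact mul_le_one₀ ha (norm_nonneg _) hb
  one_mem' := by
    rw [Set.mem_ofPred_eq, norm_one]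
  add_mem' := by
    intro a b ha hb
    exact (IsUltrametricDist.norm_add_le_max a b).trans (max_le ha hb)
  zero_mem' := by
    rw [Set.mem_ofPred_eq, norm_zero]
    exact zero_le_one
  neg_mem' := by
    intro a ha
    rw [Set.mem_ofPred_eq] at ha ⊢
    rw [norm_neg]
    exact ha
  mem_or_inv_mem' := by
    intro x
    rcases le_total ‖x‖ 1 with h | h
    · exact Or.inl h
    · right
      change ‖x⁻¹‖ ≤ 1
      rw [norm_inv]
      exact inv_le_one_of_one_le₀ h

theorem nsub_le {C : Type*} [NormedField C] [IsUltrametricDist C] (x y : C) {c : ℝ} (hx : ‖x‖ ≤ c)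
    (hy : ‖y‖ ≤ c) : ‖x - y‖ ≤ c := by
  rw [sub_eq_add_neg]
  refine (IsUltrametricDist.norm_add_le_max _ _).trans (max_le hx ?_)
  rw [norm_neg]
  exact hy

theorem mem_nv {C : Type*} [NormedField C] [IsUltrametricDist C] (x : C) :
    x ∈ nv C ↔ ‖x‖ ≤ 1 := Iff.rfl

theorem residue_zero {C : Type*} [NormedField C] [IsUltrametricDist C] (x : nv C)
    (hx : ‖(x : C)‖ < 1) : IsLocalRing.residue (nv C) x = 0 := by
  rw [IsLocalRing.residue_eq_zero_iff, IsLocalRing.mem_maximalIdeal, mem_nonunits_iff]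
  intro hu
  obtain ⟨y, hy⟩ := hu.exists_right_inv
  have h1 : (x : C) * (y : C) = 1 := congrArg Subtype.val hy
  have h2 : ‖(x : C)‖ * ‖(y : C)‖ = 1 := by rw [← norm_mul, h1, norm_one]
  have h3 : ‖(y : C)‖ ≤ 1 := y.2
  nlinarith [norm_nonneg (x : C), norm_nonneg (y : C)]

theorem residue_infinite (C : Type*) [NormedField C] [IsUltrametricDist C] [IsAlgClosed C] :
    Infinite (IsLocalRing.ResidueField (nv C)) := by
  rw [← not_finite_iff_infinite]
  intro hfin
  have hF : Fintype (IsLocalRing.ResidueField (nv C)) := Fintype.ofFinite _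
  set N := Fintype.card (IsLocalRing.ResidueField (nv C)) with hN
  have hN1 : 1 < N := Fintype.one_lt_card
  have hdeg : ((X : C[X]) ^ N - X + 1).degree ≠ 0 := by
    have h1 : ((X : C[X]) ^ N - X + 1).degree = ((N : ℕ) : WithBot ℕ) := by
      have h2 : ((X : C[X]) ^ N - X + 1) = X ^ N + (-X + 1) := by ring
      rw [h2, degree_add_eq_left_of_degree_lt, degree_X_pow]
      rw [degree_X_pow]
      refine lt_of_le_of_lt (degree_add_le _ _) ?_
      rw [degree_neg, degree_X, degree_one]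
      have h3 : ((1 : ℕ) : WithBot ℕ) < (N : WithBot ℕ) := by exact_mod_cast hN1
      exact max_lt (by simpa using h3) (lt_trans (by norm_num) h3)
    rw [h1]
    have : N ≠ 0 := by omega
    exact_mod_cast this
  obtain ⟨z, hz⟩ := IsAlgClosed.exists_root _ hdeg
  rw [IsRoot.def, eval_add, eval_sub, eval_pow, eval_X, eval_one] at hz
  have hzN : z ^ N = z - 1 := by linear_combination hz
  have hz1 : ‖z‖ ≤ 1 := by
    by_contra hcon
    push Not at hcon
    have h1 : ‖z ^ N‖ ≤ ‖z‖ := by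
      rw [hzN]
      apply nsub_le _ _ le_rfl
      rw [norm_one]
      exact hcon.le
    rw [norm_pow] at h1
    have h2 : ‖z‖ < ‖z‖ ^ N := by
      calc ‖z‖ = ‖z‖ ^ 1 := (pow_one _).symm
        _ < ‖z‖ ^ N := pow_lt_pow_right₀ hcon hN1
    linarith
  let z' : nv C := ⟨z, hz1⟩
  have h1 : z' ^ N = z' - 1 := Subtype.ext hzN
  have h2 := congrArg (IsLocalRing.residue (nv C)) h1
  rw [map_pow, map_sub, map_one, hN, FiniteField.pow_card] at h2
  have h3 : (1 : IsLocalRing.ResidueField (nv C)) = 0 := by linear_combination h2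
  exact one_ne_zero h3

theorem norm_p_lt (p : ℕ) [Fact p.Prime] : ‖(p : ℂ_[p])‖ < 1 := by
  have h1 : ((p : ℚ_[p]) : ℂ_[p]) = (p : ℂ_[p]) := by
    change algebraMap ℚ_[p] ℂ_[p] (p : ℚ_[p]) = (p : ℂ_[p])
    rw [map_natCast]
  rw [← h1, PadicComplex.norm_extends']
  exact Padic.norm_p_lt_one

theorem residue_charP (p : ℕ) [hp : Fact p.Prime] :
    CharP (IsLocalRing.ResidueField (nv ℂ_[p])) p := by
  rw [CharP.charP_iff_prime_eq_zero hp.out]
  have h1 := residue_zero (C := ℂ_[p]) (p : nv ℂ_[p]) (by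
    have h2 : ((p : nv ℂ_[p]) : ℂ_[p]) = (p : ℂ_[p]) := by
      exact map_natCast (nv ℂ_[p]).subtype p
    rw [h2]
    exact norm_p_lt p)
  rw [map_natCast] at h1
  exact h1

/-- The homomorphism from the `p`-adic integers. -/
noncomputable def zn (p : ℕ) [Fact p.Prime] : ℤ_[p] →+* nv ℂ_[p] :=
  RingHom.codRestrict ((algebraMap ℚ_[p] ℂ_[p]).comp (algebraMap ℤ_[p] ℚ_[p]))
    (nv ℂ_[p]).toSubring (by
    intro x
    change ‖algebraMap ℚ_[p] ℂ_[p] (x : ℚ_[p])‖ ≤ 1
    have h1 := PadicComplex.norm_extends' p (x : ℚ_[p])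
    have h2 : ‖algebraMap ℚ_[p] ℂ_[p] (x : ℚ_[p])‖ = ‖(x : ℚ_[p])‖ := h1
    rw [h2]
    exact x.2)

theorem residue_algebraic (p : ℕ) [hp : Fact p.Prime]
    [Algebra (ZMod p) (IsLocalRing.ResidueField (nv ℂ_[p]))] :
    Algebra.IsAlgebraic (ZMod p) (IsLocalRing.ResidueField (nv ℂ_[p])) := by
  classical
  have hchar := residue_charP p
  constructor
  intro x'
  obtain ⟨x, rfl⟩ := IsLocalRing.residue_surjective x'
  -- approximation by an algebraic number
  obtain ⟨y, hy⟩ : ∃ y : PadicAlgCl p, ‖(x : ℂ_[p]) - (y : ℂ_[p])‖ < 1 := by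
    have hd := (UniformSpace.Completion.denseRange_coe (α := PadicAlgCl p)).exists_dist_lt
      (x : ℂ_[p]) (zero_lt_one)
    obtain ⟨y, hy⟩ := hd
    refine ⟨y, ?_⟩
    rw [dist_eq_norm] at hy
    exact hy
  have hy1 : ‖(y : ℂ_[p])‖ ≤ 1 := by
    have h1 : (y : ℂ_[p]) = (x : ℂ_[p]) - ((x : ℂ_[p]) - (y : ℂ_[p])) := by ring
    rw [h1]
    exact nsub_le _ _ x.2 hy.le
  let y' : nv ℂ_[p] := ⟨(y : ℂ_[p]), hy1⟩
  have hxy : IsLocalRing.residue (nv ℂ_[p]) x = IsLocalRing.residue (nv ℂ_[p]) y' := by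
    rw [← sub_eq_zero, ← map_sub]
    exact residue_zero _ hy
  rw [hxy]
  obtain ⟨f, hf0, hf⟩ := (PadicAlgCl.isAlgebraic p).isAlgebraic y
  obtain ⟨i₀, hi₀, hmax⟩ := Finset.exists_max_image f.support (fun i => ‖f.coeff i‖)
    (Polynomial.support_nonempty.mpr hf0)
  have hc : f.coeff i₀ ≠ 0 := Polynomial.mem_support_iff.mp hi₀
  have hle : ∀ i, ‖f.coeff i / f.coeff i₀‖ ≤ 1 := by
    intro i
    rw [norm_div]
    apply div_le_one_of_le₀ _ (norm_nonneg _)
    by_cases hi : i ∈ f.support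
    · exact hmax i hi
    · rw [Polynomial.notMem_support_iff.mp hi, norm_zero]
      exact norm_nonneg _
  obtain ⟨g, hg⟩ : ∃ g : ℕ → ℤ_[p], ∀ i, (g i : ℚ_[p]) = f.coeff i / f.coeff i₀ :=
    ⟨fun i => ⟨f.coeff i / f.coeff i₀, hle i⟩, fun i => rfl⟩
  let F : ℤ_[p][X] := ∑ i ∈ f.support, Polynomial.monomial i (g i)
  have hFc : F.coeff i₀ = 1 := by
    rw [Polynomial.finsetSum_coeff, Finset.sum_eq_single i₀]
    · rw [Polynomial.coeff_monomial, if_pos rfl]
      apply Subtype.ext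
      exact (hg i₀).trans (div_self hc)
    · intro j _ hj
      rw [Polynomial.coeff_monomial, if_neg hj]
    · intro h
      exact absurd hi₀ h
  have hFy : F.eval₂ (zn p) y' = 0 := by
    apply Subtype.ext
    have h1 : ((F.eval₂ (zn p) y' : nv ℂ_[p]) : ℂ_[p]) =
        F.eval₂ ((nv ℂ_[p]).subtype.comp (zn p)) (y : ℂ_[p]) := by
      exact Polynomial.hom_eval₂ F (zn p) (nv ℂ_[p]).subtype y'
    rw [h1, Polynomial.eval₂_finsetSum]
    have h2 : ∀ i ∈ f.support, (Polynomial.monomial i (g i)).eval₂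
        ((nv ℂ_[p]).subtype.comp (zn p)) (y : ℂ_[p]) =
        (algebraMap ℚ_[p] ℂ_[p] (f.coeff i₀))⁻¹ *
          (algebraMap (PadicAlgCl p) ℂ_[p] (algebraMap ℚ_[p] (PadicAlgCl p) (f.coeff i) * y ^ i)) := by
      intro i _
      rw [Polynomial.eval₂_monomial, map_mul, map_pow, ← IsScalarTower.algebraMap_apply]
      have h3 : ((nv ℂ_[p]).subtype.comp (zn p)) (g i) =
          algebraMap ℚ_[p] ℂ_[p] (f.coeff i / f.coeff i₀) := by
        rw [← hg i]
        rfl
      rw [h3, map_div₀]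
      have h4 : (y : ℂ_[p]) = algebraMap (PadicAlgCl p) ℂ_[p] y := rfl
      rw [h4]
      field_simp
    rw [Finset.sum_congr rfl h2, ← Finset.mul_sum, ← map_sum]
    have h5 : ∑ i ∈ f.support, algebraMap ℚ_[p] (PadicAlgCl p) (f.coeff i) * y ^ i = 0 := by
      rw [← hf, Polynomial.aeval_def, Polynomial.eval₂_eq_sum, Polynomial.sum]
    rw [h5, map_zero, mul_zero]
    rfl
  have hring : ∀ a : ℤ_[p], IsLocalRing.residue (nv ℂ_[p]) (zn p a) =
      algebraMap (ZMod p) (IsLocalRing.ResidueField (nv ℂ_[p])) (PadicInt.toZMod a) := by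
    intro a
    have h1 := PadicInt.toZMod_spec a
    have h2 : a - ((PadicInt.toZMod a).val : ℤ_[p]) ∈ IsLocalRing.maximalIdeal ℤ_[p] := by
      have h3 : ((PadicInt.toZMod a).cast : ℤ_[p]) = ((PadicInt.toZMod a).val : ℤ_[p]) := by
        rw [ZMod.natCast_val]
      rw [← h3]
      exact h1
    rw [PadicInt.maximalIdeal_eq_span_p, Ideal.mem_span_singleton] at h2
    obtain ⟨b, hb⟩ := h2
    have h3 : a = ((PadicInt.toZMod a).val : ℤ_[p]) + (p : ℤ_[p]) * b := by
      rw [← hb]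
      ring
    have hp0 : ((p : ℕ) : IsLocalRing.ResidueField (nv ℂ_[p])) = 0 := CharP.cast_eq_zero _ p
    conv_lhs => rw [h3]
    rw [map_add, map_mul, map_natCast, map_natCast, map_add, map_mul, map_natCast, map_natCast,
      hp0, zero_mul, add_zero]
    conv_rhs => rw [← ZMod.natCast_zmod_val (PadicInt.toZMod a), map_natCast]
  refine ⟨F.map PadicInt.toZMod, ?_, ?_⟩
  · intro h0
    have h1 := congrArg (fun P => Polynomial.coeff P i₀) h0
    simp only [Polynomial.coeff_map, hFc, map_one, Polynomial.coeff_zero] at h1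
    exact one_ne_zero h1
  · rw [Polynomial.aeval_def, Polynomial.eval₂_map]
    have h1 : (algebraMap (ZMod p) (IsLocalRing.ResidueField (nv ℂ_[p]))).comp PadicInt.toZMod =
        (IsLocalRing.residue (nv ℂ_[p])).comp (zn p) := by
      ext a
      rw [RingHom.comp_apply, RingHom.comp_apply, hring]
    rw [h1, ← Polynomial.hom_eval₂, hFy, map_zero]

/-- Reduction into any algebraically closed field of characteristic `p`. -/
theorem res_exists (p : ℕ) [hp : Fact p.Prime] (k : Type*) [Field k] [IsAlgClosed k] [CharP k p] :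
    ∃ red : nv ℂ_[p] →+* k, (∀ x : nv ℂ_[p], ‖(x : ℂ_[p])‖ < 1 → red x = 0) ∧
      (Set.range red).Infinite := by
  have hchar := residue_charP p
  let _ : Algebra (ZMod p) (IsLocalRing.ResidueField (nv ℂ_[p])) := ZMod.algebra _ p
  let _ : Algebra (ZMod p) k := ZMod.algebra _ p
  have halg := residue_algebraic p
  let e : IsLocalRing.ResidueField (nv ℂ_[p]) →ₐ[ZMod p] k := IsAlgClosed.lift
  refine ⟨(e : IsLocalRing.ResidueField (nv ℂ_[p]) →+* k).comp (IsLocalRing.residue (nv ℂ_[p])),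
    ?_, ?_⟩
  · intro x hx
    rw [RingHom.comp_apply, residue_zero x hx, map_zero]
  · have hinf := residue_infinite ℂ_[p]
    have h1 : (Set.range e).Infinite := Set.infinite_range_of_injective e.toRingHom.injective
    apply h1.mono
    rintro _ ⟨x, rfl⟩
    obtain ⟨x', rfl⟩ := IsLocalRing.residue_surjective x
    exact ⟨x', rfl⟩

end Pool.Agent.RF
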