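import Pool.Agent.Lib_helper28.TE28.Gen
import Pool.Agent.Lib_helper28.TE28.Res
import Pool.Agent.Lib_helper61.TB.ER

/-!
# Representations with big residual image and Tate classes
-/

set_option autoImplicit false

namespace Pool.Agent.RF

open Filter Topology Matrix Pool.Agent.TBL

/-- Every nonzero space of matrices of trace zero that is stable under conjugation by the image of
`r` contains an invertible matrix. -/
def Robust {k : Type*} [Field k] {G : Type*} [Group G] {d : ℕ}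
    (r : G →* Matrix (Fin d) (Fin d) k) : Prop :=
  ∀ W : Submodule k (Matrix (Fin d) (Fin d) k), W ≠ ⊥ → (∀ g, ∀ Y ∈ W, r g * Y * r g⁻¹ ∈ W) →
    (∀ Y ∈ W, Y.trace = 0) → ∃ Y ∈ W, IsUnit Y

section

attribute [local instance] matRing matAlg matUltra matComplete

variable {G : Type*} [Group G] [TopologicalSpace G] [IsTopologicalGroup G] [CompactSpace G]
  [TotallyDisconnectedSpace G]

/-- Elements without the eigenvalue `1` in every open subgroup. -/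
theorem generic_of_robust {p : ℕ} [Fact p.Prime] {k : Type*} [Field k] [IsAlgClosed k] {d : ℕ}
    (ρ B : G →* Matrix (Fin d) (Fin d) ℂ_[p]) (hB : Continuous B)
    (hρB : ∀ g, ∃ c : ℂ_[p], B g = c • ρ g ∧ c ≠ 0)
    (hirr : ∀ W : Submodule ℂ_[p] (Fin d → ℂ_[p]),
      (∀ g, ∀ w ∈ W, (ρ g).mulVec w ∈ W) → W = ⊥ ∨ W = ⊤)
    (hinf : ∀ e : ℕ, 0 < e → ∃ σ, (B σ) ^ e ≠ 1)
    (r : G →* Matrix (Fin d) (Fin d) k) (hspan : Submodule.span k (Set.range r) = ⊤)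
    (hr : Robust r) (red : nv ℂ_[p] →+* k) (hred : (Set.range red).Infinite)
    (htr : Rd (nv ℂ_[p]) red ρ r 1 1) (H : Subgroup G) (hH : IsOpen (H : Set G)) :
    ∃ h ∈ H, (B h - 1).det ≠ 0 := by
  classical
  have hp : ‖(p : ℂ_[p])‖ < 1 := norm_p_lt p
  have hp0 : (p : ℂ_[p]) ≠ 0 := by
    have := (Fact.out : p.Prime).ne_zero
    exact_mod_cast this
  have hq : 0 < ‖(p : ℂ_[p])‖ ^ 2 := by positivity
  -- a small open normal subgroup
  have hUo : IsOpen ((H : Set G) ∩ {g | ‖B g - 1‖ < ‖(p : ℂ_[p])‖ ^ 2}) := by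
    refine hH.inter ?_
    have h1 : Continuous fun g => ‖B g - 1‖ := (hB.sub continuous_const).norm
    exact isOpen_lt h1 continuous_const
  have hU1 : (1 : G) ∈ (H : Set G) ∩ {g | ‖B g - 1‖ < ‖(p : ℂ_[p])‖ ^ 2} := by
    refine ⟨H.one_mem, ?_⟩
    rw [Set.mem_ofPred_eq, map_one, sub_self, norm_zero]
    exact hq
  obtain ⟨N, hNU⟩ := ProfiniteGrp.exist_openNormalSubgroup_sub_open_nhds_of_one hUo hU1
  have hn : N.toSubgroup.Normal := N.isNormal'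
  have hfi : N.toSubgroup.FiniteIndex :=
    haveI := N.toSubgroup.quotient_finite_of_isOpen N.isOpen'
    Subgroup.finiteIndex_of_finite_quotient
  have hNH : ∀ h ∈ N.toSubgroup, h ∈ H := fun h hh => (hNU hh).1
  have hNb : ∀ h ∈ N.toSubgroup, ‖B h - 1‖ ≤ ‖(p : ℂ_[p])‖ ^ 2 := fun h hh => (hNU hh).2.le
  -- the span of the logarithms
  have hne : sp B N.toSubgroup p ≠ ⊥ := by
    intro hbot
    have h1 : ∀ h ∈ N.toSubgroup, B h = 1 := by
      intro h hh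
      refine eq_one_of_lg (k := ℂ_[p]) hp0 hp (hNb h hh) ?_
      have h2 := lg_mem_sp B N.toSubgroup p hh
      rw [hbot, Submodule.mem_bot] at h2
      exact h2
    obtain ⟨σ, hσ⟩ := hinf N.toSubgroup.index (Nat.pos_of_ne_zero hfi.index_ne_zero)
    apply hσ
    rw [← map_pow]
    exact h1 _ (N.toSubgroup.pow_index_mem σ)
  have hconj : ∀ g, ∀ X ∈ sp B N.toSubgroup p, ρ g * X * ρ g⁻¹ ∈ sp B N.toSubgroup p := by
    intro g X hX
    obtain ⟨c, hc, hc0⟩ := hρB g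
    obtain ⟨c', hc', hc0'⟩ := hρB g⁻¹
    have h1 := sp_conj B N.toSubgroup hp0 hp hn hNb g hX
    rw [hc, hc', smul_mul_assoc, smul_mul_assoc, mul_smul_comm, smul_smul] at h1
    have h2 := Submodule.smul_mem _ (c * c')⁻¹ h1
    rwa [smul_smul, inv_mul_cancel₀ (mul_ne_zero hc0 hc0'), one_smul] at h2
  have hirrB : ∀ W : Submodule ℂ_[p] (Fin d → ℂ_[p]),
      (∀ g, ∀ w ∈ W, (B g).mulVec w ∈ W) → W = ⊥ ∨ W = ⊤ := by
    intro W hW
    refine hirr W fun g w hw => ?_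
    obtain ⟨c, hc, hc0⟩ := hρB g
    have h1 := hW g w hw
    rw [hc, Matrix.smul_mulVec] at h1
    have h2 := W.smul_mem c⁻¹ h1
    rwa [smul_smul, inv_mul_cancel₀ hc0, one_smul] at h2
  have hX : ∃ X ∈ sp B N.toSubgroup p, X.det ≠ 0 := by
    by_cases htrace : ∃ x ∈ sp B N.toSubgroup p, x.trace ≠ 0
    · refine ⟨1, one_mem_sp B N.toSubgroup hp0 hp hn hNb hirrB htrace, ?_⟩
      rw [Matrix.det_one]
      exact one_ne_zero
    · push Not at htrace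
      refine exists_nonsing htr hspan hred ?_ (sp B N.toSubgroup p) hne hconj htrace
      intro W hW hWc hW0
      obtain ⟨Y, hY, hY0⟩ := hr W hW hWc hW0
      exact ⟨Y, hY, ((Matrix.isUnit_iff_isUnit_det Y).mp hY0).ne_zero⟩
  obtain ⟨X, hX1, hX2⟩ := hX
  obtain ⟨h, hh, h0⟩ := exists_of_sp B N.toSubgroup hp0 hp hNb hX1 hX2
  exact ⟨h, hNH h hh, h0⟩

end

open NumberField Pool.Agent.TT Pool.Agent.TB Pool.Agent.TF

/-- The residual representation is a reduction of the representation over `ℂ_[p]`. -/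
theorem rd_one {K : Type} [Field K] [NumberField K] [Algebra K Qbar] {p a : ℕ} [hp : Fact p.Prime]
    {ζ : 𝓞 K} (hζ : IsPrimitiveRoot ζ (p ^ a)) {s : ℕ} (S : Fin s → Stratum K)
    (ip : K →+* ℂ_[p]) {d : ℕ} (ρ : (Qbar ≃ₐ[K] Qbar) →* Matrix (Fin d) (Fin d) ℂ_[p])
    (hρ : Continuous ρ)
    (hT : FrobeniusValues (fun σ => (ρ σ).trace) fun _ _ _ φ =>
      ip (strataSum (p ^ a) ζ φ S : 𝓞 K))
    {k : Type} [Field k] [CharP k p] [IsAlgClosed k]
    (r : (Qbar ≃ₐ[K] Qbar) →* Matrix (Fin d) (Fin d) k)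
    (hr : IsOpen (r.ker : Set (Qbar ≃ₐ[K] Qbar)))
    (hrT : FrobeniusValues (fun σ => (r σ).trace) fun _ _ _ φ => ((strataCard φ S : ℤ) : k)) :
    ∃ red : nv ℂ_[p] →+* k, (Set.range red).Infinite ∧ Rd (nv ℂ_[p]) red ρ r 1 1 := by
  classical
  obtain ⟨red, hred0, hredinf⟩ := res_exists p k
  refine ⟨red, hredinf, ?_⟩
  intro g
  obtain ⟨t, h1, h2⟩ := er_trace hp.out hζ S (norm_p_lt p) ip (T := fun σ => (ρ σ).trace)
    hρ.matrix_trace hT r hr hrT g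
  have ht1 : ‖(ρ g).trace‖ ≤ 1 := gr_le_of_close (gr_int_le t) h1
  refine ⟨⟨(ρ g).trace, ht1⟩, ?_, ?_⟩
  · rw [one_mul]
  · rw [one_mul, ← h2]
    have h3 : (⟨(ρ g).trace, ht1⟩ : nv ℂ_[p]) = (t : nv ℂ_[p]) +
        (⟨(ρ g).trace, ht1⟩ - (t : nv ℂ_[p])) := by ring
    have h4 : red (⟨(ρ g).trace, ht1⟩ - (t : nv ℂ_[p])) = 0 := by
      apply hred0
      have h5 : (((⟨(ρ g).trace, ht1⟩ : nv ℂ_[p]) - (t : nv ℂ_[p]) : nv ℂ_[p]) : ℂ_[p]) =
          (ρ g).trace - (t : ℂ_[p]) := by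
        have h6 : (((t : nv ℂ_[p])) : ℂ_[p]) = (t : ℂ_[p]) :=
          map_intCast (nv ℂ_[p]).subtype t
        rw [← h6]
        rfl
      rw [h5]
      exact h1
    rw [h3, map_add, h4, add_zero, map_intCast]

/-- **The main theorem.** -/
theorem main {K : Type} [Field K] [NumberField K] [Algebra K Qbar] {p a : ℕ} [hp : Fact p.Prime]
    {ζ : 𝓞 K} (hζ : IsPrimitiveRoot ζ (p ^ a)) {s : ℕ} (S : Fin s → Stratum K)
    (ip : K →+* ℂ_[p]) {d : ℕ} (ρ : (Qbar ≃ₐ[K] Qbar) →* Matrix (Fin d) (Fin d) ℂ_[p])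
    (hρ : Continuous ρ)
    (hT : FrobeniusValues (fun σ => (ρ σ).trace) fun _ _ _ φ =>
      ip (strataSum (p ^ a) ζ φ S : 𝓞 K))
    {k : Type} [Field k] [CharP k p] [IsAlgClosed k]
    (r : (Qbar ≃ₐ[K] Qbar) →* Matrix (Fin d) (Fin d) k)
    (hr : IsOpen (r.ker : Set (Qbar ≃ₐ[K] Qbar)))
    (hspan : Submodule.span k (Set.range r) = ⊤)
    (hrT : FrobeniusValues (fun σ => (r σ).trace) fun _ _ _ φ => ((strataCard φ S : ℤ) : k))
    {j : ℕ} (hbig : (∀ e : ℕ, 0 < e → ∃ σ, (cycC p σ ^ (j * d) * (ρ σ).det) ^ e ≠ 1) ∨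
      (Robust r ∧ ∀ e : ℕ, 0 < e → ∃ σ, (cycC p σ ^ j • ρ σ) ^ e ≠ 1))
    {ℓ : ℕ} [Fact ℓ.Prime] (il : K →+* PadicAlgCl ℓ) {V : Type} [AddCommGroup V]
    [Module (PadicAlgCl ℓ) V] [Module.Finite (PadicAlgCl ℓ) V]
    (π : Representation (PadicAlgCl ℓ) (Qbar ≃ₐ[K] Qbar) V)
    (hπ : FrobeniusValues (fun σ => LinearMap.trace (PadicAlgCl ℓ) V (π σ)) fun _ _ _ φ =>
      il (strataSum (p ^ a) ζ φ S : 𝓞 K))
    (H : Subgroup (Qbar ≃ₐ[K] Qbar)) (hH : IsOpen (H : Set (Qbar ≃ₐ[K] Qbar)))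
    (W₁ W₂ : Submodule (PadicAlgCl ℓ) V) (hW : W₁ ≤ W₂)
    (hTate : ∀ σ ∈ H, ∀ x ∈ W₂, cyc ℓ σ ^ j • π σ x - x ∈ W₁) : W₁ = W₂ := by
  classical
  rcases hbig with hdet | ⟨hrob, hinf⟩
  · exact er_main hζ S ip ρ hρ hT r hr hspan hrT hdet il π hπ H hH W₁ W₂ hW hTate
  have hac : Algebra.IsAlgebraic K Qbar := by
    have : Algebra.IsAlgebraic ℚ Qbar := AlgebraicClosure.isAlgebraic ℚ
    exact Algebra.IsAlgebraic.tower_top (K := ℚ) K
  have hgal : IsGalois K Qbar := by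
    have : Algebra.IsSeparable K Qbar := inferInstance
    have : Normal K Qbar := by
      have : IsAlgClosed Qbar := inferInstance
      have : IsAlgClosure K Qbar := ⟨this, hac⟩
      exact IsAlgClosure.normal K Qbar
    exact {}
  obtain ⟨γ, hγ⟩ := er_indep hp.out hζ S (norm_p_lt p) ip ρ hρ hT r hr hspan hrT
  have hirr := gram_irred ρ γ hγ
  obtain ⟨red, hredinf, htr⟩ := rd_one hζ S ip ρ hρ hT r hr hrT
  have hB : Continuous (twist ρ j) := by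
    have h3 : Continuous fun σ : Qbar ≃ₐ[K] Qbar => cycC p σ ^ j • ρ σ :=
      ((cycC_continuous (K := K) (p := p)).pow j).smul hρ
    exact h3
  obtain ⟨h, hh, h0⟩ := generic_of_robust ρ (twist ρ j) hB
    (fun g => ⟨cycC p g ^ j, rfl, pow_ne_zero _ (cycC_ne_zero g)⟩) hirr hinf r hspan hrob red
    hredinf htr H hH
  have hcomp := fa_compatible 0 1 (fun F _ _ φ => strataSum (p ^ a) ζ φ S) ip il ρ π (by
      obtain ⟨B, hB⟩ := hT
      refine ⟨B, ?_⟩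
      intro q hq hqB P hP hqP F _ _ φ hφ σ hσ
      rw [pow_zero, one_mul, map_one, one_mul]
      exact hB q hq hqB P hP hqP F φ hφ σ hσ) (by
      obtain ⟨B, hB⟩ := hπ
      refine ⟨B, ?_⟩
      intro q hq hqB P hP hqP F _ _ φ hφ σ hσ
      rw [pow_zero, one_mul, map_one, one_mul]
      exact hB q hq hqB P hP hqP F φ hφ σ hσ)
  by_contra hne
  have h1 := tate_det ip il (fun _ : Fin 1 => d) (fun _ => ρ) (fun _ => hρ) π hcomp j H hH W₁ W₂
    hW hTate hne h hh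
  rw [Fin.prod_univ_one] at h1
  apply h0
  have h2 : twist ρ j h - 1 = -(1 - cycC p h ^ j • ρ h) := by
    rw [neg_sub]
    rfl
  rw [h2, Matrix.det_neg, h1, mul_zero]

end Pool.Agent.RF
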