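import Pool.Agent.Lib_helper28.TE28.Sp

/-!
# Spaces of matrices stable under conjugation by an orthogonal group over the field of two elements
-/

set_option autoImplicit false

namespace Pool.Agent.RF

open Matrix

section

/-- The standard form over the field with two elements. -/
abbrev oo {g : ℕ} (x y : Fin g ⊕ Fin g → ZMod 2) : ZMod 2 := om (Matrix.J (Fin g) (ZMod 2)) x y

theorem z2 (a : ZMod 2) : a = 0 ∨ a = 1 := by
  revert a
  decide

theorem z2_ne {a : ZMod 2} (h : a ≠ 0) : a = 1 := (z2 a).resolve_left h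

variable {g : ℕ}

theorem oo_self (x : Fin g ⊕ Fin g → ZMod 2) : oo x x = 0 := om_J_self x

theorem oo_comm (x y : Fin g ⊕ Fin g → ZMod 2) : oo x y = oo y x := by
  unfold oo
  rw [om_skew om_J_self]
  exact neg_eq_of_add_eq_zero_left (CharTwo.add_self_eq_zero _)

theorem oo_add_left (x x' y : Fin g ⊕ Fin g → ZMod 2) : oo (x + x') y = oo x y + oo x' y :=
  om_add_left _ _ _ _

theorem oo_add_right (x y y' : Fin g ⊕ Fin g → ZMod 2) : oo x (y + y') = oo x y + oo x y' :=
  om_add_right _ _ _ _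

theorem vadd_self (x : Fin g ⊕ Fin g → ZMod 2) : x + x = 0 := by
  funext i
  exact CharTwo.add_self_eq_zero _

theorem eq_of_vadd {x y : Fin g ⊕ Fin g → ZMod 2} (h : x + y = 0) : x = y := by
  have := congrArg (fun z => z + y) h
  simp only [add_assoc, vadd_self, add_zero, zero_add] at this
  exact this

theorem oo_ex {v : Fin g ⊕ Fin g → ZMod 2} (hv : v ≠ 0) : ∃ z, oo z v = 1 := by
  obtain ⟨z, hz⟩ := exists_om_ne (J := Matrix.J (Fin g) (ZMod 2)) J_det_unit hv
  exact ⟨z, by rw [oo_comm]; exact z2_ne hz⟩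

theorem sol2 {v w : Fin g ⊕ Fin g → ZMod 2} (hv : v ≠ 0) (hw : w ≠ 0) :
    ∃ z, oo z v = 1 ∧ oo z w = 1 := by
  obtain ⟨x, hx⟩ := oo_ex hv
  obtain ⟨y, hy⟩ := oo_ex hw
  rcases z2 (oo x w) with h1 | h1
  · rcases z2 (oo y v) with h2 | h2
    · refine ⟨x + y, ?_, ?_⟩
      · rw [oo_add_left, hx, h2, add_zero]
      · rw [oo_add_left, h1, hy, zero_add]
    · exact ⟨y, h2, hy⟩
  · exact ⟨x, hx, h1⟩

theorem sep2 {v w : Fin g ⊕ Fin g → ZMod 2} (hv : v ≠ 0) (hw : w ≠ 0) (hvw : w ≠ v) :
    ∃ z, oo z v = 0 ∧ oo z w = 1 := by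
  obtain ⟨z, h1, h2⟩ := exists_sep (J := Matrix.J (Fin g) (ZMod 2)) om_J_self J_det_unit hv (w := w)
    (by
      intro c
      rcases z2 c with h | h
      · rw [h, zero_smul]
        exact hw
      · rw [h, one_smul]
        exact hvw)
  exact ⟨z, by rw [oo_comm]; exact h1, by rw [oo_comm]; exact z2_ne h2⟩

theorem sol3 {v w u : Fin g ⊕ Fin g → ZMod 2} (hv : v ≠ 0) (hw : w ≠ 0) (hvw : w ≠ v) (hu : u ≠ 0)
    (hvu : u ≠ v) : ∃ z, oo z v = 0 ∧ oo z w = 1 ∧ oo z u = 1 := by
  obtain ⟨x, hx, hx'⟩ := sep2 hv hw hvw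
  obtain ⟨y, hy, hy'⟩ := sep2 hv hu hvu
  rcases z2 (oo x u) with h1 | h1
  · rcases z2 (oo y w) with h2 | h2
    · refine ⟨x + y, ?_, ?_, ?_⟩
      · rw [oo_add_left, hx, hy, add_zero]
      · rw [oo_add_left, hx', h2, add_zero]
      · rw [oo_add_left, h1, hy', zero_add]
    · exact ⟨y, hy, h2, hy'⟩
  · exact ⟨x, hx, hx', h1⟩

/-- The form as a linear map. -/
def ool (x : Fin g ⊕ Fin g → ZMod 2) : (Fin g ⊕ Fin g → ZMod 2) →ₗ[ZMod 2] ZMod 2 where
  toFun := fun y => oo x y
  map_add' := fun a b => oo_add_right x a b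
  map_smul' := fun c a => by
    rw [RingHom.id_apply, smul_eq_mul]
    exact om_smul_right _ _ _ _

theorem exists_out (hg : 3 ≤ g) (a b : Fin g ⊕ Fin g → ZMod 2) :
    ∃ y, oo a y = 0 ∧ oo b y = 0 ∧ y ≠ 0 ∧ y ≠ a ∧ y ≠ b ∧ y ≠ a + b := by
  by_contra hcon
  push Not at hcon
  let f : (Fin g ⊕ Fin g → ZMod 2) →ₗ[ZMod 2] ZMod 2 × ZMod 2 := (ool a).prod (ool b)
  have h1 : LinearMap.ker f ≤ Submodule.span (ZMod 2) {a, b} := by
    intro y hy
    rw [LinearMap.mem_ker] at hy
    have h2 : oo a y = 0 := congrArg Prod.fst hy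
    have h3 : oo b y = 0 := congrArg Prod.snd hy
    by_cases e1 : y = 0
    · rw [e1]
      exact Submodule.zero_mem _
    by_cases e2 : y = a
    · rw [e2]
      exact Submodule.subset_span (by simp)
    by_cases e3 : y = b
    · rw [e3]
      exact Submodule.subset_span (by simp)
    rw [hcon y h2 h3 e1 e2 e3]
    exact Submodule.add_mem _ (Submodule.subset_span (by simp)) (Submodule.subset_span (by simp))
  have h2 := Submodule.finrank_mono h1
  have h3 : Module.finrank (ZMod 2) (Submodule.span (ZMod 2) ({a, b} : Set (Fin g ⊕ Fin g → ZMod 2)))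
      ≤ 2 := by
    have h4 := finrank_span_finset_le_card (R := ZMod 2) ({a, b} : Finset (Fin g ⊕ Fin g → ZMod 2))
    have h5 : (({a, b} : Finset (Fin g ⊕ Fin g → ZMod 2)) : Set (Fin g ⊕ Fin g → ZMod 2)) =
        {a, b} := by simp
    rw [Set.finrank, h5] at h4
    exact h4.trans Finset.card_le_two
  have h4 := LinearMap.finrank_range_add_finrank_ker f
  have h5 : Module.finrank (ZMod 2) (LinearMap.range f) ≤ 2 := by
    have := Submodule.finrank_le (LinearMap.range f)
    rwa [Module.finrank_prod, Module.finrank_self] at this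
  rw [Module.finrank_fintype_fun_eq_card, Fintype.card_sum, Fintype.card_fin] at h4
  omega

theorem exists_pair (hg : 3 ≤ g) (a b : Fin g ⊕ Fin g → ZMod 2) :
    ∃ y y', oo a y = 0 ∧ oo b y = 0 ∧ oo a y' = 0 ∧ oo b y' = 0 ∧ oo y y' = 1 := by
  obtain ⟨y, h1, h2, h3, h4, h5, h6⟩ := exists_out hg a b
  by_contra hcon
  push Not at hcon
  have h7 : ∀ y', oo a y' = 0 → oo b y' = 0 → oo y y' = 0 := by
    intro y' e1 e2
    rcases z2 (oo y y') with e3 | e3
    · exact e3
    · exact absurd e3 (hcon y y' h1 h2 e1 e2)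
  have h8 : ool y ∈ Submodule.span (ZMod 2) (Set.range ![ool a, ool b]) := by
    apply mem_span_of_iInf_ker_le_ker
    intro z hz
    rw [Submodule.mem_iInf] at hz
    rw [LinearMap.mem_ker]
    exact h7 z (LinearMap.mem_ker.mp (hz 0)) (LinearMap.mem_ker.mp (hz 1))
  rw [Matrix.range_cons, Matrix.range_cons, Matrix.range_empty, Set.union_empty,
    Set.singleton_union, Submodule.mem_span_pair] at h8
  obtain ⟨c, d, hcd⟩ := h8
  have h9 : y + (c • a + d • b) = 0 := by
    by_contra hne
    obtain ⟨z, hz⟩ := oo_ex hne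
    have e1 : oo y z = c * oo a z + d * oo b z := by
      have := congrArg (fun f => f z) hcd
      simp only [LinearMap.add_apply, LinearMap.smul_apply, smul_eq_mul] at this
      exact this.symm
    rw [oo_comm, oo_add_left, oo_add_left] at hz
    have e2 : oo (c • a) z = c * oo a z := om_smul_left _ _ _ _
    have e3 : oo (d • b) z = d * oo b z := om_smul_left _ _ _ _
    rw [e2, e3, e1, CharTwo.add_self_eq_zero] at hz
    exact zero_ne_one hz
  have h10 : y = c • a + d • b := eq_of_vadd h9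
  rcases z2 c with hc | hc <;> rcases z2 d with hd | hd <;> rw [hc, hd] at h10
  · exact h3 (by simpa using h10)
  · exact h5 (by simpa using h10)
  · exact h4 (by simpa using h10)
  · exact h6 (by simpa using h10)

variable {q : (Fin g ⊕ Fin g → ZMod 2) → ZMod 2} (hq : ∀ x y, q (x + y) = q x + q y + oo x y)

include hq

theorem q_zero : q 0 = 0 := by
  have h := hq 0 0
  rw [add_zero, oo_self, add_zero, CharTwo.add_self_eq_zero] at h
  exact h

theorem ne_zero_of_q {v : Fin g ⊕ Fin g → ZMod 2} (hv : q v = 1) : v ≠ 0 := by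
  rintro rfl
  rw [q_zero hq] at hv
  exact zero_ne_one hv

theorem exists_ns (hg : 3 ≤ g) (a b : Fin g ⊕ Fin g → ZMod 2) :
    ∃ v, oo a v = 0 ∧ oo b v = 0 ∧ q v = 1 := by
  obtain ⟨y, y', h1, h2, h3, h4, h5⟩ := exists_pair hg a b
  rcases z2 (q y) with e1 | e1
  · rcases z2 (q y') with e2 | e2
    · refine ⟨y + y', ?_, ?_, ?_⟩
      · rw [oo_add_right, h1, h3, add_zero]
      · rw [oo_add_right, h2, h4, add_zero]
      · rw [hq, e1, e2, h5, add_zero, zero_add]
    · exact ⟨y', h3, h4, e2⟩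
  · exact ⟨y, h1, h2, e1⟩

theorem exists_z (hg : 3 ≤ g) {v w : Fin g ⊕ Fin g → ZMod 2} (hv : v ≠ 0) (hw : w ≠ 0) :
    ∃ z, q z = 1 ∧ oo z v = 1 ∧ oo z w = 1 := by
  obtain ⟨z, h1, h2⟩ := sol2 hv hw
  rcases z2 (q z) with e0 | e0
  · have key : ∀ y, oo v y = 0 → oo w y = 0 → q y + oo z y = 1 →
        ∃ z, q z = 1 ∧ oo z v = 1 ∧ oo z w = 1 := by
      intro y e1 e2 e3
      refine ⟨z + y, ?_, ?_, ?_⟩
      · rw [hq, e0, zero_add, e3]
      · rw [oo_add_left, h1, oo_comm y v, e1, add_zero]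
      · rw [oo_add_left, h2, oo_comm y w, e2, add_zero]
    obtain ⟨y, y', h3, h4, h5, h6, h7⟩ := exists_pair hg v w
    rcases z2 (q y + oo z y) with e1 | e1
    · rcases z2 (q y' + oo z y') with e2 | e2
      · refine key (y + y') ?_ ?_ ?_
        · rw [oo_add_right, h3, h5, add_zero]
        · rw [oo_add_right, h4, h6, add_zero]
        · rw [hq, oo_add_right, h7]
          calc q y + q y' + 1 + (oo z y + oo z y') = (q y + oo z y) + (q y' + oo z y') + 1 := by
                ring
            _ = 1 := by rw [e1, e2, add_zero, zero_add]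
      · exact key y' h5 h6 e2
    · exact key y h3 h4 e1
  · exact ⟨z, e0, h1, h2⟩

theorem exists_triple (hg : 3 ≤ g) {v : Fin g ⊕ Fin g → ZMod 2} (hv : q v = 1) :
    ∃ w w', q w = 1 ∧ q w' = 1 ∧ oo v w = 0 ∧ oo v w' = 0 ∧ oo w w' = 0 ∧ w ≠ v ∧ w' ≠ v ∧
      w ≠ w' := by
  obtain ⟨x, h1, -, h2, h3, -, -⟩ := exists_out hg v v
  obtain ⟨y, h4, h5, h6, h7, h8, h9⟩ := exists_out hg v x
  have adj : ∀ x, oo v x = 0 → x ≠ 0 → x ≠ v → ∃ w, q w = 1 ∧ oo v w = 0 ∧ w ≠ v ∧
      (w = x ∨ w = x + v) := by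
    intro x e1 e2 e3
    rcases z2 (q x) with e4 | e4
    · refine ⟨x + v, ?_, ?_, ?_, Or.inr rfl⟩
      · rw [hq, e4, hv, oo_comm, e1, zero_add, add_zero]
      · rw [oo_add_right, e1, oo_self, add_zero]
      · intro e
        exact e2 (add_eq_right.mp e)
    · exact ⟨x, e4, e1, e3, Or.inl rfl⟩
  obtain ⟨w, a1, a2, a3, a4⟩ := adj x h1 h2 h3
  obtain ⟨w', b1, b2, b3, b4⟩ := adj y h4 h6 h7
  have hxv : oo x v = 0 := by rw [oo_comm]; exact h1
  refine ⟨w, w', a1, b1, a2, b2, ?_, a3, b3, ?_⟩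
  · rcases a4 with rfl | rfl <;> rcases b4 with rfl | rfl <;>
      simp only [oo_add_left, oo_add_right, h5, h4, hxv, oo_self, add_zero]
  · intro e
    rcases a4 with a4 | a4 <;> rcases b4 with b4 | b4
    · exact h8 (by rw [← a4, ← b4, e])
    · apply h9
      have : y + v = x := by rw [← a4, ← b4, e]
      rw [← this, ← add_assoc, add_comm v y, add_assoc, vadd_self, add_zero]
    · apply h9
      have : x + v = y := by rw [← a4, ← b4, e]
      rw [← this, add_comm]
    · apply h8
      have : x + v = y + v := by rw [← a4, ← b4, e]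
      exact (add_right_cancel this).symm

/-- Generation of the orthogonal complement of a nonsingular vector. -/
theorem gen_perp (hg : 3 ≤ g) {v : Fin g ⊕ Fin g → ZMod 2} (hv : q v = 1)
    (A : AddSubgroup (Fin g ⊕ Fin g → ZMod 2))
    (hA : ∀ w, q w = 1 → oo v w = 0 → w ≠ v → w ∈ A) : ∀ u, oo v u = 0 → u ∈ A := by
  have hvA : v ∈ A := by
    obtain ⟨w, w', h1, h2, h3, h4, h5, h6, h7, h8⟩ := exists_triple hq hg hv
    have h9 : w + w' + v ∈ A := by
      apply hA
      · rw [hq, hq, h1, h2, h5, hv, oo_add_left, oo_comm w v, h3, oo_comm w' v, h4]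
        decide
      · rw [oo_add_right, oo_add_right, h3, h4, oo_self]
        decide
      · intro e
        apply h8
        exact eq_of_vadd (add_eq_right.mp e)
    have h10 := A.add_mem (A.add_mem (hA w h1 h3 h6) (hA w' h2 h4 h7)) h9
    have h11 : w + w' + (w + w' + v) = v := by
      rw [← add_assoc, vadd_self, zero_add]
    rwa [h11] at h10
  intro u hu
  by_cases h0 : u = 0
  · rw [h0]
    exact A.zero_mem
  by_cases h1 : u = v
  · rw [h1]
    exact hvA
  rcases z2 (q u) with e | e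
  · have h2 : u + v ∈ A := by
      apply hA
      · rw [hq, e, hv, oo_comm, hu]
        decide
      · rw [oo_add_right, hu, oo_self, add_zero]
      · intro e'
        exact h0 (add_eq_right.mp e')
    have h3 := A.add_mem h2 hvA
    rwa [add_assoc, vadd_self, add_zero] at h3
  · exact hA u e hu h1

/-- Transitivity on nonsingular vectors. -/
theorem trans_ns (hg : 3 ≤ g) (S : Set (Fin g ⊕ Fin g → ZMod 2))
    (hS : ∀ x, q x = 1 → ∀ v ∈ S, v + oo x v • x ∈ S) {v : Fin g ⊕ Fin g → ZMod 2} (hv : v ∈ S)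
    (hv1 : q v = 1) : ∀ u, q u = 1 → u ∈ S := by
  have step : ∀ v ∈ S, q v = 1 → ∀ u, q u = 1 → oo u v = 1 → u ∈ S := by
    intro v hv hv1 u hu huv
    have h1 := hS (u + v) (by rw [hq, hu, hv1, huv]; decide) v hv
    rw [oo_add_left, huv, oo_self, add_zero, one_smul, add_comm u v, ← add_assoc, vadd_self,
      zero_add] at h1
    exact h1
  intro u hu
  obtain ⟨z, h1, h2, h3⟩ := exists_z hq hg (ne_zero_of_q hq hv1) (ne_zero_of_q hq hu)
  exact step z (step v hv hv1 z h1 h2) h1 u hu (by rw [oo_comm]; exact h3)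

end

section

variable {g : ℕ} {k : Type*} [Field k] [Algebra (ZMod 2) k]
  {q : (Fin g ⊕ Fin g → ZMod 2) → ZMod 2} (hq : ∀ x y, q (x + y) = q x + q y + oo x y)
  {W : Submodule k (Matrix (Fin g ⊕ Fin g) (Fin g ⊕ Fin g) k)}

/-- The matrices `v ↦ oo y v • x`. -/
abbrev Nz (k : Type*) [Field k] [Algebra (ZMod 2) k] (x y : Fin g ⊕ Fin g → ZMod 2) :
    Matrix (Fin g ⊕ Fin g) (Fin g ⊕ Fin g) k := Nk k (Matrix.J (Fin g) (ZMod 2)) x y

theorem two_k : (2 : k) = 0 := by
  have h : algebraMap (ZMod 2) k 2 = 0 := by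
    have : (2 : ZMod 2) = 0 := by decide
    rw [this, map_zero]
  rw [map_ofNat] at h
  exact h

theorem mat_add_self (X : Matrix (Fin g ⊕ Fin g) (Fin g ⊕ Fin g) k) : X + X = 0 := by
  rw [← two_smul k, two_k, zero_smul]

theorem mat_neg (X : Matrix (Fin g ⊕ Fin g) (Fin g ⊕ Fin g) k) : -X = X :=
  neg_eq_of_add_eq_zero_left (mat_add_self X)

theorem conj_one (x v w : Fin g ⊕ Fin g → ZMod 2) :
    (1 + Nz k x x) * Nz k v w * (1 - Nz k x x) = Nz k (v + oo x v • x) (w + oo x w • x) := by
  have h := conj_Nk k (J := Matrix.J (Fin g) (ZMod 2)) om_J_self 1 x v w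
  rw [map_one, one_smul, one_mul, one_mul] at h
  exact h

theorem conj_lin (α β : k) (T T' A B : Matrix (Fin g ⊕ Fin g) (Fin g ⊕ Fin g) k) :
    T * (α • A + β • B) * T' = α • (T * A * T') + β • (T * B * T') := by
  rw [mul_add, add_mul, mul_smul_comm, mul_smul_comm, smul_mul_assoc, smul_mul_assoc]

theorem mem_NNz (hW : ∀ x, q x = 1 → ∀ Y ∈ W, (1 + Nz k x x) * Y * (1 - Nz k x x) ∈ W)
    {X : Matrix (Fin g ⊕ Fin g) (Fin g ⊕ Fin g) k} (hX : X ∈ W) {v w : Fin g ⊕ Fin g → ZMod 2}
    (hv : q v = 1) (hw : q w = 1) (hvw : oo v w = 0) :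
    (hat k (w ᵥ* Matrix.J (Fin g) (ZMod 2)) ⬝ᵥ X *ᵥ hat k v) • Nz k w v +
      (hat k (v ᵥ* Matrix.J (Fin g) (ZMod 2)) ⬝ᵥ X *ᵥ hat k w) • Nz k v w ∈ W := by
  have e0 : om (Matrix.J (Fin g) (ZMod 2)) w v = 0 := (oo_comm w v).trans hvw
  have e1 : om (Matrix.J (Fin g) (ZMod 2)) v w = 0 := hvw
  have key := Nk_mul_mul k (Matrix.J (Fin g) (ZMod 2))
  rw [← key w w v v, ← key v v w w]
  set a := Nk k (Matrix.J (Fin g) (ZMod 2)) v v with ha
  set b := Nk k (Matrix.J (Fin g) (ZMod 2)) w w with hb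
  have hab : a * b = 0 := by rw [ha, hb, Nk_mul, e1, map_zero, zero_smul]
  have hba : b * a = 0 := by rw [ha, hb, Nk_mul, e0, map_zero, zero_smul]
  have h1 := W.sub_mem (hW v hv X hX) hX
  have h2 := W.sub_mem (hW w hw _ h1) h1
  have h3 : (1 + b) * ((1 + a) * X * (1 - a) - X) * (1 - b) - ((1 + a) * X * (1 - a) - X) =
      -(b * X * a + a * X * b) := by
    have e1 : ((1 + a) * X * (1 - a) - X) = a * X - X * a - a * X * a := by noncomm_ring
    rw [e1]
    have e2 : (1 + b) * (a * X - X * a - a * X * a) * (1 - b) - (a * X - X * a - a * X * a) =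
        (b * a) * X - b * X * a - (b * a) * X * a - a * X * b + X * (a * b) + a * X * (a * b)
        - (b * a) * X * b + b * X * (a * b) + (b * a) * X * (a * b) := by noncomm_ring
    rw [e2, hab, hba]
    simp only [zero_mul, mul_zero]
    abel
  have h4 := W.neg_mem h2
  have h5 : -((1 + Nz k w w) * ((1 + Nz k v v) * X * (1 - Nz k v v) - X) * (1 - Nz k w w) -
      ((1 + Nz k v v) * X * (1 - Nz k v v) - X)) = b * X * a + a * X * b := by
    have h6 : (1 + Nz k w w) * ((1 + Nz k v v) * X * (1 - Nz k v v) - X) * (1 - Nz k w w) -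
      ((1 + Nz k v v) * X * (1 - Nz k v v) - X) = -(b * X * a + a * X * b) := h3
    rw [h6, neg_neg]
  rw [h5] at h4
  exact h4

include hq

/-- A matrix orthogonal to all pairs of orthogonal nonsingular vectors is scalar. -/
theorem scalar_of_ns (hg : 3 ≤ g) (X : Matrix (Fin g ⊕ Fin g) (Fin g ⊕ Fin g) k)
    (hX : ∀ v w, q v = 1 → q w = 1 → v ≠ w → oo v w = 0 →
      hat k (v ᵥ* Matrix.J (Fin g) (ZMod 2)) ⬝ᵥ X *ᵥ hat k w = 0) : ∃ l : k, X = l • 1 := by
  have h1 : ∀ v u, q v = 1 → oo v u = 0 →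
      hat k (v ᵥ* Matrix.J (Fin g) (ZMod 2)) ⬝ᵥ X *ᵥ hat k u = 0 := by
    intro v u hv hu
    let A : AddSubgroup (Fin g ⊕ Fin g → ZMod 2) :=
      { carrier := {u | hat k (v ᵥ* Matrix.J (Fin g) (ZMod 2)) ⬝ᵥ X *ᵥ hat k u = 0}
        zero_mem' := by
          rw [Set.mem_ofPred_eq]
          have : hat k (0 : Fin g ⊕ Fin g → ZMod 2) = 0 := by
            funext i
            simp [hat]
          rw [this, Matrix.mulVec_zero, dotProduct_zero]
        add_mem' := by
          intro a b ha hb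
          rw [Set.mem_ofPred_eq] at ha hb ⊢
          rw [hat_add, Matrix.mulVec_add, dotProduct_add, ha, hb, add_zero]
        neg_mem' := by
          intro a ha
          rw [Set.mem_ofPred_eq] at ha ⊢
          have : -a = a := by
            funext i
            exact ZMod.neg_eq_self_mod_two _
          rw [this]
          exact ha }
    exact gen_perp hq hg hv A (fun w hw hvw hne => hX v w hv hw hne.symm hvw) u hu
  refine scalar_of_form (F := ZMod 2) (J := Matrix.J (Fin g) (ZMod 2)) om_J_self J_det_unit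
    (by rw [Fintype.card_sum, Fintype.card_fin]; omega) X ?_
  intro x y _ _ hxy
  rcases z2 (q x) with e | e
  · obtain ⟨v, hv1, hv2, hv3⟩ := exists_ns hq hg x y
    have h2 := h1 (x + v) y (by rw [hq, e, hv3, hv1]; decide)
      (by rw [oo_add_left, oo_comm v y, hv2, add_zero]; exact hxy)
    have h3 := h1 v y hv3 (by rw [oo_comm]; exact hv2)
    rw [Matrix.add_vecMul, hat_add, add_dotProduct, h3, add_zero] at h2
    exact h2
  · exact h1 x y e hxy

/-- The final step. -/
theorem wedge_of_ns (hg : 3 ≤ g)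
    (h : ∀ v, q v = 1 → ∀ u, oo v u = 0 → Nz k v u - Nz k u v ∈ W) : ∃ Y ∈ W, IsUnit Y := by
  refine exists_wedge (F := ZMod 2) (by omega) W ?_
  intro x y hxy
  rcases z2 (q x) with e | e
  · obtain ⟨v, hv1, hv2, hv3⟩ := exists_ns hq hg x y
    have h2 := h (x + v) (by rw [hq, e, hv3, hv1]; decide) y
      (by rw [oo_add_left, oo_comm v y, hv2, add_zero]; exact hxy)
    have h3 := h v hv3 y (by rw [oo_comm]; exact hv2)
    have h4 := W.sub_mem h2 h3
    have h5 : Nz k (x + v) y - Nz k y (x + v) - (Nz k v y - Nz k y v) = Nz k x y - Nz k y x := by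
      unfold Nz
      rw [Nk_add_left, Nk_add_right]
      abel
    rw [h5] at h4
    exact h4
  · exact h x e y hxy

/-- Every nonzero space of matrices stable under the orthogonal transvections contains an
invertible matrix. -/
theorem robust_orth (hg : 3 ≤ g) (hW0 : W ≠ ⊥)
    (hW : ∀ x, q x = 1 → ∀ Y ∈ W, (1 + Nz k x x) * Y * (1 - Nz k x x) ∈ W) :
    ∃ Y ∈ W, IsUnit Y := by
  classical
  obtain ⟨X, hX, hX0⟩ := Submodule.exists_mem_ne_zero_of_ne_bot hW0
  by_cases hform : ∀ v w, q v = 1 → q w = 1 → v ≠ w → oo v w = 0 →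
      hat k (v ᵥ* Matrix.J (Fin g) (ZMod 2)) ⬝ᵥ X *ᵥ hat k w = 0
  · obtain ⟨l, hl⟩ := scalar_of_ns hq hg X hform
    refine ⟨X, hX, ?_⟩
    have hl0 : l ≠ 0 := by
      rintro rfl
      rw [zero_smul] at hl
      exact hX0 hl
    rw [hl]
    exact IsUnit.of_mul_eq_one (l⁻¹ • 1) (by
      rw [smul_mul_smul_comm, mul_inv_cancel₀ hl0, one_mul, one_smul])
  push Not at hform
  obtain ⟨v, w, hv, hw, hne, hvw, hb⟩ := hform
  have h1 := mem_NNz hW hX hv hw hvw
  set α := hat k (v ᵥ* Matrix.J (Fin g) (ZMod 2)) ⬝ᵥ X *ᵥ hat k w with hα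
  set β := hat k (w ᵥ* Matrix.J (Fin g) (ZMod 2)) ⬝ᵥ X *ᵥ hat k v with hβ
  rw [add_comm] at h1
  -- the set of all `u` with `α N(v,u) + β N(u,v) ∈ W`
  have hstep : ∀ w, α • Nz k v w + β • Nz k w v ∈ W → ∀ u, q u = 1 → oo v u = 0 → oo u w = 1 →
      α • Nz k v u + β • Nz k u v ∈ W := by
    intro w hw u hu hvu huw
    have h2 := hW u hu _ hw
    rw [conj_lin, conj_one, conj_one, oo_comm u v, hvu, huw, zero_smul, add_zero, one_smul] at h2
    have h3 := W.sub_mem h2 hw
    have h4 : α • Nz k v (w + u) + β • Nz k (w + u) v - (α • Nz k v w + β • Nz k w v) =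
        α • Nz k v u + β • Nz k u v := by
      unfold Nz
      rw [Nk_add_left, Nk_add_right]
      module
    rw [h4] at h3
    exact h3
  have hns : ∀ u, q u = 1 → oo v u = 0 → u ≠ v → α • Nz k v u + β • Nz k u v ∈ W := by
    intro u hu hvu hne'
    rcases z2 (oo u w) with e | e
    · by_cases huw : u = w
      · rw [huw]
        exact h1
      obtain ⟨z, hz1, hz2, hz3⟩ := sol3 (ne_zero_of_q hq hv) (ne_zero_of_q hq hw) hne.symm
        (ne_zero_of_q hq hu) hne'
      have hex : ∃ z, q z = 1 ∧ oo v z = 0 ∧ oo z w = 1 ∧ oo u z = 1 := by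
        rcases z2 (q z) with e' | e'
        · refine ⟨z + v, ?_, ?_, ?_, ?_⟩
          · rw [hq, e', hv, hz1]
            decide
          · rw [oo_add_right, oo_comm v z, hz1, oo_self, add_zero]
          · rw [oo_add_left, hz2, hvw, add_zero]
          · rw [oo_add_right, oo_comm u z, hz3, oo_comm u v, hvu, add_zero]
        · exact ⟨z, e', by rw [oo_comm]; exact hz1, hz2, by rw [oo_comm]; exact hz3⟩
      obtain ⟨z', a1, a2, a3, a4⟩ := hex
      exact hstep z' (hstep w h1 z' a1 a2 a3) u hu hvu a4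
    · exact hstep w h1 u hu hvu e
  let A : AddSubgroup (Fin g ⊕ Fin g → ZMod 2) :=
    { carrier := {u | α • Nz k v u + β • Nz k u v ∈ W}
      zero_mem' := by
        rw [Set.mem_ofPred_eq]
        have e1 : Nz k v (0 : Fin g ⊕ Fin g → ZMod 2) = 0 := by
          have h3 := Nk_smul_right k (Matrix.J (Fin g) (ZMod 2)) (0 : ZMod 2) v 0
          rw [zero_smul, map_zero, zero_smul] at h3
          exact h3
        have e2 : Nz k (0 : Fin g ⊕ Fin g → ZMod 2) v = 0 := by
          have h3 := Nk_smul_left k (Matrix.J (Fin g) (ZMod 2)) (0 : ZMod 2) 0 v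
          rw [zero_smul, map_zero, zero_smul] at h3
          exact h3
        rw [e1, e2, smul_zero, smul_zero, add_zero]
        exact W.zero_mem
      add_mem' := by
        intro a b ha hb
        rw [Set.mem_ofPred_eq] at ha hb ⊢
        have h3 := W.add_mem ha hb
        have h4 : α • Nz k v (a + b) + β • Nz k (a + b) v =
            α • Nz k v a + β • Nz k a v + (α • Nz k v b + β • Nz k b v) := by
          unfold Nz
          rw [Nk_add_left, Nk_add_right]
          module
        rw [h4]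
        exact h3
      neg_mem' := by
        intro a ha
        rw [Set.mem_ofPred_eq] at ha ⊢
        have : -a = a := by
          funext i
          exact ZMod.neg_eq_self_mod_two _
        rw [this]
        exact ha }
  have hall : ∀ u, oo v u = 0 → α • Nz k v u + β • Nz k u v ∈ W :=
    gen_perp hq hg hv A hns
  by_cases hαβ : α + β = 0
  · -- the alternating case
    have hβ' : β = -α := by
      rw [eq_neg_iff_add_eq_zero, add_comm]
      exact hαβ
    have h3 : ∀ u, oo v u = 0 → Nz k v u - Nz k u v ∈ W := by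
      intro u hu
      have h4 := W.smul_mem α⁻¹ (hall u hu)
      have h5 : α⁻¹ • (α • Nz k v u + β • Nz k u v) = Nz k v u - Nz k u v := by
        rw [hβ', neg_smul, ← sub_eq_add_neg, ← smul_sub, smul_smul, inv_mul_cancel₀ hb,
          one_smul]
      rwa [h5] at h4
    refine wedge_of_ns hq hg (trans_ns hq hg {v | ∀ u, oo v u = 0 → Nz k v u - Nz k u v ∈ W} ?_
      h3 hv)
    intro x hx v hv u hu
    set u' := u + oo x u • x with hu'
    have e1 : oo x u' = oo x u := by
      rw [hu', oo_add_right]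
      have : oo x (oo x u • x) = 0 := by
        have h6 : oo x (oo x u • x) = oo x u * oo x x := om_smul_right _ _ _ _
        rw [h6, oo_self, mul_zero]
      rw [this, add_zero]
    have e2 : u' + oo x u' • x = u := by
      rw [e1, hu', add_assoc, vadd_self, add_zero]
    have e3 : oo v u' = 0 := by
      have h6 : oo v (oo x u • x) = oo x u * oo v x := om_smul_right _ _ _ _
      have h7 : oo (oo x v • x) u = oo x v * oo x u := om_smul_left _ _ _ _
      rw [oo_add_left, h7] at hu
      rw [hu', oo_add_right, h6, oo_comm v x, mul_comm]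
      exact hu
    have h2 := hW x hx _ (hv u' e3)
    have e4 : ∀ A B T T' : Matrix (Fin g ⊕ Fin g) (Fin g ⊕ Fin g) k,
        T * (A - B) * T' = T * A * T' - T * B * T' := by
      intro A B T T'
      rw [mul_sub, sub_mul]
    rw [e4, conj_one, conj_one, e2] at h2
    exact h2
  · -- the symmetric case
    have h3 := hall v (oo_self v)
    rw [← add_smul] at h3
    have h4 := W.smul_mem (α + β)⁻¹ h3
    rw [smul_smul, inv_mul_cancel₀ hαβ, one_smul] at h4
    have h5 : ∀ u, q u = 1 → Nz k u u ∈ W := by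
      refine trans_ns hq hg {u | Nz k u u ∈ W} ?_ h4 hv
      intro x hx u hu
      rw [Set.mem_ofPred_eq] at hu ⊢
      rw [← conj_one]
      exact hW x hx _ hu
    have h6 : ∀ u z, q u = 1 → q z = 1 → oo u z = 1 → Nz k u z + Nz k z u ∈ W := by
      intro u z hu hz huz
      have h7 := h5 (u + z) (by rw [hq, hu, hz, huz]; decide)
      have h8 := W.sub_mem (W.sub_mem h7 (h5 u hu)) (h5 z hz)
      have h9 : Nz k (u + z) (u + z) - Nz k u u - Nz k z z = Nz k u z + Nz k z u := by
        unfold Nz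
        rw [Nk_add_left, Nk_add_right, Nk_add_right]
        abel
      rw [h9] at h8
      exact h8
    have h7 : ∀ u w, q u = 1 → q w = 1 → oo u w = 0 → Nz k u w + Nz k w u ∈ W := by
      intro u w hu hw huw
      obtain ⟨z, a1, a2, a3⟩ := exists_z hq hg (ne_zero_of_q hq hu) (ne_zero_of_q hq hw)
      have h8 := h6 u z hu a1 (by rw [oo_comm]; exact a2)
      have h9 := h6 u (z + w) hu (by rw [hq, a1, hw, a3]; decide)
        (by rw [oo_add_right, oo_comm u z, a2, huw, add_zero])
      have h10 := W.add_mem h8 h9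
      have h11 : Nz k u z + Nz k z u + (Nz k u (z + w) + Nz k (z + w) u) =
          Nz k u w + Nz k w u := by
        have e1 : Nz k u (z + w) = Nz k u z + Nz k u w := by
          unfold Nz
          rw [Nk_add_right]
        have e2 : Nz k (z + w) u = Nz k z u + Nz k w u := by
          unfold Nz
          rw [Nk_add_left]
        rw [e1, e2]
        calc Nz k u z + Nz k z u + (Nz k u z + Nz k u w + (Nz k z u + Nz k w u))
            = (Nz k u z + Nz k u z) + (Nz k z u + Nz k z u) + (Nz k u w + Nz k w u) := by abel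
          _ = Nz k u w + Nz k w u := by rw [mat_add_self, mat_add_self, zero_add, zero_add]
      rw [h11] at h10
      exact h10
    refine wedge_of_ns hq hg ?_
    intro u hu y hy
    let A' : AddSubgroup (Fin g ⊕ Fin g → ZMod 2) :=
      { carrier := {y | Nz k u y + Nz k y u ∈ W}
        zero_mem' := by
          rw [Set.mem_ofPred_eq]
          have e1 : Nz k u (0 : Fin g ⊕ Fin g → ZMod 2) = 0 := by
            have h3 := Nk_smul_right k (Matrix.J (Fin g) (ZMod 2)) (0 : ZMod 2) u 0
            rw [zero_smul, map_zero, zero_smul] at h3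
            exact h3
          have e2 : Nz k (0 : Fin g ⊕ Fin g → ZMod 2) u = 0 := by
            have h3 := Nk_smul_left k (Matrix.J (Fin g) (ZMod 2)) (0 : ZMod 2) 0 u
            rw [zero_smul, map_zero, zero_smul] at h3
            exact h3
          rw [e1, e2, add_zero]
          exact W.zero_mem
        add_mem' := by
          intro a b ha hb
          rw [Set.mem_ofPred_eq] at ha hb ⊢
          have h3 := W.add_mem ha hb
          have h4 : Nz k u (a + b) + Nz k (a + b) u =
              Nz k u a + Nz k a u + (Nz k u b + Nz k b u) := by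
            unfold Nz
            rw [Nk_add_left, Nk_add_right]
            abel
          rw [h4]
          exact h3
        neg_mem' := by
          intro a ha
          rw [Set.mem_ofPred_eq] at ha ⊢
          have : -a = a := by
            funext i
            exact ZMod.neg_eq_self_mod_two _
          rw [this]
          exact ha }
    have h8 : Nz k u y + Nz k y u ∈ W :=
      gen_perp hq hg hu A' (fun w hw huw _ => h7 u w hu hw huw) y hy
    rw [sub_eq_add_neg, mat_neg]
    exact h8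

end

end Pool.Agent.RF
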