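import Pool.Agent.Lib_helper28.TE28.SpEnd
import Pool.Agent.Lib_helper28.TE28.Orth

/-!
# Representations whose image contains an orthogonal group over the field of two elements
-/

set_option autoImplicit false

namespace Pool.Agent.RF

open Matrix

section

variable {k : Type*} [Field k] [Algebra (ZMod 2) k] {g d : ℕ} {G : Type*} [Group G]

theorem oo_eq (x y : Fin g ⊕ Fin g → ZMod 2) : x ⬝ᵥ (Matrix.J (Fin g) (ZMod 2) *ᵥ y) = oo x y := by
  unfold oo om
  rw [Matrix.dotProduct_mulVec]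

/-- Transvections at nonsingular vectors are orthogonal. -/
theorem transvection_q {q : (Fin g ⊕ Fin g → ZMod 2) → ZMod 2}
    (hq : ∀ x y, q (x + y) = q x + q y + oo x y) {x : Fin g ⊕ Fin g → ZMod 2} (hx : q x = 1)
    (y : Fin g ⊕ Fin g → ZMod 2) :
    q ((1 + Nk (ZMod 2) (Matrix.J (Fin g) (ZMod 2)) x x) *ᵥ y) = q y := by
  have h1 : (1 + Nk (ZMod 2) (Matrix.J (Fin g) (ZMod 2)) x x) *ᵥ y = y + oo x y • x := by
    rw [Matrix.add_mulVec, Matrix.one_mulVec]
    unfold Nk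
    rw [Matrix.vecMulVec_mulVec]
    have e1 : hat (ZMod 2) x = x := by
      funext i
      simp [hat]
    have e2 : hat (ZMod 2) (x ᵥ* Matrix.J (Fin g) (ZMod 2)) = x ᵥ* Matrix.J (Fin g) (ZMod 2) := by
      funext i
      simp [hat]
    rw [e1, e2, op_smul_eq_smul]
    rfl
  rw [h1]
  rcases z2 (oo x y) with h | h
  · rw [h, zero_smul, add_zero]
  · rw [h, one_smul, hq, hx, oo_comm, h, add_assoc]
    have : (1 : ZMod 2) + 1 = 0 := by decide
    rw [this, add_zero]

variable (r : G →* Matrix (Fin d) (Fin d) k) {P : Matrix (Fin d) (Fin g ⊕ Fin g) k}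
    {Q : Matrix (Fin g ⊕ Fin g) (Fin d) k} {q : (Fin g ⊕ Fin g → ZMod 2) → ZMod 2}
    (hq : ∀ x y, q (x + y) = q x + q y + oo x y)

include hq

theorem exists_transvection_q (hPQ : P * Q = 1) (hQP : Q * P = 1)
    (h : ∀ A : Matrix (Fin g ⊕ Fin g) (Fin g ⊕ Fin g) (ZMod 2), (∀ x, q (A *ᵥ x) = q x) →
        ∃ σ, r σ = P * A.map (algebraMap (ZMod 2) k) * Q)
    (x : Fin g ⊕ Fin g → ZMod 2) (hx : q x = 1) :
    ∃ σ, r σ = P * (1 + Nz k x x) * Q ∧ r σ⁻¹ = P * (1 - Nz k x x) * Q := by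
  obtain ⟨σ, hσ⟩ := h _ (transvection_q hq hx)
  have h0 := map_transvection (k := k) (1 : ZMod 2) x
  rw [one_smul, map_one, one_smul] at h0
  rw [h0] at hσ
  refine ⟨σ, hσ, ?_⟩
  have h1 : r σ⁻¹ * r σ = 1 := by rw [← map_mul, inv_mul_cancel, map_one]
  have h3 := Nk_sq (k := k) (1 : ZMod 2) x
  rw [map_one, one_smul] at h3
  have h2 : r σ * (P * (1 - Nz k x x) * Q) = 1 := by
    rw [hσ]
    calc P * (1 + Nz k x x) * Q * (P * (1 - Nz k x x) * Q)
        = P * ((1 + Nz k x x) * (Q * P) * (1 - Nz k x x)) * Q := by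
          simp only [Matrix.mul_assoc]
      _ = 1 := by rw [hQP, mul_one, h3, Matrix.mul_one, hPQ]
  calc r σ⁻¹ = r σ⁻¹ * (r σ * (P * (1 - Nz k x x) * Q)) := by rw [h2, mul_one]
    _ = _ := by rw [← mul_assoc, h1, one_mul]

/-- Orthogonal images are robust. -/
theorem robust_of_o (hg : 3 ≤ g) (hPQ : P * Q = 1) (hQP : Q * P = 1)
    (h : ∀ A : Matrix (Fin g ⊕ Fin g) (Fin g ⊕ Fin g) (ZMod 2), (∀ x, q (A *ᵥ x) = q x) →
        ∃ σ, r σ = P * A.map (algebraMap (ZMod 2) k) * Q) :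
    Robust r := by
  intro W hW0 hW _
  let f : Matrix (Fin g ⊕ Fin g) (Fin g ⊕ Fin g) k →ₗ[k] Matrix (Fin d) (Fin d) k :=
    { toFun := fun Y => P * Y * Q
      map_add' := fun A B => by rw [Matrix.mul_add, Matrix.add_mul]
      map_smul' := fun c A => by
        rw [Matrix.mul_smul, Matrix.smul_mul, RingHom.id_apply] }
  obtain ⟨X, hX, hX0⟩ := Submodule.exists_mem_ne_zero_of_ne_bot hW0
  have hXX : P * (Q * X * P) * Q = X := by
    calc P * (Q * X * P) * Q = (P * Q) * X * (P * Q) := by simp only [Matrix.mul_assoc]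
      _ = X := by rw [hPQ, one_mul, mul_one]
  have hne : W.comap f ≠ ⊥ := by
    intro hbot
    have h1 : Q * X * P ∈ W.comap f := by
      change P * (Q * X * P) * Q ∈ W
      rw [hXX]
      exact hX
    rw [hbot, Submodule.mem_bot] at h1
    apply hX0
    rw [← hXX, h1, Matrix.mul_zero, Matrix.zero_mul]
  obtain ⟨Y, hY, hYu⟩ := robust_orth hq hg hne (by
    intro x hx Y hY
    obtain ⟨σ, h1, h2⟩ := exists_transvection_q r hq hPQ hQP h x hx
    have h3 := hW σ _ hY
    change P * ((1 + Nz k x x) * Y * (1 - Nz k x x)) * Q ∈ W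
    have h4 : r σ * f Y * r σ⁻¹ = P * ((1 + Nz k x x) * Y * (1 - Nz k x x)) * Q := by
      rw [h1, h2]
      change P * (1 + Nz k x x) * Q * (P * Y * Q) * (P * (1 - Nz k x x) * Q) = _
      calc P * (1 + Nz k x x) * Q * (P * Y * Q) * (P * (1 - Nz k x x) * Q)
          = P * ((1 + Nz k x x) * (Q * P) * Y * (Q * P) * (1 - Nz k x x)) * Q := by
            simp only [Matrix.mul_assoc]
        _ = _ := by rw [hQP, mul_one, mul_one]
    rw [← h4]
    exact h3)
  refine ⟨P * Y * Q, hY, ?_⟩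
  obtain ⟨Z, hZ⟩ := hYu.exists_right_inv
  refine IsUnit.of_mul_eq_one (P * Z * Q) ?_
  calc P * Y * Q * (P * Z * Q) = P * (Y * (Q * P) * Z) * Q := by simp only [Matrix.mul_assoc]
    _ = 1 := by rw [hQP, mul_one, hZ, Matrix.mul_one, hPQ]

/-- Orthogonal images span. -/
theorem span_of_o (hg : 3 ≤ g) (hPQ : P * Q = 1) (hQP : Q * P = 1)
    (h : ∀ A : Matrix (Fin g ⊕ Fin g) (Fin g ⊕ Fin g) (ZMod 2), (∀ x, q (A *ᵥ x) = q x) →
        ∃ σ, r σ = P * A.map (algebraMap (ZMod 2) k) * Q) :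
    Submodule.span k (Set.range r) = ⊤ := by
  classical
  have hmul : ∀ A B, A ∈ Submodule.span k (Set.range r) → B ∈ Submodule.span k (Set.range r) →
      A * B ∈ Submodule.span k (Set.range r) := by
    intro A B hA hB
    have h1 := Submodule.mul_mem_mul hA hB
    rw [Submodule.span_mul_span] at h1
    refine Submodule.span_mono ?_ h1
    rintro _ ⟨_, ⟨a, rfl⟩, _, ⟨b, rfl⟩, rfl⟩
    exact ⟨a * b, map_mul r a b⟩
  have h1 : ∀ x, q x = 1 → P * Nz k x x * Q ∈ Submodule.span k (Set.range r) := by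
    intro x hx
    obtain ⟨σ, hσ, -⟩ := exists_transvection_q r hq hPQ hQP h x hx
    have h2 : P * Nz k x x * Q = r σ - r 1 := by
      rw [hσ, map_one, Matrix.mul_add, Matrix.add_mul, Matrix.mul_one, hPQ,
        add_sub_cancel_left]
    rw [h2]
    exact Submodule.sub_mem _ (Submodule.subset_span ⟨σ, rfl⟩) (Submodule.subset_span ⟨1, rfl⟩)
  have h2 : ∀ x y z w : Fin g ⊕ Fin g → ZMod 2, oo y z = 1 →
      (P * Nz k x y * Q) * (P * Nz k z w * Q) = P * Nz k x w * Q := by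
    intro x y z w hyz
    have e : Nz k x y * Nz k z w = Nz k x w := by
      have e1 := Nk_mul k (Matrix.J (Fin g) (ZMod 2)) x y z w
      have e2 : om (Matrix.J (Fin g) (ZMod 2)) y z = 1 := hyz
      rw [e2, map_one, one_smul] at e1
      exact e1
    calc P * Nz k x y * Q * (P * Nz k z w * Q) = P * (Nz k x y * (Q * P) * Nz k z w) * Q := by
          simp only [Matrix.mul_assoc]
      _ = _ := by rw [hQP, mul_one, e]
  have h4 : ∀ x y, q x = 1 → q y = 1 → P * Nz k x y * Q ∈ Submodule.span k (Set.range r) := by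
    intro x y hx hy
    rcases z2 (oo x y) with e | e
    · obtain ⟨z, hz, h5, h6⟩ := exists_z hq hg (ne_zero_of_q hq hx) (ne_zero_of_q hq hy)
      have h7 := hmul _ _ (hmul _ _ (h1 x hx) (h1 z hz)) (h1 y hy)
      rw [h2 x x z z (by rw [oo_comm]; exact h5), h2 x z y y h6] at h7
      exact h7
    · have h7 := hmul _ _ (h1 x hx) (h1 y hy)
      rw [h2 x x y y e] at h7
      exact h7
  have h5 : ∀ x, ∃ a b, q a = 1 ∧ q b = 1 ∧ (x = a ∨ x = a + b) := by
    intro x
    rcases z2 (q x) with e | e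
    · obtain ⟨v, hv1, -, hv2⟩ := exists_ns hq hg x x
      refine ⟨x + v, v, ?_, hv2, Or.inr ?_⟩
      · rw [hq, e, hv2, hv1]
        decide
      · rw [add_assoc, vadd_self, add_zero]
    · exact ⟨x, x, e, e, Or.inl rfl⟩
  have h6 : ∀ x y, q x = 1 → P * Nz k x y * Q ∈ Submodule.span k (Set.range r) := by
    intro x y hx
    obtain ⟨a, b, ha, hb, rfl | rfl⟩ := h5 y
    · exact h4 x y hx ha
    · have e : Nz k x (a + b) = Nz k x a + Nz k x b := Nk_add_right _ _ _ _ _
      rw [e, Matrix.mul_add, Matrix.add_mul]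
      exact Submodule.add_mem _ (h4 x a hx ha) (h4 x b hx hb)
  refine span_of_all (F := ZMod 2) r hPQ ?_
  intro x y
  obtain ⟨a, b, ha, hb, rfl | rfl⟩ := h5 x
  · exact h6 x y ha
  · have e : Nk k (Matrix.J (Fin g) (ZMod 2)) (a + b) y = Nz k a y + Nz k b y :=
      Nk_add_left _ _ _ _ _
    rw [e, Matrix.mul_add, Matrix.add_mul]
    exact Submodule.add_mem _ (h6 a y ha) (h6 b y hb)

end

theorem ContainsO.robust {k : Type*} [Field k] {G : Type*} [Group G] {d : ℕ}
    {r : G →* Matrix (Fin d) (Fin d) k} (h : ContainsO r) : Robust r := by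
  obtain ⟨_, g, q, P, Q, hg, hq, h1, h2, h3⟩ := h
  exact robust_of_o r (q := q) (fun x y => by rw [hq, oo_eq]) hg h1 h2 h3

theorem ContainsO.span {k : Type*} [Field k] {G : Type*} [Group G] {d : ℕ}
    {r : G →* Matrix (Fin d) (Fin d) k} (h : ContainsO r) :
    Submodule.span k (Set.range r) = ⊤ := by
  obtain ⟨_, g, q, P, Q, hg, hq, h1, h2, h3⟩ := h
  exact span_of_o r (q := q) (fun x y => by rw [hq, oo_eq]) hg h1 h2 h3

/-- The size of `d`. -/
theorem le_of_PQ {k : Type*} [Field k] {d g : ℕ} {P : Matrix (Fin d) (Fin g ⊕ Fin g) k}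
    {Q : Matrix (Fin g ⊕ Fin g) (Fin d) k} (hQP : Q * P = 1) : g + g ≤ d := by
  have h1 : Function.Injective (P.mulVecLin) := by
    intro a b hab
    have h2 : P *ᵥ a = P *ᵥ b := hab
    have h3 := congrArg (fun z => Q *ᵥ z) h2
    simp only [Matrix.mulVec_mulVec, hQP, Matrix.one_mulVec] at h3
    exact h3
  have h2 := LinearMap.finrank_le_finrank_of_injective h1
  simpa using h2

theorem ContainsO.not_lt {k : Type*} [Field k] {G : Type*} [Group G] {d : ℕ}
    {r : G →* Matrix (Fin d) (Fin d) k} (h : ContainsO r) {p : ℕ} [CharP k p] : ¬ d < p := by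
  obtain ⟨_, g, q, P, Q, hg, hq, h1, h2, h3⟩ := h
  have h4 := le_of_PQ h2
  have h5 : ((2 : ℕ) : k) = 0 := by exact_mod_cast (two_k (k := k))
  rw [CharP.cast_eq_zero_iff k p] at h5
  have h6 := Nat.le_of_dvd two_pos h5
  omega

end Pool.Agent.RF
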