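import Pool.Agent.Lib_helper90.Heart.Gram

/-!
# Reduction of matrices through the traces of a residually irreducible representation
-/

set_option autoImplicit false

namespace Pool.Agent.RF

open Matrix Polynomial

/-- The polynomial `det (X + t Y)`. -/
theorem det_line {k : Type*} [Field k] {n : Type*} [Fintype n] [DecidableEq n]
    (X Y : Matrix n n k) : ∃ P : k[X], ∀ t : k, P.eval t = (X + t • Y).det := by
  refine ⟨(X.map C + (Polynomial.X : k[X]) • Y.map C).det, fun t => ?_⟩
  rw [← Polynomial.coe_evalRingHom, RingHom.map_det]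
  congr 1
  ext i j
  simp
  ring

/-- If all matrices of an additive set stable under infinitely many scalars are singular, then all
matrices of its span are singular. -/
theorem det_span {k : Type*} [Field k] {n : Type*} [Fintype n] [DecidableEq n]
    (S : AddSubmonoid (Matrix n n k)) (c : Set k) (hc : c.Infinite)
    (hS : ∀ a ∈ c, ∀ X ∈ S, a • X ∈ S) (h : ∀ X ∈ S, X.det = 0) :
    ∀ X ∈ Submodule.span k (S : Set (Matrix n n k)), X.det = 0 := by
  classical
  have key : ∀ (s : Finset (Matrix n n k)) (f : Matrix n n k → k),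
      (∀ L ∈ s, L ∈ S) → ∀ Y ∈ S, (Y + ∑ L ∈ s, f L • L).det = 0 := by
    intro s f
    induction s using Finset.induction_on with
    | empty =>
      intro _ Y hY
      rw [Finset.sum_empty, add_zero]
      exact h Y hY
    | insert L s hL ih =>
      intro hs Y hY
      have ih' := ih (fun M hM => hs M (Finset.mem_insert_of_mem hM))
      have hLS := hs L (Finset.mem_insert_self _ _)
      rw [Finset.sum_insert hL]
      obtain ⟨P, hP⟩ := det_line (Y + ∑ M ∈ s, f M • M) L
      have hP0 : P = 0 := by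
        apply Polynomial.eq_zero_of_infinite_isRoot
        apply hc.mono
        intro a ha
        rw [Set.mem_ofPred_eq, Polynomial.IsRoot.def, hP]
        have h1 : Y + ∑ M ∈ s, f M • M + a • L = (Y + a • L) + ∑ M ∈ s, f M • M := by abel
        rw [h1]
        exact ih' _ (S.add_mem hY (hS a ha L hLS))
      have h2 := hP (f L)
      rw [hP0, Polynomial.eval_zero] at h2
      have h3 : Y + (f L • L + ∑ M ∈ s, f M • M) = Y + ∑ M ∈ s, f M • M + f L • L := by abel
      rw [h3, ← h2]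
  intro X hX
  rw [Submodule.mem_span_set'] at hX
  obtain ⟨m, f, g, rfl⟩ := hX
  have hX' : (∑ i, f i • (g i : Matrix n n k)) ∈
      Submodule.span k ((Finset.univ.image fun i => (g i : Matrix n n k) :
        Finset (Matrix n n k)) : Set (Matrix n n k)) := by
    apply Submodule.sum_mem
    intro i _
    apply Submodule.smul_mem
    apply Submodule.subset_span
    rw [Finset.mem_coe, Finset.mem_image]
    exact ⟨i, Finset.mem_univ i, rfl⟩
  rw [Submodule.mem_span_finset] at hX'
  obtain ⟨f', _, hf'⟩ := hX'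
  rw [← hf']
  have h1 := key (Finset.univ.image fun i => (g i : Matrix n n k)) f' (by
    intro L hL
    rw [Finset.mem_image] at hL
    obtain ⟨i, _, rfl⟩ := hL
    exact (g i).2) 0 S.zero_mem
  rw [zero_add] at h1
  exact h1

section Rd

variable {C k : Type*} [Field C] [Field k] (A : ValuationSubring C) (red : A →+* k) {G : Type*}
  [Group G] {d : ℕ} (ρ : G →* Matrix (Fin d) (Fin d) C) (r : G →* Matrix (Fin d) (Fin d) k)

/-- The matrix `X` reduces to `Y`. -/
def Rd (X : Matrix (Fin d) (Fin d) C) (Y : Matrix (Fin d) (Fin d) k) : Prop :=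
  ∀ g, ∃ t : A, (t : C) = (X * ρ g).trace ∧ red t = (Y * r g).trace

variable {A red ρ r}

theorem rd_add {X X' : Matrix (Fin d) (Fin d) C} {Y Y' : Matrix (Fin d) (Fin d) k}
    (h : Rd A red ρ r X Y) (h' : Rd A red ρ r X' Y') : Rd A red ρ r (X + X') (Y + Y') := by
  intro g
  obtain ⟨t, h1, h2⟩ := h g
  obtain ⟨t', h1', h2'⟩ := h' g
  refine ⟨t + t', ?_, ?_⟩
  · rw [add_mul, trace_add, ← h1, ← h1']
    rfl
  · rw [add_mul, trace_add, ← h2, ← h2', map_add]

theorem rd_smul (a : A) {X : Matrix (Fin d) (Fin d) C} {Y : Matrix (Fin d) (Fin d) k}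
    (h : Rd A red ρ r X Y) : Rd A red ρ r ((a : C) • X) (red a • Y) := by
  intro g
  obtain ⟨t, h1, h2⟩ := h g
  refine ⟨a * t, ?_, ?_⟩
  · rw [smul_mul_assoc, trace_smul, ← h1, smul_eq_mul]
    rfl
  · rw [smul_mul_assoc, trace_smul, ← h2, map_mul, smul_eq_mul]

theorem rd_zero : Rd A red ρ r 0 0 := by
  intro g
  refine ⟨0, ?_, ?_⟩
  · rw [zero_mul, trace_zero]
    rfl
  · rw [zero_mul, trace_zero, map_zero]

theorem rd_conj {X : Matrix (Fin d) (Fin d) C} {Y : Matrix (Fin d) (Fin d) k}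
    (h : Rd A red ρ r X Y) (s : G) : Rd A red ρ r (ρ s * X * ρ s⁻¹) (r s * Y * r s⁻¹) := by
  intro g
  obtain ⟨t, h1, h2⟩ := h (s⁻¹ * g * s)
  refine ⟨t, ?_, ?_⟩
  · rw [h1, map_mul, map_mul, mul_assoc (ρ s * X), mul_assoc (ρ s), trace_mul_comm (ρ s),
      mul_assoc X]
  · rw [h2, map_mul, map_mul, mul_assoc (r s * Y), mul_assoc (r s), trace_mul_comm (r s),
      mul_assoc Y]

theorem rd_mul_comb {X : Matrix (Fin d) (Fin d) C} {Y : Matrix (Fin d) (Fin d) k}
    (h : Rd A red ρ r X Y) {ι : Type*} [Fintype ι] (γ : ι → G) (z : ι → A) :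
    Rd A red ρ r (X * ∑ a, (z a : C) • ρ (γ a)) (Y * ∑ a, red (z a) • r (γ a)) := by
  intro g
  choose t h1 h2 using fun a => h (γ a * g)
  refine ⟨∑ a, z a * t a, ?_, ?_⟩
  · have h3 : ((∑ a, z a * t a : A) : C) = ∑ a, (z a : C) * (t a : C) := by
      rw [← ValuationSubring.coe_subtype, map_sum]
      rfl
    rw [h3, Finset.mul_sum, Finset.sum_mul, trace_sum]
    apply Finset.sum_congr rfl
    intro a _
    rw [mul_smul_comm, smul_mul_assoc, trace_smul, h1, map_mul, mul_assoc, smul_eq_mul]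
  · rw [map_sum, Finset.mul_sum, Finset.sum_mul, trace_sum]
    apply Finset.sum_congr rfl
    intro a _
    rw [mul_smul_comm, smul_mul_assoc, trace_smul, map_mul, h2, map_mul, mul_assoc, smul_eq_mul]

/-- A matrix orthogonal to a spanning set is zero. -/
theorem eq_zero_of_trace {K : Type*} [Field K] (r : G →* Matrix (Fin d) (Fin d) K)
    (hspan : Submodule.span K (Set.range r) = ⊤) {Y : Matrix (Fin d) (Fin d) K}
    (h : ∀ g, (Y * r g).trace = 0) : Y = 0 := by
  rw [Matrix.ext_iff_trace_mul_right]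
  intro B
  rw [zero_mul, trace_zero]
  have hB : B ∈ Submodule.span K (Set.range r) := by
    rw [hspan]
    exact Submodule.mem_top
  induction hB using Submodule.span_induction with
  | mem x hx =>
    obtain ⟨g, rfl⟩ := hx
    exact h g
  | zero => rw [mul_zero, trace_zero]
  | add x y _ _ hx hy => rw [mul_add, trace_add, hx, hy, add_zero]
  | smul c x _ hx => rw [mul_smul_comm, trace_smul, hx, smul_zero]

theorem rd_eq_zero (hspan : Submodule.span k (Set.range r) = ⊤) {Y : Matrix (Fin d) (Fin d) k}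
    (h : Rd A red ρ r 0 Y) : Y = 0 := by
  apply eq_zero_of_trace r hspan
  intro g
  obtain ⟨t, h1, h2⟩ := h g
  rw [zero_mul, trace_zero] at h1
  have h3 : t = 0 := Subtype.ext h1
  rw [← h2, h3, map_zero]

/-- The operators span if the residual operators do. -/
theorem rd_span (htr : Rd A red ρ r 1 1) (γ : Fin d × Fin d → G)
    (hγ : (Matrix.of fun a b : Fin d × Fin d => (r (γ a * γ b)).trace).det ≠ 0) :
    (Matrix.of fun a b : Fin d × Fin d => (ρ (γ a * γ b)).trace).det ≠ 0 := by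
  classical
  choose t h1 h2 using htr
  set M : Matrix (Fin d × Fin d) (Fin d × Fin d) A := Matrix.of fun a b => t (γ a * γ b) with hM
  have e1 : (Matrix.of fun a b : Fin d × Fin d => (ρ (γ a * γ b)).trace) =
      A.subtype.mapMatrix M := by
    ext a b
    have := h1 (γ a * γ b)
    rw [one_mul] at this
    exact this.symm
  have e2 : (Matrix.of fun a b : Fin d × Fin d => (r (γ a * γ b)).trace) =
      red.mapMatrix M := by
    ext a b
    have := h2 (γ a * γ b)
    rw [one_mul] at this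
    exact this.symm
  rw [e1, ← RingHom.map_det]
  rw [e2, ← RingHom.map_det] at hγ
  intro h0
  have h3 : M.det = 0 := Subtype.ext h0
  rw [h3, map_zero] at hγ
  exact hγ rfl

/-- Elements with nonzero trace Gram determinant are linearly independent. -/
theorem gram_li {K : Type*} [Field K] (r : G →* Matrix (Fin d) (Fin d) K) (γ : Fin d × Fin d → G)
    (hγ : (Matrix.of fun a b : Fin d × Fin d => (r (γ a * γ b)).trace).det ≠ 0) :
    LinearIndependent K fun a => r (γ a) := by
  classical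
  rw [Fintype.linearIndependent_iff]
  intro v hv
  by_contra hne
  push Not at hne
  obtain ⟨b, hb⟩ := hne
  apply hγ
  rw [← Matrix.exists_mulVec_eq_zero_iff]
  refine ⟨v, fun h0 => hb (congrFun h0 b), ?_⟩
  funext a
  rw [Matrix.mulVec, dotProduct]
  simp only [Matrix.of_apply, Pi.zero_apply]
  have h4 : (r (γ a) * ∑ b, v b • r (γ b)).trace = 0 := by
    rw [hv, Matrix.mul_zero, Matrix.trace_zero]
  rw [Finset.mul_sum, Matrix.trace_sum] at h4
  rw [← h4]
  refine Finset.sum_congr rfl fun b _ => ?_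
  rw [Matrix.mul_smul, Matrix.trace_smul, smul_eq_mul, mul_comm, map_mul]

/-- Every nonzero matrix has a multiple with a nonzero reduction. -/
theorem rd_exists (htr : Rd A red ρ r 1 1) (γ : Fin d × Fin d → G)
    (hγ : (Matrix.of fun a b : Fin d × Fin d => (r (γ a * γ b)).trace).det ≠ 0)
    {X : Matrix (Fin d) (Fin d) C} (hX : X ≠ 0) :
    ∃ c : C, c ≠ 0 ∧ ∃ z : Fin d × Fin d → A, c • X = ∑ a, (z a : C) • ρ (γ a) ∧
      ∑ a, red (z a) • r (γ a) ≠ 0 := by
  classical
  have hli := gram_li ρ γ (rd_span htr γ hγ)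
  have hli' := gram_li r γ hγ
  have hspan : Submodule.span C (Set.range fun a => ρ (γ a)) = ⊤ := by
    apply hli.span_eq_top_of_card_eq_finrank'
    rw [Module.finrank_matrix]
    simp
  have hXs : X ∈ Submodule.span C (Set.range fun a => ρ (γ a)) := by
    rw [hspan]
    exact Submodule.mem_top
  rw [Submodule.mem_span_range_iff_exists_fun] at hXs
  obtain ⟨x, hx⟩ := hXs
  have hne : ∃ a, x a ≠ 0 := by
    by_contra hcon
    push Not at hcon
    apply hX
    rw [← hx]
    apply Finset.sum_eq_zero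
    intro a _
    rw [hcon a, zero_smul]
  obtain ⟨a₁, ha₁⟩ := hne
  obtain ⟨a₀, _, ha₀⟩ := Finset.exists_max_image Finset.univ (fun a => A.valuation (x a))
    ⟨a₁, Finset.mem_univ a₁⟩
  have hx0 : x a₀ ≠ 0 := by
    intro h0
    have h1 := ha₀ a₁ (Finset.mem_univ _)
    rw [h0, map_zero, le_zero_iff, map_eq_zero] at h1
    exact ha₁ h1
  have hmem : ∀ a, (x a₀)⁻¹ * x a ∈ A := by
    intro a
    rw [← ValuationSubring.valuation_le_one_iff, map_mul, map_inv₀]
    have h1 := ha₀ a (Finset.mem_univ _)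
    have h2 : A.valuation (x a₀) ≠ 0 := by
      rw [Ne, map_eq_zero]
      exact hx0
    calc (A.valuation (x a₀))⁻¹ * A.valuation (x a) ≤
        (A.valuation (x a₀))⁻¹ * A.valuation (x a₀) := by gcongr
      _ = 1 := inv_mul_cancel₀ h2
  refine ⟨(x a₀)⁻¹, inv_ne_zero hx0, fun a => ⟨(x a₀)⁻¹ * x a, hmem a⟩, ?_, ?_⟩
  · rw [← hx, Finset.smul_sum]
    apply Finset.sum_congr rfl
    intro a _
    rw [smul_smul]
  · intro h0
    have h1 := (Fintype.linearIndependent_iff.mp hli') _ h0 a₀
    have h2 : (⟨(x a₀)⁻¹ * x a₀, hmem a₀⟩ : A) = 1 := by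
      apply Subtype.ext
      change (x a₀)⁻¹ * x a₀ = 1
      exact inv_mul_cancel₀ hx0
    simp only [h2, map_one] at h1
    exact one_ne_zero h1

/-- A matrix with a nonsingular reduction is nonsingular. -/
theorem det_ne_zero_of_rd (htr : Rd A red ρ r 1 1) (hspan : Submodule.span k (Set.range r) = ⊤)
    {X : Matrix (Fin d) (Fin d) C} {Y : Matrix (Fin d) (Fin d) k} (h : Rd A red ρ r X Y)
    (hY : Y.det ≠ 0) : X.det ≠ 0 := by
  classical
  obtain ⟨γ, hγ⟩ := Heart.gram_of_span r hspan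
  intro hX
  obtain ⟨v, hv, hXv⟩ := Matrix.exists_mulVec_eq_zero_iff.mpr hX
  set Z : Matrix (Fin d) (Fin d) C := Matrix.of fun i _ => v i with hZ
  have hZ0 : Z ≠ 0 := by
    intro h0
    apply hv
    funext i
    have h1 := congrFun (congrFun h0 i) i
    exact h1
  have hXZ : X * Z = 0 := by
    ext i j
    rw [Matrix.mul_apply, Matrix.zero_apply]
    exact congrFun hXv i
  obtain ⟨c, hc, z, h1, h2⟩ := rd_exists htr γ hγ hZ0
  have h3 := rd_mul_comb h γ z
  rw [← h1, mul_smul_comm, hXZ, smul_zero] at h3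
  have h4 := rd_eq_zero hspan h3
  apply h2
  have hu : IsUnit Y.det := isUnit_iff_ne_zero.mpr hY
  calc ∑ a, red (z a) • r (γ a) = Y⁻¹ * (Y * ∑ a, red (z a) • r (γ a)) := by
        rw [← mul_assoc, Matrix.nonsing_inv_mul _ hu, one_mul]
    _ = 0 := by rw [h4, mul_zero]

/-- **The residual criterion.** -/
theorem exists_nonsing (htr : Rd A red ρ r 1 1) (hspan : Submodule.span k (Set.range r) = ⊤)
    (hinf : (Set.range red).Infinite)
    (hinv : ∀ W : Submodule k (Matrix (Fin d) (Fin d) k), W ≠ ⊥ →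
      (∀ g, ∀ Y ∈ W, r g * Y * r g⁻¹ ∈ W) → (∀ Y ∈ W, Y.trace = 0) → ∃ Y ∈ W, Y.det ≠ 0)
    (S : Submodule C (Matrix (Fin d) (Fin d) C)) (hne : S ≠ ⊥)
    (hS : ∀ g, ∀ X ∈ S, ρ g * X * ρ g⁻¹ ∈ S) (hS0 : ∀ X ∈ S, X.trace = 0) :
    ∃ X ∈ S, X.det ≠ 0 := by
  classical
  by_contra hcon
  push Not at hcon
  let W₀ : AddSubmonoid (Matrix (Fin d) (Fin d) k) :=
    { carrier := {Y | ∃ X ∈ S, Rd A red ρ r X Y}
      zero_mem' := ⟨0, S.zero_mem, rd_zero⟩
      add_mem' := by
        rintro Y Y' ⟨X, hX, h⟩ ⟨X', hX', h'⟩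
        exact ⟨X + X', S.add_mem hX hX', rd_add h h'⟩ }
  have hW₀ : ∀ Y, Y ∈ W₀ ↔ ∃ X ∈ S, Rd A red ρ r X Y := fun Y => Iff.rfl
  have hdet : ∀ Y ∈ W₀, Y.det = 0 := by
    rintro Y ⟨X, hX, h⟩
    by_contra hY
    exact det_ne_zero_of_rd htr hspan h hY (hcon X hX)
  have hdet' := det_span W₀ (Set.range red) hinf (by
    rintro _ ⟨a, rfl⟩ Y ⟨X, hX, h⟩
    exact ⟨(a : C) • X, S.smul_mem _ hX, rd_smul a h⟩) hdet
  obtain ⟨Y, hY, hY0⟩ := hinv (Submodule.span k (W₀ : Set (Matrix (Fin d) (Fin d) k))) (by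
    obtain ⟨X, hX, hX0⟩ := (Submodule.ne_bot_iff S).mp hne
    obtain ⟨γ, hγ⟩ := Heart.gram_of_span r hspan
    obtain ⟨c, hc, z, h1, h2⟩ := rd_exists htr γ hγ hX0
    rw [Submodule.ne_bot_iff]
    refine ⟨_, Submodule.subset_span ?_, h2⟩
    have h3 := rd_mul_comb htr γ z
    rw [one_mul, one_mul, ← h1] at h3
    exact ⟨c • X, S.smul_mem _ hX, h3⟩) (by
    intro g Y hY
    induction hY using Submodule.span_induction with
    | mem Y hY =>
      obtain ⟨X, hX, h⟩ := hY
      exact Submodule.subset_span ⟨_, hS g X hX, rd_conj h g⟩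
    | zero => rw [mul_zero, zero_mul]; exact Submodule.zero_mem _
    | add x y _ _ hx hy => rw [mul_add, add_mul]; exact Submodule.add_mem _ hx hy
    | smul c x _ hx =>
      rw [mul_smul_comm, smul_mul_assoc]
      exact Submodule.smul_mem _ _ hx) (by
    intro Y hY
    induction hY using Submodule.span_induction with
    | mem Y hY =>
      obtain ⟨X, hX, h⟩ := hY
      obtain ⟨t, h1, h2⟩ := h 1
      rw [map_one, mul_one, hS0 X hX] at h1
      rw [map_one, mul_one] at h2
      have h3 : t = 0 := Subtype.ext h1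
      rw [← h2, h3, map_zero]
    | zero => exact trace_zero _ _
    | add x y _ _ hx hy => rw [trace_add, hx, hy, add_zero]
    | smul c x _ hx => rw [trace_smul, hx, smul_zero])
  exact hY0 (hdet' Y hY)

end Rd

end Pool.Agent.RF
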