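import Mathlib

/-!
# Spaces of matrices stable under conjugation by the symplectic group
-/

set_option autoImplicit false
set_option linter.unusedSectionVars false
set_option linter.unusedSimpArgs false

namespace Pool.Agent.RF

open Matrix

section

variable {F : Type*} [Field F] (k : Type*) [Field k] [Algebra F k] {n : Type*} [Fintype n]
  [DecidableEq n] (J : Matrix n n F)

/-- The bilinear form. -/
def om (x y : n → F) : F := (x ᵥ* J) ⬝ᵥ y

/-- The vector over `k`. -/
def hat (x : n → F) : n → k := fun i => algebraMap F k (x i)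

/-- The matrix `v ↦ om y v • x` over `k`. -/
def Nk (x y : n → F) : Matrix n n k := vecMulVec (hat k x) (hat k (y ᵥ* J))

theorem hat_add (x y : n → F) : hat k (x + y) = hat k x + hat k y := by
  funext i
  simp [hat]

theorem hat_smul (c : F) (x : n → F) : hat k (c • x) = algebraMap F k c • hat k x := by
  funext i
  simp [hat]

theorem hat_dot (x y : n → F) : hat k x ⬝ᵥ hat k y = algebraMap F k (x ⬝ᵥ y) := by
  simp [hat, dotProduct]

theorem Nk_add_left (x x' y : n → F) : Nk k J (x + x') y = Nk k J x y + Nk k J x' y := by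
  unfold Nk
  rw [hat_add, add_vecMulVec]

theorem Nk_add_right (x y y' : n → F) : Nk k J x (y + y') = Nk k J x y + Nk k J x y' := by
  unfold Nk
  rw [Matrix.add_vecMul, hat_add, vecMulVec_add]

theorem Nk_smul_left (c : F) (x y : n → F) :
    Nk k J (c • x) y = algebraMap F k c • Nk k J x y := by
  unfold Nk
  rw [hat_smul, smul_vecMulVec]

theorem Nk_smul_right (c : F) (x y : n → F) :
    Nk k J x (c • y) = algebraMap F k c • Nk k J x y := by
  unfold Nk
  rw [Matrix.smul_vecMul, hat_smul, vecMulVec_smul]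

theorem Nk_mul (x y z w : n → F) :
    Nk k J x y * Nk k J z w = algebraMap F k (om J y z) • Nk k J x w := by
  unfold Nk om
  rw [vecMulVec_mul_vecMulVec, hat_dot, vecMulVec_smul]

theorem Nk_mul_mul (x y z w : n → F) (X : Matrix n n k) :
    Nk k J x y * X * Nk k J z w = (hat k (y ᵥ* J) ⬝ᵥ X *ᵥ hat k z) • Nk k J x w := by
  unfold Nk
  rw [vecMulVec_mul, vecMulVec_mul_vecMulVec, vecMulVec_smul, Matrix.dotProduct_mulVec]

theorem om_add_left (x x' y : n → F) : om J (x + x') y = om J x y + om J x' y := by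
  unfold om
  rw [Matrix.add_vecMul, add_dotProduct]

theorem om_add_right (x y y' : n → F) : om J x (y + y') = om J x y + om J x y' := by
  unfold om
  rw [dotProduct_add]

theorem om_smul_left (c : F) (x y : n → F) : om J (c • x) y = c * om J x y := by
  unfold om
  rw [Matrix.smul_vecMul, smul_dotProduct, smul_eq_mul]

theorem om_smul_right (c : F) (x y : n → F) : om J x (c • y) = c * om J x y := by
  unfold om
  rw [dotProduct_smul, smul_eq_mul]

variable {J}

theorem om_skew (hJ : ∀ x, om J x x = 0) (x y : n → F) : om J x y = -om J y x := by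
  have h1 := hJ (x + y)
  rw [om_add_left, om_add_right, om_add_right, hJ, hJ, zero_add, add_zero] at h1
  exact eq_neg_of_add_eq_zero_left h1

theorem exists_om_ne (hdet : IsUnit J.det) {x : n → F} (hx : x ≠ 0) : ∃ y, om J x y ≠ 0 := by
  by_contra hcon
  push Not at hcon
  apply hx
  have h1 : x ᵥ* J = 0 := by
    funext i
    have := hcon (Pi.single i 1)
    unfold om at this
    rw [dotProduct_single, mul_one] at this
    exact this
  have h2 : x ᵥ* J ᵥ* J⁻¹ = x := by
    rw [Matrix.vecMul_vecMul, Matrix.mul_nonsing_inv _ hdet, Matrix.vecMul_one]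
  rw [← h2, h1, Matrix.zero_vecMul]

/-- A set of vectors stable under all transvections that contains a nonzero vector contains all
nonzero vectors. -/
theorem transitive (hJ : ∀ x, om J x x = 0) (hdet : IsUnit J.det) (S : Set (n → F))
    (hS : ∀ (c : F) (x : n → F), ∀ v ∈ S, v + (c * om J x v) • x ∈ S) {v : n → F} (hv : v ∈ S)
    (hv0 : v ≠ 0) : ∀ u, u ≠ 0 → u ∈ S := by
  have step : ∀ v ∈ S, ∀ u, om J u v ≠ 0 → u ∈ S := by
    intro v hv u hu
    have h1 := hS (om J u v)⁻¹ (u - v) v hv
    have h2 : om J (u - v) v = om J u v := by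
      rw [sub_eq_add_neg, om_add_left, ← neg_one_smul F v, om_smul_left, hJ, mul_zero, add_zero]
    rw [h2, inv_mul_cancel₀ hu, one_smul, add_sub_cancel] at h1
    exact h1
  intro u hu
  obtain ⟨x₁, hx₁⟩ := exists_om_ne hdet hv0
  obtain ⟨x₂, hx₂⟩ := exists_om_ne hdet hu
  obtain ⟨x, hxv, hxu⟩ : ∃ x, om J x v ≠ 0 ∧ om J u x ≠ 0 := by
    have e1 : om J x₁ v ≠ 0 := by
      rw [om_skew hJ, neg_ne_zero]
      exact hx₁
    by_cases h1 : om J u x₁ = 0
    · by_cases h2 : om J x₂ v = 0
      · refine ⟨x₁ + x₂, ?_, ?_⟩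
        · rw [om_add_left, h2, add_zero]
          exact e1
        · rw [om_add_right, h1, zero_add]
          exact hx₂
      · exact ⟨x₂, h2, hx₂⟩
    · exact ⟨x₁, e1, h1⟩
  exact step x (step v hv x hxv) u hxu

/-- Conjugation of rank one matrices by transvections. -/
theorem conj_Nk (hJ : ∀ x, om J x x = 0) (c : F) (x v w : n → F) :
    (1 + algebraMap F k c • Nk k J x x) * Nk k J v w * (1 - algebraMap F k c • Nk k J x x) =
      Nk k J (v + (c * om J x v) • x) (w + (c * om J x w) • x) := by
  have h1 : (1 + algebraMap F k c • Nk k J x x) * Nk k J v w =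
      Nk k J (v + (c * om J x v) • x) w := by
    rw [add_mul, one_mul, smul_mul_assoc, Nk_mul, smul_smul, Nk_add_left, Nk_smul_left, map_mul]
  rw [h1, mul_sub, mul_one, mul_smul_comm, Nk_mul, smul_smul, Nk_add_right, Nk_smul_right,
    sub_eq_add_neg, ← neg_smul, om_skew hJ w x]
  congr 2
  simp

variable {k}
variable (W : Submodule k (Matrix n n k))

theorem mem_NN (hJ : ∀ x, om J x x = 0)
    (hW : ∀ (c : F) (x : n → F), ∀ Y ∈ W,
      (1 + algebraMap F k c • Nk k J x x) * Y * (1 - algebraMap F k c • Nk k J x x) ∈ W)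
    {X : Matrix n n k} (hX : X ∈ W) {v w : n → F} (hvw : om J v w = 0) :
    (hat k (w ᵥ* J) ⬝ᵥ X *ᵥ hat k v) • Nk k J w v + (hat k (v ᵥ* J) ⬝ᵥ X *ᵥ hat k w) • Nk k J v w
      ∈ W := by
  rw [← Nk_mul_mul, ← Nk_mul_mul]
  set a := Nk k J v v with ha
  set b := Nk k J w w with hb
  have haa : a * a = 0 := by rw [ha, Nk_mul, hJ, map_zero, zero_smul]
  have hab : a * b = 0 := by rw [ha, hb, Nk_mul, hvw, map_zero, zero_smul]
  have hba : b * a = 0 := by rw [ha, hb, Nk_mul, om_skew hJ, hvw, neg_zero, map_zero, zero_smul]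
  have h1 := W.sub_mem (hW 1 v X hX) hX
  rw [map_one, one_smul, ← ha] at h1
  have h2 := W.sub_mem (hW 1 w _ h1) h1
  rw [map_one, one_smul, ← hb] at h2
  have h3 : (1 + b) * ((1 + a) * X * (1 - a) - X) * (1 - b) - ((1 + a) * X * (1 - a) - X) =
      -(b * X * a + a * X * b) := by
    have e1 : ((1 + a) * X * (1 - a) - X) = a * X - X * a - a * X * a := by noncomm_ring
    rw [e1]
    have e2 : (1 + b) * (a * X - X * a - a * X * a) * (1 - b) - (a * X - X * a - a * X * a) =
        (b * a) * X - b * X * a - (b * a) * X * a - a * X * b + X * (a * b) + a * X * (a * b)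
        - (b * a) * X * b + b * X * (a * b) + (b * a) * X * (a * b) := by noncomm_ring
    rw [e2, hab, hba]
    simp only [zero_mul, mul_zero]
    abel
  rw [h3] at h2
  have h4 := W.neg_mem h2
  rwa [neg_neg] at h4

/-- If `n_v` belongs to `W` for one nonzero `v`, then `J` belongs to `W`. -/
theorem mem_J (hJ : ∀ x, om J x x = 0) (hdet : IsUnit J.det)
    (hW : ∀ (c : F) (x : n → F), ∀ Y ∈ W,
      (1 + algebraMap F k c • Nk k J x x) * Y * (1 - algebraMap F k c • Nk k J x x) ∈ W)
    {v : n → F} (hv0 : v ≠ 0) (hv : Nk k J v v ∈ W) : J.map (algebraMap F k) ∈ W := by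
  have h1 := transitive hJ hdet {u | Nk k J u u ∈ W} (by
    intro c x u hu
    rw [Set.mem_ofPred_eq] at hu ⊢
    rw [← conj_Nk k hJ]
    exact hW c x _ hu) (show v ∈ {u | Nk k J u u ∈ W} from hv) hv0
  have h2 : J.map (algebraMap F k) = ∑ i, Nk k J (Pi.single i 1) (Pi.single i 1) := by
    ext a b
    rw [Matrix.sum_apply, Finset.sum_eq_single a]
    · simp [Nk, vecMulVec_apply, hat]
    · intro c _ hc
      simp [Nk, vecMulVec_apply, hat, Pi.single_apply, hc.symm]
    · intro h
      exact absurd (Finset.mem_univ a) h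
  rw [h2]
  apply W.sum_mem
  intro i _
  apply h1
  intro h0
  have := congrFun h0 i
  rw [Pi.single_eq_same, Pi.zero_apply] at this
  exact one_ne_zero this

/-- The alternating case. -/
theorem mem_wedge (hJ : ∀ x, om J x x = 0) (hdet : IsUnit J.det)
    (hW : ∀ (c : F) (x : n → F), ∀ Y ∈ W,
      (1 + algebraMap F k c • Nk k J x x) * Y * (1 - algebraMap F k c • Nk k J x x) ∈ W)
    {v : n → F} (hv0 : v ≠ 0) (hv : ∀ u, om J v u = 0 → Nk k J v u - Nk k J u v ∈ W) :
    ∀ v u, om J v u = 0 → Nk k J v u - Nk k J u v ∈ W := by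
  have h1 := transitive hJ hdet {v | ∀ u, om J v u = 0 → Nk k J v u - Nk k J u v ∈ W} (by
    intro c x v hv u hu
    -- the inverse transvection
    set u' := u - (c * om J x u) • x with hu'
    have e1 : om J x u' = om J x u := by
      rw [hu', sub_eq_add_neg, ← neg_smul, om_add_right, om_smul_right, hJ, mul_zero, add_zero]
    have e2 : u' + (c * om J x u') • x = u := by
      rw [e1, hu', sub_add_cancel]
    have e3 : om J v u' = 0 := by
      rw [hu', sub_eq_add_neg, ← neg_smul, om_add_right, om_smul_right, om_skew hJ v x]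
      rw [om_add_left, om_smul_left] at hu
      linear_combination hu
    have h2 := hW c x _ (hv u' e3)
    have e4 : ∀ A B T T' : Matrix n n k, T * (A - B) * T' = T * A * T' - T * B * T' := by
      intro A B T T'
      rw [mul_sub, sub_mul]
    rw [e4, conj_Nk k hJ, conj_Nk k hJ, e2] at h2
    exact h2) (show v ∈ {v | ∀ u, om J v u = 0 → Nk k J v u - Nk k J u v ∈ W} from hv) hv0
  intro v u hvu
  by_cases h0 : v = 0
  · subst h0
    have e1 : Nk k J (0 : n → F) u - Nk k J u 0 = 0 := by
      have h3 := Nk_smul_left k J (0 : F) u u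
      have h4 := Nk_smul_right k J (0 : F) u u
      rw [zero_smul, map_zero, zero_smul] at h3 h4
      rw [h3, h4, sub_zero]
    rw [e1]
    exact W.zero_mem
  · exact h1 v h0 u hvu

/-- A matrix all of whose left eigenvectors ... is scalar. -/
theorem scalar_of_left (X : Matrix n n k)
    (h : ∀ u : n → F, ∃ l : k, hat k u ᵥ* X = l • hat k u) : ∃ l : k, X = l • 1 := by
  rcases isEmpty_or_nonempty n with hn | hn
  · exact ⟨0, by ext i; exact isEmptyElim i⟩
  have hs : ∀ i, hat k (Pi.single i (1 : F) : n → F) = Pi.single i (1 : k) := by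
    intro i
    funext j
    by_cases hij : j = i
    · subst hij
      simp [hat]
    · simp [hat, hij]
  have h1 : ∀ i, ∃ l : k, ∀ j, X i j = if i = j then l else 0 := by
    intro i
    obtain ⟨l, hl⟩ := h (Pi.single i 1)
    refine ⟨l, fun j => ?_⟩
    have h2 := congrFun hl j
    rw [hs, Matrix.single_one_vecMul, Pi.smul_apply, Pi.single_apply, smul_eq_mul] at h2
    rw [Matrix.row_apply] at h2
    rw [h2]
    by_cases hij : i = j
    · subst hij; simp
    · rw [if_neg hij, if_neg (fun h => hij h.symm), mul_zero]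
  choose l hl using h1
  obtain ⟨i₀⟩ := hn
  have h2 : ∀ i, l i = l i₀ := by
    intro i
    by_cases hi : i = i₀
    · rw [hi]
    obtain ⟨m, hm⟩ := h ((Pi.single i 1 : n → F) + Pi.single i₀ 1)
    rw [hat_add, hs, hs, Matrix.add_vecMul, Matrix.single_one_vecMul,
      Matrix.single_one_vecMul] at hm
    have h3 := congrFun hm i
    have h4 := congrFun hm i₀
    simp only [Pi.add_apply, Matrix.row_apply, Pi.smul_apply, smul_eq_mul, hl, if_true,
      Pi.single_eq_same, Pi.single_apply, if_neg hi, if_neg (Ne.symm hi), add_zero, zero_add,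
      mul_one] at h3 h4
    rw [h3, h4]
  refine ⟨l i₀, ?_⟩
  ext i j
  rw [hl, Matrix.smul_apply, Matrix.one_apply, h2]
  by_cases hij : i = j
  · rw [if_pos hij, if_pos hij, smul_eq_mul, mul_one]
  · rw [if_neg hij, if_neg hij, smul_zero]

/-- There is a vector orthogonal to `v` and not to `w`. -/
theorem exists_sep (hJ : ∀ x, om J x x = 0) (hdet : IsUnit J.det) {v w : n → F} (hv : v ≠ 0)
    (hvw : ∀ c : F, w ≠ c • v) : ∃ u, om J v u = 0 ∧ om J w u ≠ 0 := by
  by_contra hcon
  push Not at hcon
  obtain ⟨y, hy⟩ := exists_om_ne hdet hv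
  apply hvw (om J w y * (om J v y)⁻¹)
  by_contra hne
  have hne' : w - (om J w y * (om J v y)⁻¹) • v ≠ 0 := sub_ne_zero.mpr hne
  obtain ⟨z, hz⟩ := exists_om_ne hdet hne'
  apply hz
  have h1 := hcon (z - (om J v z * (om J v y)⁻¹) • y) (by
    rw [sub_eq_add_neg, ← neg_smul, om_add_right, om_smul_right]
    field_simp
    ring)
  rw [sub_eq_add_neg, ← neg_smul, om_add_right, om_smul_right] at h1
  rw [sub_eq_add_neg, ← neg_smul, om_add_left, om_smul_left]
  linear_combination h1

/-- The second vector can be moved. -/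
theorem mem_move (hJ : ∀ x, om J x x = 0) (hdet : IsUnit J.det)
    (hW : ∀ (c : F) (x : n → F), ∀ Y ∈ W,
      (1 + algebraMap F k c • Nk k J x x) * Y * (1 - algebraMap F k c • Nk k J x x) ∈ W)
    {v w : n → F} (hv : v ≠ 0) (hind : ∀ c : F, w ≠ c • v) (hvw : om J v w = 0) {α β : k}
    (hm : α • Nk k J v w + β • Nk k J w v ∈ W) (u : n → F) (hu : om J v u = 0) :
    α • Nk k J v u + β • Nk k J u v ∈ W := by
  have h1 : ∀ u, om J v u = 0 → om J w u ≠ 0 → α • Nk k J v u + β • Nk k J u v ∈ W := by
    intro u hu hwu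
    have h2 := hW 1 u _ hm
    have e4 : ∀ A B T T' : Matrix n n k, T * (α • A + β • B) * T' =
        α • (T * A * T') + β • (T * B * T') := by
      intro A B T T'
      rw [mul_add, add_mul, mul_smul_comm, mul_smul_comm, smul_mul_assoc, smul_mul_assoc]
    rw [e4, conj_Nk k hJ, conj_Nk k hJ, one_mul, one_mul, om_skew hJ u v, hu, neg_zero, zero_smul,
      add_zero, Nk_add_left, Nk_add_right, Nk_smul_left, Nk_smul_right] at h2
    have h3 := W.sub_mem h2 hm
    have h4 : α • (Nk k J v w + algebraMap F k (om J u w) • Nk k J v u) +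
        β • (Nk k J w v + algebraMap F k (om J u w) • Nk k J u v) -
        (α • Nk k J v w + β • Nk k J w v) =
        algebraMap F k (om J u w) • (α • Nk k J v u + β • Nk k J u v) := by
      module
    rw [h4] at h3
    have h5 : algebraMap F k (om J u w) ≠ 0 := by
      rw [om_skew hJ, map_neg, neg_ne_zero]
      exact (map_ne_zero _).mpr hwu
    have h6 := W.smul_mem (algebraMap F k (om J u w))⁻¹ h3
    rwa [smul_smul, inv_mul_cancel₀ h5, one_smul] at h6
  by_cases h0 : om J w u = 0
  · obtain ⟨u₀, h01, h02⟩ := exists_sep hJ hdet hv hind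
    have h2 := h1 (u + u₀) (by rw [om_add_right, hu, h01, add_zero])
      (by rw [om_add_right, h0, zero_add]; exact h02)
    have h3 := h1 u₀ h01 h02
    have h4 := W.sub_mem h2 h3
    rw [Nk_add_right, Nk_add_left] at h4
    have h5 : α • (Nk k J v u + Nk k J v u₀) + β • (Nk k J u v + Nk k J u₀ v) -
        (α • Nk k J v u₀ + β • Nk k J u₀ v) = α • Nk k J v u + β • Nk k J u v := by
      module
    rwa [h5] at h4
  · exact h1 u hu h0

/-- If the form `om v (X w)` vanishes on all orthogonal independent pairs, then `X` is scalar. -/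
theorem scalar_of_form (hJ : ∀ x, om J x x = 0) (hdet : IsUnit J.det) (hn : 3 ≤ Fintype.card n)
    (X : Matrix n n k) (hX : ∀ v w : n → F, v ≠ 0 → (∀ c : F, w ≠ c • v) → om J v w = 0 →
      hat k (v ᵥ* J) ⬝ᵥ X *ᵥ hat k w = 0) : ∃ l : k, X = l • 1 := by
  have key : ∀ v w : n → F, om J v w = 0 → hat k (v ᵥ* J) ⬝ᵥ X *ᵥ hat k w = 0 := by
    intro v w hvw
    by_cases hv : v = 0
    · subst hv
      rw [Matrix.zero_vecMul]
      have : hat k (0 : n → F) = 0 := by
        funext i
        simp [hat]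
      rw [this, zero_dotProduct]
    by_cases hind : ∀ c : F, w ≠ c • v
    · exact hX v w hv hind hvw
    push Not at hind
    obtain ⟨c, hc⟩ := hind
    -- a vector orthogonal to `v` outside of the line of `v`
    obtain ⟨w', h1, h2⟩ : ∃ w' : n → F, om J v w' = 0 ∧ ∀ c : F, w' ≠ c • v := by
      by_contra hcon
      push Not at hcon
      let f : (n → F) →ₗ[F] F :=
        { toFun := fun y => om J v y
          map_add' := fun a b => om_add_right J v a b
          map_smul' := fun c a => by rw [om_smul_right, smul_eq_mul, RingHom.id_apply] }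
      have h1 : LinearMap.ker f ≤ Submodule.span F {v} := by
        intro y hy
        obtain ⟨c, hc⟩ := hcon y hy
        rw [hc]
        exact Submodule.smul_mem _ _ (Submodule.mem_span_singleton_self v)
      have h2 := Submodule.finrank_mono h1
      have h3 := finrank_span_singleton (K := F) hv
      have h4 := LinearMap.finrank_range_add_finrank_ker f
      have h5 : Module.finrank F (LinearMap.range f) ≤ 1 := by
        have := Submodule.finrank_le (LinearMap.range f)
        rwa [Module.finrank_self] at this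
      rw [Module.finrank_fintype_fun_eq_card] at h4
      omega
    have h3 := hX v w' hv h2 h1
    have h4 := hX v (w' + w) hv (by
      intro c' hc'
      apply h2 (c' - c)
      rw [sub_smul, ← hc', hc]
      abel) (by rw [om_add_right, h1, hvw, add_zero])
    rw [hat_add, Matrix.mulVec_add, dotProduct_add, h3, zero_add] at h4
    exact h4
  apply scalar_of_left (F := F)
  intro u
  by_cases hu : u = 0
  · refine ⟨0, ?_⟩
    have : hat k (0 : n → F) = 0 := by
      funext i
      simp [hat]
    rw [hu, this, Matrix.zero_vecMul, smul_zero]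
  set v := u ᵥ* J⁻¹ with hv
  have huv : v ᵥ* J = u := by
    rw [hv, Matrix.vecMul_vecMul, Matrix.nonsing_inv_mul _ hdet, Matrix.vecMul_one]
  have hv0 : v ≠ 0 := by
    intro h0
    rw [h0, Matrix.zero_vecMul] at huv
    exact hu huv.symm
  obtain ⟨y, hy⟩ := exists_om_ne hdet hv0
  have h1 : ∀ z : n → F, hat k u ⬝ᵥ X *ᵥ hat k z =
      algebraMap F k (om J v z * (om J v y)⁻¹) * (hat k u ⬝ᵥ X *ᵥ hat k y) := by
    intro z
    have h2 := key v (z + (-(om J v z * (om J v y)⁻¹)) • y) (by
      rw [om_add_right, om_smul_right]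
      field_simp
      ring)
    rw [huv, hat_add, hat_smul, Matrix.mulVec_add, dotProduct_add, Matrix.mulVec_smul,
      dotProduct_smul, map_neg, neg_smul, ← sub_eq_add_neg, smul_eq_mul] at h2
    exact sub_eq_zero.mp h2
  refine ⟨algebraMap F k (om J v y)⁻¹ * (hat k u ⬝ᵥ X *ᵥ hat k y), ?_⟩
  funext i
  have h2 := h1 (Pi.single i 1)
  have h3 : hat k (Pi.single i (1 : F) : n → F) = Pi.single i (1 : k) := by
    funext j
    by_cases hij : j = i
    · subst hij
      simp [hat]
    · simp [hat, hij]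
  have h4 : om J v (Pi.single i 1) = u i := by
    unfold om
    rw [huv, dotProduct_single, mul_one]
  rw [h3, h4, Matrix.dotProduct_mulVec, dotProduct_single, mul_one] at h2
  rw [h2, Pi.smul_apply, smul_eq_mul, map_mul]
  unfold hat
  ring

end

section

variable {F : Type*} [Field F] {k : Type*} [Field k] [Algebra F k] {g : ℕ}

/-- The standard form. -/
theorem om_J_self (x : Fin g ⊕ Fin g → F) : om (Matrix.J (Fin g) F) x x = 0 := by
  unfold om Matrix.J
  have h1 : x = Sum.elim (x ∘ Sum.inl) (x ∘ Sum.inr) := by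
    funext i
    rcases i with i | i <;> rfl
  rw [h1, Matrix.vecMul_fromBlocks]
  simp only [Matrix.vecMul_zero, Matrix.vecMul_neg, Matrix.vecMul_one, Sum.elim_comp_inl,
    Sum.elim_comp_inr, add_zero, zero_add]
  rw [sumElim_dotProduct_sumElim]
  rw [neg_dotProduct, dotProduct_comm (x ∘ Sum.inl) (x ∘ Sum.inr)]
  ring

theorem J_det_unit : IsUnit (Matrix.J (Fin g) F).det := Matrix.isUnit_det_J (Fin g) F

/-- The transvections are symplectic. -/
theorem transvection_mem (c : F) (x : Fin g ⊕ Fin g → F) :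
    1 + c • Nk F (Matrix.J (Fin g) F) x x ∈ Matrix.symplecticGroup (Fin g) F := by
  rw [SymplecticGroup.mem_iff]
  set J := Matrix.J (Fin g) F with hJ
  have hx : hat F x = x := by
    funext i
    simp [hat]
  have hy : hat F (x ᵥ* J) = x ᵥ* J := by
    funext i
    simp [hat]
  have hN : Nk F J x x = vecMulVec x (x ᵥ* J) := by
    unfold Nk
    rw [hx, hy]
  have hT : (1 + c • Nk F J x x)ᵀ = 1 + c • vecMulVec (x ᵥ* J) x := by
    rw [hN, Matrix.transpose_add, Matrix.transpose_one, Matrix.transpose_smul,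
      Matrix.transpose_vecMulVec]
  have h1 : x ᵥ* J ᵥ* J = -x := by
    rw [Matrix.vecMul_vecMul, hJ, Matrix.J_squared, Matrix.vecMul_neg, Matrix.vecMul_one]
  have h2 : J *ᵥ (x ᵥ* J) = x := by
    rw [← Matrix.vecMul_transpose, hJ, Matrix.J_transpose, Matrix.vecMul_neg, ← hJ, h1, neg_neg]
  have h3 : x ⬝ᵥ (x ᵥ* J) = 0 := by
    rw [dotProduct_comm]
    exact om_J_self x
  have h4 : (J + c • vecMulVec x (-x)) *ᵥ (x ᵥ* J) = x := by
    rw [Matrix.add_mulVec, h2, Matrix.smul_mulVec, Matrix.vecMulVec_mulVec, neg_dotProduct, h3]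
    simp
  rw [hT, hN, add_mul, one_mul, mul_add, mul_one, smul_mul_assoc, Matrix.vecMulVec_mul, h1,
    mul_smul_comm, Matrix.mul_vecMulVec, h4, Matrix.vecMulVec_neg, add_assoc, smul_neg,
    neg_add_cancel, add_zero]

/-- The alternating element that is invertible. -/
theorem exists_wedge (hg : 2 ≤ g) (W : Submodule k (Matrix (Fin g ⊕ Fin g) (Fin g ⊕ Fin g) k))
    (hW : ∀ v u, om (Matrix.J (Fin g) F) v u = 0 →
      Nk k (Matrix.J (Fin g) F) v u - Nk k (Matrix.J (Fin g) F) u v ∈ W) :
    ∃ Y ∈ W, IsUnit Y := by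
  classical
  set J := Matrix.J (Fin g) F with hJ
  let σ : Equiv.Perm (Fin g) := finRotate g
  have hσ : ∀ i, σ i ≠ i := by
    obtain ⟨m, rfl⟩ : ∃ m, g = m + 2 := ⟨g - 2, by omega⟩
    intro i hi
    have h1 : finRotate (m + 2) i = i := hi
    have h0 : finRotate (m + 2) i = i + 1 := by simp
    rw [h0] at h1
    have h2 : (1 : Fin (m + 2)) = 0 := by
      have := congrArg (fun z => z - i) h1
      simpa using this
    exact one_ne_zero h2
  let P : Matrix (Fin g) (Fin g) k := Matrix.of fun i j => if σ i = j then 1 else 0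
  have hP1 : P * Pᵀ = 1 := by
    ext i j
    rw [Matrix.mul_apply, Finset.sum_eq_single (σ i)]
    · simp [P, Matrix.one_apply, eq_comm]
    · intro b _ hb
      simp [P, hb.symm]
    · intro h
      exact absurd (Finset.mem_univ _) h
  have hP2 : Pᵀ * P = 1 := (mul_eq_one_comm).mp hP1
  let A : Matrix (Fin g ⊕ Fin g) (Fin g ⊕ Fin g) k := Matrix.fromBlocks 0 P (-Pᵀ) 0
  have hA : A * Matrix.fromBlocks 0 (-P) Pᵀ 0 = 1 := by
    simp only [A]
    rw [Matrix.fromBlocks_multiply]
    simp [hP1, hP2]
  have hJk : J.map (algebraMap F k) = Matrix.J (Fin g) k := Matrix.map_J _ _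
  have hJu : IsUnit (Matrix.J (Fin g) k) := by
    rw [Matrix.isUnit_iff_isUnit_det]
    exact Matrix.isUnit_det_J (Fin g) k
  have hAu : IsUnit A := IsUnit.of_mul_eq_one _ hA
  refine ⟨A * Matrix.J (Fin g) k, ?_, hAu.mul hJu⟩
  have hNk : ∀ x y : Fin g ⊕ Fin g → F, Nk k J x y =
      vecMulVec (hat k x) (hat k y) * Matrix.J (Fin g) k := by
    intro x y
    unfold Nk
    rw [Matrix.vecMulVec_mul, ← hJk]
    congr 1
    funext i
    simp [hat, Matrix.vecMul, dotProduct]
  have hsum : A = ∑ i : Fin g, (vecMulVec (hat k (Pi.single (Sum.inl i) (1 : F)))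
      (hat k (Pi.single (Sum.inr (σ i)) (1 : F))) -
      vecMulVec (hat k (Pi.single (Sum.inr (σ i)) (1 : F)))
      (hat k (Pi.single (Sum.inl i) (1 : F)))) := by
    have hs : ∀ a : Fin g ⊕ Fin g, hat k (Pi.single a (1 : F) : Fin g ⊕ Fin g → F) =
        Pi.single a (1 : k) := by
      intro a
      funext b
      by_cases hab : b = a
      · subst hab
        simp [hat]
      · simp [hat, hab]
    simp only [hs]
    ext a b
    rw [Matrix.sum_apply]
    simp only [Matrix.sub_apply, Matrix.vecMulVec_apply, A]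
    rcases a with a | a <;> rcases b with b | b
    · simp
    · rw [Matrix.fromBlocks_apply₁₂, Finset.sum_eq_single a]
      · simp [P, Pi.single_apply, eq_comm]
      · intro c _ hc
        simp [hc.symm]
      · intro h
        exact absurd (Finset.mem_univ _) h
    · rw [Matrix.fromBlocks_apply₂₁, Finset.sum_eq_single b]
      · simp [P, Pi.single_apply, eq_comm]
      · intro c _ hc
        simp [hc.symm]
      · intro h
        exact absurd (Finset.mem_univ _) h
    · simp
  rw [hsum, Finset.sum_mul]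
  apply W.sum_mem
  intro i _
  rw [sub_mul, ← hNk, ← hNk]
  apply hW
  have h1 : om J (Pi.single (Sum.inl i) (1 : F)) (Pi.single (Sum.inr (σ i)) (1 : F)) =
      J (Sum.inl i) (Sum.inr (σ i)) := by
    unfold om
    rw [dotProduct_single, mul_one, Matrix.single_one_vecMul]
    rfl
  rw [h1, hJ]
  unfold Matrix.J
  rw [Matrix.fromBlocks_apply₁₂, Matrix.neg_apply, Matrix.one_apply_ne (hσ i).symm, neg_zero]

/-- Every nonzero space of matrices stable under the transvections contains an invertible
matrix. -/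
theorem robust_std (hg : 2 ≤ g) (W : Submodule k (Matrix (Fin g ⊕ Fin g) (Fin g ⊕ Fin g) k))
    (hW0 : W ≠ ⊥)
    (hW : ∀ (c : F) (x : Fin g ⊕ Fin g → F), ∀ Y ∈ W,
      (1 + algebraMap F k c • Nk k (Matrix.J (Fin g) F) x x) * Y *
        (1 - algebraMap F k c • Nk k (Matrix.J (Fin g) F) x x) ∈ W) : ∃ Y ∈ W, IsUnit Y := by
  classical
  set J := Matrix.J (Fin g) F with hJ
  have hJs : ∀ x, om J x x = 0 := om_J_self
  have hJd : IsUnit J.det := J_det_unit
  have hJk : J.map (algebraMap F k) = Matrix.J (Fin g) k := Matrix.map_J _ _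
  have hJu : IsUnit (Matrix.J (Fin g) k) := by
    rw [Matrix.isUnit_iff_isUnit_det]
    exact Matrix.isUnit_det_J (Fin g) k
  obtain ⟨X, hX, hX0⟩ := Submodule.exists_mem_ne_zero_of_ne_bot hW0
  by_cases hform : ∀ v w : Fin g ⊕ Fin g → F, v ≠ 0 → (∀ c : F, w ≠ c • v) → om J v w = 0 →
      hat k (v ᵥ* J) ⬝ᵥ X *ᵥ hat k w = 0
  · obtain ⟨l, hl⟩ := scalar_of_form hJs hJd (by rw [Fintype.card_sum, Fintype.card_fin]; omega) X
      hform
    refine ⟨X, hX, ?_⟩
    have hl0 : l ≠ 0 := by
      rintro rfl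
      rw [zero_smul] at hl
      exact hX0 hl
    rw [hl]
    exact IsUnit.of_mul_eq_one (l⁻¹ • 1) (by
      rw [smul_mul_smul_comm, mul_inv_cancel₀ hl0, one_mul, one_smul])
  · push Not at hform
    obtain ⟨v, w, hv, hind, hvw, hne⟩ := hform
    have h1 := mem_NN W hJs hW hX hvw
    set α := hat k (v ᵥ* J) ⬝ᵥ X *ᵥ hat k w with hα
    set β := hat k (w ᵥ* J) ⬝ᵥ X *ᵥ hat k v with hβ
    rw [add_comm] at h1
    have h2 := mem_move W hJs hJd hW hv hind hvw h1
    by_cases hαβ : α + β = 0
    · have hβ' : β = -α := by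
        rw [eq_neg_iff_add_eq_zero, add_comm]
        exact hαβ
      have h3 : ∀ u, om J v u = 0 → Nk k J v u - Nk k J u v ∈ W := by
        intro u hu
        have h4 := W.smul_mem α⁻¹ (h2 u hu)
        have h5 : α⁻¹ • (α • Nk k J v u + β • Nk k J u v) = Nk k J v u - Nk k J u v := by
          rw [hβ', neg_smul, ← sub_eq_add_neg, ← smul_sub, smul_smul, inv_mul_cancel₀ hne,
            one_smul]
        rwa [h5] at h4
      exact exists_wedge hg W (mem_wedge W hJs hJd hW hv h3)
    · have h3 := h2 v (hJs v)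
      rw [← add_smul] at h3
      have h4 := W.smul_mem (α + β)⁻¹ h3
      rw [smul_smul, inv_mul_cancel₀ hαβ, one_smul] at h4
      have h5 := mem_J W hJs hJd hW hv h4
      rw [hJk] at h5
      exact ⟨_, h5, hJu⟩

end

end Pool.Agent.RF
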