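import Pool.Agent.Lib_helper28.TE28.Defs
import Pool.Agent.Lib_helper28.TE28.Sp
import Pool.Agent.Lib_helper28.TE28.Main

/-!
# Representations whose image contains a symplectic group
-/

set_option autoImplicit false

namespace Pool.Agent.RF

open Matrix

section

variable {F : Type} [Field F] {k : Type*} [Field k] [Algebra F k] {g d : ℕ} {G : Type*} [Group G]

theorem map_transvection (c : F) (x : Fin g ⊕ Fin g → F) :
    (1 + c • Nk F (Matrix.J (Fin g) F) x x).map (algebraMap F k) =
      1 + algebraMap F k c • Nk k (Matrix.J (Fin g) F) x x := by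
  ext i j
  simp only [Matrix.map_apply, Matrix.add_apply, Matrix.smul_apply, Nk, Matrix.vecMulVec_apply,
    hat, smul_eq_mul, map_add, map_mul, Matrix.one_apply]
  by_cases hij : i = j
  · simp [hij]
  · simp [hij]

theorem Nk_sq (c : F) (x : Fin g ⊕ Fin g → F) :
    (1 + algebraMap F k c • Nk k (Matrix.J (Fin g) F) x x) *
      (1 - algebraMap F k c • Nk k (Matrix.J (Fin g) F) x x) = 1 := by
  have h1 : Nk k (Matrix.J (Fin g) F) x x * Nk k (Matrix.J (Fin g) F) x x = 0 := by
    rw [Nk_mul, om_J_self, map_zero, zero_smul]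
  rw [add_mul, one_mul, mul_sub, mul_one, smul_mul_smul_comm, h1, smul_zero, sub_zero,
    sub_add_cancel]

variable (r : G →* Matrix (Fin d) (Fin d) k) {P : Matrix (Fin d) (Fin g ⊕ Fin g) k}
    {Q : Matrix (Fin g ⊕ Fin g) (Fin d) k}

theorem exists_transvection (hPQ : P * Q = 1) (hQP : Q * P = 1)
    (h : ∀ A ∈ Matrix.symplecticGroup (Fin g) F, ∃ σ, r σ = P * A.map (algebraMap F k) * Q)
    (c : F) (x : Fin g ⊕ Fin g → F) :
    ∃ σ, r σ = P * (1 + algebraMap F k c • Nk k (Matrix.J (Fin g) F) x x) * Q ∧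
      r σ⁻¹ = P * (1 - algebraMap F k c • Nk k (Matrix.J (Fin g) F) x x) * Q := by
  obtain ⟨σ, hσ⟩ := h _ (transvection_mem c x)
  rw [map_transvection] at hσ
  refine ⟨σ, hσ, ?_⟩
  have h1 : r σ⁻¹ * r σ = 1 := by rw [← map_mul, inv_mul_cancel, map_one]
  have h2 : r σ * (P * (1 - algebraMap F k c • Nk k (Matrix.J (Fin g) F) x x) * Q) = 1 := by
    rw [hσ]
    calc P * (1 + algebraMap F k c • Nk k (Matrix.J (Fin g) F) x x) * Q *
          (P * (1 - algebraMap F k c • Nk k (Matrix.J (Fin g) F) x x) * Q)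
        = P * ((1 + algebraMap F k c • Nk k (Matrix.J (Fin g) F) x x) * (Q * P) *
          (1 - algebraMap F k c • Nk k (Matrix.J (Fin g) F) x x)) * Q := by
          simp only [Matrix.mul_assoc]
      _ = 1 := by rw [hQP, mul_one, Nk_sq, Matrix.mul_one, hPQ]
  calc r σ⁻¹ = r σ⁻¹ * (r σ *
        (P * (1 - algebraMap F k c • Nk k (Matrix.J (Fin g) F) x x) * Q)) := by rw [h2, mul_one]
    _ = _ := by rw [← mul_assoc, h1, one_mul]

/-- Symplectic images are robust. -/
theorem robust_of_sp (hg : 2 ≤ g) (hPQ : P * Q = 1) (hQP : Q * P = 1)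
    (h : ∀ A ∈ Matrix.symplecticGroup (Fin g) F, ∃ σ, r σ = P * A.map (algebraMap F k) * Q) :
    Robust r := by
  intro W hW0 hW _
  let f : Matrix (Fin g ⊕ Fin g) (Fin g ⊕ Fin g) k →ₗ[k] Matrix (Fin d) (Fin d) k :=
    { toFun := fun Y => P * Y * Q
      map_add' := fun A B => by rw [Matrix.mul_add, Matrix.add_mul]
      map_smul' := fun c A => by
        rw [Matrix.mul_smul, Matrix.smul_mul, RingHom.id_apply] }
  obtain ⟨X, hX, hX0⟩ := Submodule.exists_mem_ne_zero_of_ne_bot hW0
  have hXX : P * (Q * X * P) * Q = X := by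
    calc P * (Q * X * P) * Q = (P * Q) * X * (P * Q) := by simp only [Matrix.mul_assoc]
      _ = X := by rw [hPQ, one_mul, mul_one]
  have hne : W.comap f ≠ ⊥ := by
    intro hbot
    have h1 : Q * X * P ∈ W.comap f := by
      change P * (Q * X * P) * Q ∈ W
      rw [hXX]
      exact hX
    rw [hbot, Submodule.mem_bot] at h1
    apply hX0
    rw [← hXX, h1, Matrix.mul_zero, Matrix.zero_mul]
  obtain ⟨Y, hY, hYu⟩ := robust_std (F := F) hg (W.comap f) hne (by
    intro c x Y hY
    obtain ⟨σ, h1, h2⟩ := exists_transvection r hPQ hQP h c x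
    have h3 := hW σ _ hY
    change P * ((1 + algebraMap F k c • Nk k (Matrix.J (Fin g) F) x x) * Y *
        (1 - algebraMap F k c • Nk k (Matrix.J (Fin g) F) x x)) * Q ∈ W
    have h4 : r σ * f Y * r σ⁻¹ = P * ((1 + algebraMap F k c • Nk k (Matrix.J (Fin g) F) x x) * Y *
        (1 - algebraMap F k c • Nk k (Matrix.J (Fin g) F) x x)) * Q := by
      rw [h1, h2]
      change P * (1 + algebraMap F k c • Nk k (Matrix.J (Fin g) F) x x) * Q * (P * Y * Q) *
        (P * (1 - algebraMap F k c • Nk k (Matrix.J (Fin g) F) x x) * Q) = _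
      calc P * (1 + algebraMap F k c • Nk k (Matrix.J (Fin g) F) x x) * Q * (P * Y * Q) *
            (P * (1 - algebraMap F k c • Nk k (Matrix.J (Fin g) F) x x) * Q)
          = P * ((1 + algebraMap F k c • Nk k (Matrix.J (Fin g) F) x x) * (Q * P) * Y * (Q * P) *
            (1 - algebraMap F k c • Nk k (Matrix.J (Fin g) F) x x)) * Q := by
            simp only [Matrix.mul_assoc]
        _ = _ := by rw [hQP, mul_one, mul_one]
    rw [← h4]
    exact h3)
  refine ⟨P * Y * Q, hY, ?_⟩
  obtain ⟨Z, hZ⟩ := hYu.exists_right_inv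
  refine IsUnit.of_mul_eq_one (P * Z * Q) ?_
  calc P * Y * Q * (P * Z * Q) = P * (Y * (Q * P) * Z) * Q := by simp only [Matrix.mul_assoc]
    _ = 1 := by rw [hQP, mul_one, hZ, Matrix.mul_one, hPQ]

/-- If the span of the image contains all the matrices of rank one, it is everything. -/
theorem span_of_all (hPQ : P * Q = 1)
    (h4 : ∀ x y : Fin g ⊕ Fin g → F, P * Nk k (Matrix.J (Fin g) F) x y * Q ∈
      Submodule.span k (Set.range r)) : Submodule.span k (Set.range r) = ⊤ := by
  classical
  set J := Matrix.J (Fin g) F with hJ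
  have hJd : IsUnit J.det := J_det_unit
  have hs : ∀ a : Fin g ⊕ Fin g, hat k (Pi.single a (1 : F) : Fin g ⊕ Fin g → F) =
      Pi.single a (1 : k) := by
    intro a
    funext b
    by_cases hab : b = a
    · subst hab
      simp [hat]
    · simp [hat, hab]
  have h5 : ∀ i j, P * (Matrix.single i j (1 : k) : Matrix (Fin g ⊕ Fin g) (Fin g ⊕ Fin g) k) * Q ∈
      Submodule.span k (Set.range r) := by
    intro i j
    have h6 := h4 (Pi.single i 1) (Pi.single j 1 ᵥ* J⁻¹)
    have h7 : Nk k J (Pi.single i 1) (Pi.single j 1 ᵥ* J⁻¹) = Matrix.single i j (1 : k) := by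
      unfold Nk
      rw [Matrix.vecMul_vecMul, Matrix.nonsing_inv_mul _ hJd, Matrix.vecMul_one, hs, hs]
      rw [Matrix.single_eq_single_vecMulVec_single]
    rwa [h7] at h6
  rw [eq_top_iff]
  intro X _
  have h6 : X = P * (Q * X * P) * Q := by
    calc X = (P * Q) * X * (P * Q) := by rw [hPQ, one_mul, mul_one]
      _ = P * (Q * X * P) * Q := by simp only [Matrix.mul_assoc]
  rw [h6, Matrix.matrix_eq_sum_single (Q * X * P), Matrix.mul_sum, Matrix.sum_mul]
  apply Submodule.sum_mem
  intro i _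
  rw [Matrix.mul_sum, Matrix.sum_mul]
  apply Submodule.sum_mem
  intro j _
  have h7 : Matrix.single i j ((Q * X * P) i j) = (Q * X * P) i j • Matrix.single i j (1 : k) := by
    rw [Matrix.smul_single, smul_eq_mul, mul_one]
  rw [h7, Matrix.mul_smul, Matrix.smul_mul]
  exact Submodule.smul_mem _ _ (h5 i j)

/-- Symplectic images span. -/
theorem span_of_sp (hPQ : P * Q = 1) (hQP : Q * P = 1)
    (h : ∀ A ∈ Matrix.symplecticGroup (Fin g) F, ∃ σ, r σ = P * A.map (algebraMap F k) * Q) :
    Submodule.span k (Set.range r) = ⊤ := by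
  classical
  set J := Matrix.J (Fin g) F with hJ
  have hJs : ∀ x, om J x x = 0 := om_J_self
  have hJd : IsUnit J.det := J_det_unit
  have hmul : ∀ A B, A ∈ Submodule.span k (Set.range r) → B ∈ Submodule.span k (Set.range r) →
      A * B ∈ Submodule.span k (Set.range r) := by
    intro A B hA hB
    have h1 := Submodule.mul_mem_mul hA hB
    rw [Submodule.span_mul_span] at h1
    refine Submodule.span_mono ?_ h1
    rintro _ ⟨_, ⟨a, rfl⟩, _, ⟨b, rfl⟩, rfl⟩
    exact ⟨a * b, map_mul r a b⟩
  have h1 : ∀ x, P * Nk k J x x * Q ∈ Submodule.span k (Set.range r) := by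
    intro x
    obtain ⟨σ, hσ, -⟩ := exists_transvection r hPQ hQP h 1 x
    have h2 : P * Nk k J x x * Q = r σ - r 1 := by
      rw [hσ, map_one, map_one, one_smul, Matrix.mul_add, Matrix.add_mul, Matrix.mul_one, hPQ,
        add_sub_cancel_left]
    rw [h2]
    exact Submodule.sub_mem _ (Submodule.subset_span ⟨σ, rfl⟩) (Submodule.subset_span ⟨1, rfl⟩)
  have h2 : ∀ x y z w, P * Nk k J x y * Q * (P * Nk k J z w * Q) =
      algebraMap F k (om J y z) • (P * Nk k J x w * Q) := by
    intro x y z w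
    calc P * Nk k J x y * Q * (P * Nk k J z w * Q) = P * (Nk k J x y * (Q * P) * Nk k J z w) * Q := by
          simp only [Matrix.mul_assoc]
      _ = _ := by rw [hQP, mul_one, Nk_mul, Matrix.mul_smul, Matrix.smul_mul]
  have h3 : ∀ x y, om J x y ≠ 0 → P * Nk k J x y * Q ∈ Submodule.span k (Set.range r) := by
    intro x y hxy
    have h4 := hmul _ _ (h1 x) (h1 y)
    rw [h2] at h4
    have h5 : algebraMap F k (om J x y) ≠ 0 := (map_ne_zero _).mpr hxy
    have h6 := Submodule.smul_mem _ (algebraMap F k (om J x y))⁻¹ h4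
    rwa [smul_smul, inv_mul_cancel₀ h5, one_smul] at h6
  have h4 : ∀ x y, P * Nk k J x y * Q ∈ Submodule.span k (Set.range r) := by
    intro x y
    by_cases hx : x = 0
    · have h5 : Nk k J x y = 0 := by
        have := Nk_smul_left k J (0 : F) x y
        rw [zero_smul, map_zero, zero_smul] at this
        rw [hx]
        exact this
      rw [h5, Matrix.mul_zero, Matrix.zero_mul]
      exact Submodule.zero_mem _
    by_cases hy : y = 0
    · have h5 : Nk k J x y = 0 := by
        have := Nk_smul_right k J (0 : F) x y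
        rw [zero_smul, map_zero, zero_smul] at this
        rw [hy]
        exact this
      rw [h5, Matrix.mul_zero, Matrix.zero_mul]
      exact Submodule.zero_mem _
    obtain ⟨z, hz1, hz2⟩ : ∃ z, om J x z ≠ 0 ∧ om J z y ≠ 0 := by
      obtain ⟨a, ha⟩ := exists_om_ne hJd hx
      obtain ⟨b, hb⟩ := exists_om_ne hJd hy
      have hb' : om J b y ≠ 0 := by
        rw [om_skew hJs, neg_ne_zero]
        exact hb
      by_cases h5 : om J a y = 0
      · by_cases h6 : om J x b = 0
        · refine ⟨a + b, ?_, ?_⟩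
          · rw [om_add_right, h6, add_zero]
            exact ha
          · rw [om_add_left, h5, zero_add]
            exact hb'
        · exact ⟨b, h6, hb'⟩
      · exact ⟨a, ha, h5⟩
    have h5 := hmul _ _ (hmul _ _ (h1 x) (h1 z)) (h1 y)
    rw [h2, smul_mul_assoc, h2, smul_smul] at h5
    have h6 : algebraMap F k (om J x z) * algebraMap F k (om J z y) ≠ 0 :=
      mul_ne_zero ((map_ne_zero _).mpr hz1) ((map_ne_zero _).mpr hz2)
    have h7 := Submodule.smul_mem _ (algebraMap F k (om J x z) * algebraMap F k (om J z y))⁻¹ h5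
    rwa [smul_smul, inv_mul_cancel₀ h6, one_smul] at h7
  exact span_of_all r hPQ h4

end

theorem ContainsSp.robust {k : Type*} [Field k] {G : Type*} [Group G] {d : ℕ}
    {r : G →* Matrix (Fin d) (Fin d) k} (h : ContainsSp r) : Robust r := by
  obtain ⟨F, _, _, g, P, Q, hg, h1, h2, h3⟩ := h
  exact robust_of_sp r hg h1 h2 h3

theorem ContainsSp.span {k : Type*} [Field k] {G : Type*} [Group G] {d : ℕ}
    {r : G →* Matrix (Fin d) (Fin d) k} (h : ContainsSp r) :
    Submodule.span k (Set.range r) = ⊤ := by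
  obtain ⟨F, _, _, g, P, Q, hg, h1, h2, h3⟩ := h
  exact span_of_sp r h1 h2 h3

end Pool.Agent.RF
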