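import Pool.Agent.Lib_helper28.TE28.Statement

/-!
# The three alternatives in the theorem on the Galois action modulo one prime
-/

set_option autoImplicit false

namespace Pool.Agent.RF

open NumberField Pool.Agent.TT Pool.Agent.TB Pool.Agent.TF

/-- Alternatives (1) and (2) of `BigImage`, or alternative (3): `a > 0`, `p > d` and some element of
the image of `r` has no eigenvalue `x` with `x ^ n = 1` for an `n > 0` with `φ(n) ≤ d`. -/
def ResidualCriterion {K : Type} [Field K] [Algebra K Qbar] {p : ℕ} [Fact p.Prime] {d : ℕ}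
    (ρ : (Qbar ≃ₐ[K] Qbar) →* Matrix (Fin d) (Fin d) ℂ_[p]) {k : Type} [Field k]
    (r : (Qbar ≃ₐ[K] Qbar) →* Matrix (Fin d) (Fin d) k) (j a : ℕ) : Prop :=
  BigImage ρ r j ∨ (0 < a ∧ d < p ∧ ∃ σ, ∀ n : ℕ, 0 < n → n.totient ≤ d → (1 - r σ ^ n).det ≠ 0)

end Pool.Agent.RF
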